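import Pool.Agent.Lib.P5.Far

/-! Classes of a graph with long circuits (MP_c95763_co): the class of a vertex of `K` is a single
vertex, the class of a fresh vertex is its circuit; circuits with weights one are tame. -/

set_option autoImplicit false

namespace JP.CG

open Finset Classical

variable {V D : Type*} {G : CG V D} {K : Finset V} {F : Finset D}

/-- the class of a vertex -/
noncomputable def nc (G : CG V D) (K : Finset V) (F : Finset D) (v : V) : Finset V :=
  if v ∈ K then {v} else G.cir K F v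

lemma nc_K {v : V} (h : v ∈ K) : G.nc K F v = {v} := if_pos h

lemma nc_f {v : V} (h : v ∉ K) : G.nc K F v = G.cir K F v := if_neg h

lemma Full.nabs (hf : G.Full K F) {v : V} (hv : v ∈ G.vs) (h : v ∉ K) : ¬ G.Abs K F v :=
  fun ha => h (hf.abs v hv ha)

lemma nc_part (hc : G.Cls K F) (hf : G.Full K F) : G.Part (G.nc K F) where
  self := by
    intro v hv
    by_cases h : v ∈ K
    · rw [nc_K h]
      exact mem_singleton_self v
    · rw [nc_f h]
      exact self_mem_cir hv
  sub := by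
    intro v hv
    by_cases h : v ∈ K
    · rw [nc_K h]
      exact singleton_subset_iff.2 hv
    · rw [nc_f h]
      exact filter_subset _ _
  eq := by
    intro v hv w hw
    by_cases h : v ∈ K
    · rw [nc_K h, mem_singleton] at hw
      rw [hw]
    · rw [nc_f h] at hw ⊢
      have h1 := hf.nabs hv h
      rw [nc_f ((adm_cir h1).dis w hw)]
      exact cir_eq hc h1 hw

/-- a saturated set avoiding `K` is a union of fresh circuits -/
lemma adm_of_nc (hc : G.Cls K F) {X : Finset V} (hX : X ⊆ G.vs) (hs : CSat (G.nc K F) X)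
    (hK : ∀ v ∈ X, v ∉ K) : G.Adm K F X := by
  refine ⟨hX, hK, fun d hd hp => ?_⟩
  have h1 := hs _ hp
  rw [nc_f (hK _ hp)] at h1
  exact h1 (cir_mem_al hc hd)

/-- a union of fresh circuits is saturated -/
lemma nc_of_adm {X : Finset V} (hX : G.Adm K F X) : CSat (G.nc K F) X := by
  intro v hv
  rw [nc_f (hX.dis v hv)]
  exact cir_sub hX hv

/-- at least two darts of a fresh circuit leave a proper part of it -/
lemma two_out (hc : G.Cls K F) {v : V} (hv : ¬ G.Abs K F v) {S : Finset V}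
    (hS : S ⊆ G.cir K F v) (hn : S.Nonempty) (hne : S ≠ G.cir K F v) :
    2 ≤ (F.filter fun d => G.pi d ∈ S ∧ G.pi (G.al d) ∉ S).card := by
  have hA := adm_cir hv
  have h1 := hc.even_cross (Y := S) (hS.trans hA.sub) fun w hw => hA.dis w (hS hw)
  by_contra hlt
  have h2 : (F.filter fun d => G.pi d ∈ S ∧ G.pi (G.al d) ∉ S).card = 0 := by
    obtain ⟨k, hk⟩ := h1
    omega
  rw [card_eq_zero, filter_eq_empty_iff] at h2
  refine hne (cir_min hc hv ⟨hS.trans hA.sub, fun w hw => hA.dis w (hS hw), ?_⟩ hS hn)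
  intro d hd hp
  by_contra h3
  exact h2 hd ⟨hp, h3⟩

/-- a circuit with weights one is tame -/
lemma tm_one (hc : G.Cls K F) {v : V} (hv : ¬ G.Abs K F v) {z : D → ℕ} (t : V → ℕ)
    (hz : ∀ d ∈ F, G.pi d ∈ G.cir K F v → z d = 1) : G.Tm z t (G.cir K F v) := by
  intro S hS hn hne
  have h1 := two_out hc hv hS hn hne
  have h2 : (F.filter fun d => G.pi d ∈ S ∧ G.pi (G.al d) ∉ S).card ≤ G.zin z (G.cir K F v) S := by
    unfold zin
    have h3 : ∑ d ∈ F.filter (fun d => G.pi d ∈ S ∧ G.pi (G.al d) ∉ S), 1 ≤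
        ∑ d ∈ F.filter (fun d => G.pi d ∈ S ∧ G.pi (G.al d) ∉ S), z d := by
      refine sum_le_sum fun d hd => ?_
      obtain ⟨h3, h4, -⟩ := mem_filter.1 hd
      rw [hz d h3 (hS h4)]
    rw [card_eq_sum_ones]
    refine h3.trans (sum_le_sum_of_subset fun d hd => ?_)
    obtain ⟨h3, h4, h5⟩ := mem_filter.1 hd
    exact mem_filter.2 ⟨hc.Fsub h3, h4, (adm_cir hv).clo d h3 (hS h4), h5⟩
  exact ⟨by omega, fun h3 => absurd h3 (by omega)⟩

/-- the weights of a class -/
noncomputable def farW (G : CG V D) (F A : Finset D) (P : Finset V) : D → ℕ :=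
  if hP : (∃ w, G.FarP F A P w) ∧ (A.filter fun d => G.pi d ∈ P).card = 2 then
    Classical.choose hP.1 else fun _ => 1

lemma farW_pos {A : Finset D} {P : Finset V} (h1 : ∃ w, G.FarP F A P w)
    (h2 : (A.filter fun d => G.pi d ∈ P).card = 2) : G.FarP F A P (G.farW F A P) := by
  unfold farW
  rw [dif_pos ⟨h1, h2⟩]
  exact Classical.choose_spec _

lemma farW_neg {A : Finset D} {P : Finset V}
    (h2 : (A.filter fun d => G.pi d ∈ P).card ≠ 2) (d : D) : G.farW F A P d = 1 := by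
  unfold farW
  rw [dif_neg fun h => h2 h.2]

/-- weights on `F`: 1 on `C` and on the circuits which are not passed; a passed circuit is tame -/
theorem exists_far (hc : G.Cls K F) (hf : G.Full K F) {C : Finset V}
    (hC : ∀ v ∈ G.vs, v ∉ K → v ∈ C → G.cir K F v ⊆ C)
    (hpen : ∀ v ∈ G.vs, v ∉ K → v ∉ C → ∃ p f l, G.Pen K F p f l ∧ p 0 = v)
    {A : Finset D} (hA : A ⊆ G.ds) (hAF : ∀ d ∈ A, d ∉ F) :
    ∃ g : D → ℕ, (∀ d ∈ F, g (G.al d) = g d) ∧ (∀ d ∈ F, G.pi d ∈ C → g d = 1) ∧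
      (∀ d ∈ F, (A.filter fun x => G.pi x ∈ G.cir K F (G.pi d)).card ≠ 2 → g d = 1) ∧
      (∀ v ∈ G.vs, v ∉ K → v ∉ C → (∑ d ∈ F.filter fun d => G.pi d = v, g d) = 2 +
        if (A.filter fun d => G.pi d ∈ G.cir K F v).card = 2 then
          (A.filter fun d => G.pi d = v).card else 0) ∧
      ∀ v ∈ G.vs, v ∉ K → v ∉ C → (A.filter fun d => G.pi d ∈ G.cir K F v).card = 2 →
        ∀ (z : D → ℕ) (t : V → ℕ), (∀ d ∈ F, G.pi d ∈ G.cir K F v → z d = g d) →
        (∀ d ∈ G.ds, d ∉ F → G.pi d ∈ G.cir K F v → z d = if d ∈ A then 0 else 1) →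
        (∀ w ∈ G.cir K F v, t w = 0) → G.Tm z t (G.cir K F v) := by
  have hW : ∀ v ∈ G.vs, v ∉ K → v ∉ C → ∃ w, G.FarP F A (G.cir K F v) w := by
    intro v hv hK hCv
    obtain ⟨p, f, l, hp, h0⟩ := hpen v hv hK hCv
    rw [← h0, hp.cir_eq hc 0]
    exact far_exists hp hc hA hAF
  have hFv : ∀ d ∈ F, G.pi d ∈ G.vs ∧ G.pi d ∉ K := fun d hd =>
    ⟨G.pi_mem d (hc.Fsub hd), hf.out d hd⟩
  have hCal : ∀ d ∈ F, G.pi (G.al d) ∈ C ↔ G.pi d ∈ C := by
    intro d hd
    constructor
    · intro h1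
      have h2 := hFv _ (hc.Fal d hd)
      have h3 := hC _ h2.1 h2.2 h1
      rw [cir_al hc hd] at h3
      exact h3 (self_mem_cir (hFv d hd).1)
    · intro h1
      exact hC _ (hFv d hd).1 (hFv d hd).2 h1 (cir_mem_al hc hd)
  have hCv : ∀ v ∈ G.vs, v ∉ K → v ∉ C → ∀ w ∈ G.cir K F v, w ∉ C := by
    intro v hv hK hn w hw h1
    have h2 := hf.nabs hv hK
    have h3 := adm_cir h2
    have h4 := hC w (h3.sub hw) (h3.dis w hw) h1
    rw [cir_eq hc h2 hw] at h4
    exact hn (h4 (self_mem_cir hv))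
  refine ⟨fun d => if G.pi d ∈ C then 1 else G.farW F A (G.cir K F (G.pi d)) d, ?_, ?_, ?_, ?_, ?_⟩
  · intro d hd
    show (if G.pi (G.al d) ∈ C then 1 else G.farW F A (G.cir K F (G.pi (G.al d))) (G.al d)) =
      if G.pi d ∈ C then 1 else G.farW F A (G.cir K F (G.pi d)) d
    rw [cir_al hc hd]
    by_cases h1 : G.pi d ∈ C
    · rw [if_pos h1, if_pos ((hCal d hd).2 h1)]
    · rw [if_neg h1, if_neg (fun h => h1 ((hCal d hd).1 h))]
      by_cases h2 : (A.filter fun x => G.pi x ∈ G.cir K F (G.pi d)).card = 2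
      · exact (farW_pos (hW _ (hFv d hd).1 (hFv d hd).2 h1) h2).1 d hd
          (self_mem_cir (hFv d hd).1)
      · rw [farW_neg h2, farW_neg h2]
  · intro d _ h1
    show (if G.pi d ∈ C then 1 else _) = 1
    rw [if_pos h1]
  · intro d _ h1
    show (if G.pi d ∈ C then 1 else G.farW F A (G.cir K F (G.pi d)) d) = 1
    split_ifs with h2
    · rfl
    · exact farW_neg h1 d
  · intro v hv hK hn
    have e1 : (∑ d ∈ F.filter fun d => G.pi d = v,
        if G.pi d ∈ C then 1 else G.farW F A (G.cir K F (G.pi d)) d) =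
        ∑ d ∈ F.filter fun d => G.pi d = v, G.farW F A (G.cir K F v) d := by
      refine sum_congr rfl fun d hd => ?_
      rw [(mem_filter.1 hd).2, if_neg hn]
    show (∑ d ∈ F.filter fun d => G.pi d = v,
      if G.pi d ∈ C then 1 else G.farW F A (G.cir K F (G.pi d)) d) = _
    rw [e1]
    by_cases h2 : (A.filter fun x => G.pi x ∈ G.cir K F v).card = 2
    · have h3 := (farW_pos (hW v hv hK hn) h2).2.1 v (self_mem_cir hv)
      exact h3
    · rw [if_neg h2, sum_congr rfl fun d _ => farW_neg h2 d, sum_const, smul_eq_mul, mul_one,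
        hc.F2 v hv hK]
  · intro v hv hK hn h2 z t hz1 hz2 ht
    refine (farW_pos (hW v hv hK hn) h2).2.2 z t ?_ hz2 fun _ => ht
    intro d hd hp
    rw [hz1 d hd hp]
    have h3 := hCv v hv hK hn _ hp
    show (if G.pi d ∈ C then 1 else G.farW F A (G.cir K F (G.pi d)) d) = _
    rw [if_neg h3, cir_eq hc (hf.nabs hv hK) hp]

end JP.CG
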