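import Pool.Agent.Lib.JL.CutOneW
import Pool.Agent.Lib.P5.Main

/-! Small even sets with two boundary edges, class with long circuits (copy of `JP.CutTwo`). -/

set_option autoImplicit false

namespace JP.CG

open Finset Classical

variable {V D : Type*} {G : CG V D} {K : Finset V} {F : Finset D} {W : Finset (Finset V)}

namespace RJ

variable {R : Finset V} {p q : D}

/-- outside part: the rest has even size and avoids `K` -/
lemma inst_outW (h : G.RJ R p q) (hI : G.InstW K F W) (hF : p ∈ F ↔ q ∈ F)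
    (he : Even (G.vs \ R).card) (hK : ∀ v ∈ G.vs \ R, v ∉ K) (hW : ∀ L ∈ W, L ⊆ R) :
    h.gr.InstW (K ∩ R) (F.filter fun d => G.pi d ∈ R) W := by
  have htX : G.tk (G.vs \ R) = ∅ := by
    rw [eq_empty_iff_forall_notMem]
    intro d hd
    rw [mem_tk] at hd
    exact hK _ hd.2.1 (hI.cls.tokK d hd.1 hd.2.2)
  have hcard : ∀ Y ⊆ R, (Y ∪ (G.vs \ R)).card = Y.card + (G.vs \ R).card := by
    intro Y hY
    apply card_union_of_disjoint
    rw [disjoint_left]
    intro v hv h1
    exact (mem_sdiff.1 h1).2 (hY hv)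
  have hodd : ∀ Y ⊆ R, Odd Y.card → Odd (Y ∪ (G.vs \ R)).card := by
    intro Y hY ho
    rw [hcard Y hY]
    exact ho.add_even he
  have hbig : ∀ Z, h.gr.Adm (K ∩ R) (F.filter fun d => G.pi d ∈ R) Z →
      G.pi p ∈ Z ∧ G.pi q ∈ Z → G.Adm K F (Z ∪ (G.vs \ R)) := by
    intro Z hZ hn
    have hs : Z ⊆ R := hZ.sub
    refine ⟨union_subset (hs.trans h.sub) sdiff_subset, ?_, ?_⟩
    · intro v hv h1
      rw [mem_union] at hv
      rcases hv with h2 | h2
      · exact hZ.dis v h2 (mem_inter.2 ⟨h1, hs h2⟩)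
      · exact hK v h2 h1
    · intro d hd hdZ
      rw [mem_union] at hdZ ⊢
      have hds := hI.cls.Fsub hd
      by_cases h3 : G.pi (G.al d) ∈ G.vs \ R
      · exact Or.inr h3
      · left
        have h4 : G.pi (G.al d) ∈ R := by
          by_contra hc
          exact h3 (mem_sdiff.2 ⟨G.pi_mem _ (G.al_mem d hds), hc⟩)
        rcases hdZ with h5 | h5
        · have h6 := hZ.clo d (mem_filter.2 ⟨hd, hs h5⟩) h5
          have h7 : d ≠ p := fun he => h.mp.2.2 (he ▸ h4)
          have h8 : d ≠ q := fun he => h.mq.2.2 (he ▸ h4)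
          rw [h.gr_al_of h7 h8] at h6
          exact h6
        · have h6 : G.al d ∈ G.bd R := (G.mem_bd).2
            ⟨G.al_mem d hds, h4, by rw [G.al_al d hds]; exact (mem_sdiff.1 h5).2⟩
          rcases (h.bd _).1 h6 with h7 | h7
          · rw [h7]; exact hn.1
          · rw [h7]; exact hn.2
  have htk : (h.gr.tk R).card ≤ (G.tk G.vs).card := by
    rw [h.gr_tk (subset_refl _)]
    refine card_le_card ?_
    intro d hd
    rw [mem_tk] at hd ⊢
    exact ⟨hd.1, h.sub hd.2.1, hd.2.2⟩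
  refine ⟨⟨?_, ?_, ?_, h.gr_cls hI.cls hF, ?_⟩, ?_, ?_, hI.smw.big, ?_⟩
  · show Even R.card
    have h1 := card_sdiff_add_card_eq_card h.sub
    have h2 := hI.even
    rw [← h1, Nat.even_add] at h2
    exact h2.1 he
  · show (h.gr.tk R).card ≤ 4
    exact htk.trans hI.four
  · intro Y hY ho
    have hY' : Y ⊆ R := hY
    by_cases hn : G.pi p ∈ Y ∧ G.pi q ∈ Y
    · have h1 := hI.b0 _ (union_subset (hY'.trans h.sub) sdiff_subset) (hodd Y hY' ho)
      unfold dg at h1 ⊢
      rw [h.bd_out hY' hn.1, h.gr_tk hY']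
      have h2 : G.tk (Y ∪ (G.vs \ R)) ⊆ G.tk Y := by
        intro d hd
        rw [mem_tk, mem_union] at hd
        rcases hd.2.1 with h3 | h3
        · exact (G.mem_tk).2 ⟨hd.1, h3, hd.2.2⟩
        · have : d ∈ G.tk (G.vs \ R) := (G.mem_tk).2 ⟨hd.1, h3, hd.2.2⟩
          rw [htX] at this
          exact absurd this (notMem_empty _)
      have h3 := card_le_card h2
      omega
    · have h1 := hI.b0 Y (hY'.trans h.sub) ho
      unfold dg at h1 ⊢
      rw [h.gr_bd hY' hn, h.gr_tk hY']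
      exact h1
  · intro Z hZ ho
    have hs : Z ⊆ R := hZ.sub
    by_cases hn : G.pi p ∈ Z ∧ G.pi q ∈ Z
    · rw [h.bd_out hs hn.1]
      exact hI.cc _ (hbig Z hZ hn) (hodd Z hs ho)
    · rw [h.gr_bd hs hn]
      exact hI.cc Z (h.adm_of hZ hn) ho
  · exact hI.num.mono htk le_rfl fun hK0 => by rw [hK0, empty_inter]
  · intro L hL
    have hA := hI.smw.atm L hL
    refine ⟨?_, hA.ne, ?_⟩
    · have h5 := h.adm_cap hI.cls hA.adm hF
      rwa [inter_eq_left.2 (hW L hL)] at h5
    · intro Z hZ hn0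
      by_cases hn : G.pi p ∈ Z ∧ G.pi q ∈ Z
      · have h6 := hA.min _ (hbig Z hZ hn) (hn0.mono (inter_subset_inter subset_union_left
          (Subset.refl _)))
        intro w hw
        rcases mem_union.1 (h6 hw) with h7 | h7
        · exact h7
        · exact absurd (hW L hL hw) (mem_sdiff.1 h7).2
      · exact hA.min Z (h.adm_of hZ hn) hn0
  · intro Z hZ v hv
    have hs : Z ⊆ R := hZ.sub
    by_cases hn : G.pi p ∈ Z ∧ G.pi q ∈ Z
    · rcases hI.smw.sm _ (hbig Z hZ hn) v (mem_union_left _ hv) with h0 | ⟨Z', h1, h2, h3, h4⟩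
      · exact Or.inl h0
      right
      refine ⟨Z' ∩ R, ?_, h.adm_cap hI.cls h2 hF, mem_inter.2 ⟨h3, hs hv⟩,
        (card_le_card inter_subset_left).trans h4⟩
      intro w hw
      rw [mem_inter] at hw
      rcases mem_union.1 (h1 hw.1) with h5 | h5
      · exact h5
      · exact absurd hw.2 (mem_sdiff.1 h5).2
    · rcases hI.smw.sm Z (h.adm_of hZ hn) v hv with h0 | ⟨Z', h1, h2, h3, h4⟩
      · exact Or.inl h0
      right
      have h5 := h.adm_cap hI.cls h2 hF
      rw [inter_eq_left.2 (h1.trans hs)] at h5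
      exact ⟨Z', h1, h5, h3, h4⟩

end RJ

/-- In a minimal counterexample a small non-empty even union of fresh circuits has at least four
boundary edges. -/
lemma MCW.four_le_bd {V D : Type} {G : CG V D} {K : Finset V} {F : Finset D}
    {W : Finset (Finset V)} (h : G.MCW K F W) {X : Finset V} (hXA : G.Adm K F X)
    (he : Even X.card) (hne : X.Nonempty) (hX4 : X.card ≤ 4) : 4 ≤ (G.bd X).card := by
  have hI := h.inst
  have hX := hXA.sub
  have hK := hXA.dis
  have hdisW := hI.smw.dis hXA (by omega)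
  have ihP : IH G.vs.card V D := fun G K F _ hI => P5main V D G K F hI
  -- no tokens in `X`
  have htX : G.tk X = ∅ := by
    rw [eq_empty_iff_forall_notMem]
    intro d hd
    rw [mem_tk] at hd
    exact hK _ hd.2.1 (hI.cls.tokK d hd.1 hd.2.2)
  have hXne : X ≠ G.vs := by
    intro h1
    have h2 : W = ∅ := by
      rw [eq_empty_iff_forall_notMem]
      intro L hL
      obtain ⟨w, hw⟩ := (hI.smw.atm L hL).ne
      exact disjoint_left.1 (hdisW L hL) (h1 ▸ (hI.smw.atm L hL).adm.sub hw) hw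
    subst h2
    exact h.no (P5main V D G K F hI.toInst)
  have h2 := h.two_le_bd hX he hne hXne
  by_contra hcon
  have hpar : Even (G.bd X).card := by
    have h3 := G.dg_parity hX
    unfold dg at h3
    rw [htX, card_empty, add_zero] at h3
    by_contra h4
    exact (Nat.not_odd_iff_even.2 he) (h3.1 (Nat.not_even_iff_odd.1 h4))
  have hc2 : (G.bd X).card = 2 := by
    obtain ⟨k, hk⟩ := hpar
    omega
  obtain ⟨p, q, hpq, hbdX⟩ := card_eq_two.1 hc2
  have hin : G.RJ X p q := by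
    refine ⟨hX, hpq, ?_⟩
    intro d
    rw [hbdX, mem_insert, mem_singleton]
  have hout : G.RJ (G.vs \ X) (G.al p) (G.al q) := hin.compl
  have hcl := hI.cls
  have hFev : ∀ p q, G.RJ X p q → p ∈ F → q ∈ F := by
    intro p q hR hp
    by_contra hq
    have h3 := hcl.even_cross hX hK
    have h4 : (F.filter fun d => G.pi d ∈ X ∧ G.pi (G.al d) ∉ X) = {p} := by
      ext d
      rw [mem_filter, mem_singleton]
      constructor
      · rintro ⟨h5, h6, h7⟩
        rcases (hR.bd d).1 ((G.mem_bd).2 ⟨hcl.Fsub h5, h6, h7⟩) with h8 | h8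
        · exact h8
        · exact absurd (h8 ▸ h5) hq
      · rintro rfl
        exact ⟨hp, hR.mp.2⟩
    rw [h4, card_singleton] at h3
    exact absurd h3 (by decide)
  have hFin : p ∈ F ↔ q ∈ F := ⟨hFev p q hin, hFev q p hin.symm⟩
  have hFal : ∀ d ∈ G.ds, (G.al d ∈ F ↔ d ∈ F) := by
    intro d hd
    constructor
    · intro h3
      have h4 := hcl.Fal _ h3
      rwa [G.al_al d hd] at h4
    · exact hcl.Fal d
  have hFout : G.al p ∈ F ↔ G.al q ∈ F := by
    rw [hFal p hin.mp.1, hFal q hin.mq.1]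
    exact hFin
  have hss : G.vs \ (G.vs \ X) = X := Finset.sdiff_sdiff_eq_self hX
  have hcard := card_sdiff_add_card_eq_card hX
  have hXpos : 0 < X.card := card_pos.2 hne
  have hltX : X.card < G.vs.card := by
    have h3 := card_lt_card (Finset.ssubset_iff_subset_ne.2 ⟨hX, hXne⟩)
    exact h3
  -- the outside part
  obtain ⟨M1, hM1⟩ := h.ih hout.gr _ _ W (by
    show (G.vs \ X).card < G.vs.card
    omega) (hout.inst_outW hI hFout (by rw [hss]; exact he) (by rw [hss]; exact hK)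
    fun L hL v hv => mem_sdiff.2 ⟨(hI.smw.atm L hL).adm.sub hv, fun k =>
      disjoint_left.1 (hdisW L hL) k hv⟩)
  have s1 : ∀ d ∈ M1, d ∈ G.ds ∧ G.pi d ∉ X := by
    intro d hd
    have h3 := (hout.mem_gr_ds).1 (hM1.pm.sub hd)
    exact ⟨h3.1, (mem_sdiff.1 h3.2).2⟩
  have o1 : ∀ v ∈ G.vs, v ∉ X → (M1.filter fun d => G.pi d = v).card = 1 := by
    intro v hv hvX
    exact hM1.pm.one v (mem_sdiff.2 ⟨hv, hvX⟩)
  have hpX := hin.mp
  have hqX := hin.mq
  have hne1 : ∀ d ∈ G.ds, G.pi d ∉ X → d ≠ G.al p → d ≠ G.al q → G.pi (G.al d) ∉ X := by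
    intro d hd h3 h4 h5
    have h6 := hout.in_of hd (mem_sdiff.2 ⟨G.pi_mem d hd, h3⟩) h4 h5
    exact (mem_sdiff.1 h6).2
  have hmem1 : G.al p ∈ M1 ↔ G.al q ∈ M1 := by
    constructor
    · intro h3
      have h4 := hM1.pm.closed _ h3
      rwa [hout.gr_al_p] at h4
    · intro h3
      have h4 := hM1.pm.closed _ h3
      rwa [hout.gr_al_q] at h4
  -- parts of an odd union
  have hodd : ∀ Z : Finset V, Odd Z.card → ¬ Odd (Z \ X).card → Odd (Z ∩ X).card := by
    intro Z ho h3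
    have h4 := card_sdiff_add_card_inter Z X
    rw [← h4, Nat.odd_add] at ho
    by_contra h5
    exact h3 (ho.2 (Nat.not_odd_iff_even.1 h5))
  have hodd' : ∀ Z : Finset V, Odd (Z ∩ X).card → Odd (X \ Z).card := by
    intro Z h3
    have h4 := card_sdiff_add_card_inter X Z
    rw [inter_comm X Z] at h4
    rw [← h4, Nat.even_add'] at he
    exact he.2 h3
  -- `Z \ X` is admissible outside
  have adm1 : ∀ Z, G.Adm K F Z → (p ∈ F → (G.pi (G.al p) ∈ Z ↔ G.pi (G.al q) ∈ Z)) →
      hout.gr.Adm (K ∩ (G.vs \ X)) (F.filter fun d => G.pi d ∈ G.vs \ X) (Z \ X) := by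
    intro Z hZ hpqZ
    refine hout.adm_gr ?_ ?_ ?_ ?_ hFout
    · intro v hv
      rw [mem_sdiff] at hv
      exact mem_sdiff.2 ⟨hZ.sub hv.1, hv.2⟩
    · intro v hv
      exact hZ.dis v (mem_sdiff.1 hv).1
    · intro d hd hdZ h3 h4
      rw [mem_sdiff] at hdZ ⊢
      exact ⟨hZ.clo d hd hdZ.1, hne1 d (hcl.Fsub hd) hdZ.2 h3 h4⟩
    · intro h3
      have h4 := hpqZ ((hFal p hpX.1).1 h3)
      rw [mem_sdiff, mem_sdiff]
      constructor
      · rintro ⟨h5, _⟩
        exact ⟨h4.1 h5, hqX.2.2⟩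
      · rintro ⟨h5, _⟩
        exact ⟨h4.2 h5, hpX.2.2⟩
  by_cases hα : G.al p ∈ M1
  · -- the cut edges are in the matching
    have hα' := hmem1.1 hα
    have hKp : ∀ v ∈ X, v ∉ K ∪ W.sup id := by
      intro v hv k
      rcases mem_union.1 k with k | k
      · exact hK v hv k
      · rw [mem_sup] at k
        obtain ⟨L, hL, k⟩ := k
        exact disjoint_left.1 (hdisW L hL) hv k
    have hKe : (K ∪ W.sup id) ∩ X = K ∩ X := by
      have k1 : (K ∪ W.sup id) ∩ X = ∅ := by
        rw [eq_empty_iff_forall_notMem]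
        intro v hv
        exact hKp v (mem_inter.1 hv).2 (mem_inter.1 hv).1
      have k2 : K ∩ X = ∅ := by
        rw [eq_empty_iff_forall_notMem]
        intro v hv
        exact hK v (mem_inter.1 hv).2 (mem_inter.1 hv).1
      rw [k1, k2]
    obtain ⟨M2, hM2, hβ, hhit⟩ := hin.good_in hI.plus hFin he hKp ihP hltX
    rw [hKe] at hhit
    have hβ' : q ∈ M2 := by
      have h3 := hM2.closed _ hβ
      rwa [hin.gr_al_p] at h3
    have s2 : ∀ d ∈ M2, d ∈ G.ds ∧ G.pi d ∈ X := fun d hd => (hin.mem_gr_ds).1 (hM2.sub hd)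
    have hpm : G.IsPM (M1 ∪ M2) := by
      refine pm_sides s1 s2 ?_ ?_ ?_ ?_ o1 ?_
      · intro d hd
        rw [mem_union]
        by_cases h3 : d = G.al p
        · rw [h3, G.al_al p hpX.1]; exact Or.inr hβ
        · by_cases h4 : d = G.al q
          · rw [h4, G.al_al q hqX.1]; exact Or.inr hβ'
          · have h5 := hM1.pm.closed d hd
            rw [hout.gr_al_of h3 h4] at h5
            exact Or.inl h5
      · intro d hd
        rw [mem_union]
        by_cases h3 : d = p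
        · rw [h3]; exact Or.inl hα
        · by_cases h4 : d = q
          · rw [h4]; exact Or.inl hα'
          · have h5 := hM2.closed d hd
            rw [hin.gr_al_of h3 h4] at h5
            exact Or.inr h5
      · intro d hd
        by_cases h3 : d = G.al p
        · rw [h3, G.al_al p hpX.1]
          intro h6
          exact hpX.2.2 (by rw [← h6]; exact hpX.2.1)
        · by_cases h4 : d = G.al q
          · rw [h4, G.al_al q hqX.1]
            intro h6
            exact hqX.2.2 (by rw [← h6]; exact hqX.2.1)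
          · have h5 := hM1.pm.notok d hd
            rwa [hout.gr_al_of h3 h4] at h5
      · intro d hd
        by_cases h3 : d = p
        · rw [h3]
          intro h6
          exact hpX.2.2 (by rw [h6]; exact hpX.2.1)
        · by_cases h4 : d = q
          · rw [h4]
            intro h6
            exact hqX.2.2 (by rw [h6]; exact hqX.2.1)
          · have h5 := hM2.notok d hd
            rwa [hin.gr_al_of h3 h4] at h5
      · intro v _ hvX
        exact hM2.one v hvX
    have m1 : ∀ d, d ∈ M1 ∪ M2 → G.pi d ∉ X → d ∈ M1 := by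
      intro d hd h3
      rcases mem_union.1 hd with h4 | h4
      · exact h4
      · exact absurd (s2 d h4).2 h3
    have m2 : ∀ d, d ∈ M1 ∪ M2 → G.pi d ∈ X → d ∈ M2 := by
      intro d hd h3
      rcases mem_union.1 hd with h4 | h4
      · exact absurd h3 (s1 d h4).2
      · exact h4
    refine h.no ⟨M1 ∪ M2, hpm, ?_⟩
    intro Z hZ ho
    by_contra hno
    push Not at hno
    have hFZ : ∀ p q, G.RJ X p q → p ∈ F → G.pi p ∈ Z → G.pi q ∈ Z := by
      intro p q hR hp hpZ
      by_contra hqZ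
      have h3 := hcl.even_cross (Y := Z ∩ X) (inter_subset_right.trans hX)
        (fun v hv => hK v (mem_inter.1 hv).2)
      have h4 : (F.filter fun d => G.pi d ∈ Z ∩ X ∧ G.pi (G.al d) ∉ Z ∩ X) = {p} := by
        ext d
        rw [mem_filter, mem_singleton, mem_inter, mem_inter]
        constructor
        · rintro ⟨h5, ⟨h6, h6'⟩, h7⟩
          have h9 := hZ.clo d h5 h6
          rcases (hR.bd d).1 ((G.mem_bd).2 ⟨hcl.Fsub h5, h6', fun h10 => h7 ⟨h9, h10⟩⟩)
            with h8 | h8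
          · exact h8
          · exact absurd (h8 ▸ h6) hqZ
        · rintro rfl
          exact ⟨hp, ⟨hpZ, hR.mp.2.1⟩, fun h5 => hR.mp.2.2 h5.2⟩
      rw [h4, card_singleton] at h3
      exact absurd h3 (by decide)
    have hFZ1 : p ∈ F → (G.pi p ∈ Z ↔ G.pi q ∈ Z) := fun h3 =>
      ⟨hFZ p q hin h3, hFZ q p hin.symm (hFin.1 h3)⟩
    have hcr : ∀ d ∈ F, (G.pi (G.al d) ∈ Z ↔ G.pi d ∈ Z) := by
      intro d hd
      constructor
      · intro h3
        have h4 := hZ.clo _ (hcl.Fal d hd) h3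
        rwa [G.al_al d (hcl.Fsub hd)] at h4
      · exact hZ.clo d hd
    have hev : ¬ Odd (Z \ X).card := by
      intro ho1
      obtain ⟨d, hd, hdM⟩ := hM1.hit _ (adm1 Z hZ (by
        intro h3
        rw [hcr p h3, hcr q (hFin.1 h3)]
        exact hFZ1 h3)) ho1
      rw [mem_bd, hout.mem_gr_ds] at hd
      obtain ⟨⟨h3, _⟩, h4, h5⟩ := hd
      have h6 : d ≠ G.al p := fun h7 => hdM (h7 ▸ hα)
      have h7 : d ≠ G.al q := fun h8 => hdM (h8 ▸ hα')
      rw [hout.gr_al_of h6 h7] at h5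
      have h4' : G.pi d ∈ Z \ X := h4
      have h5' : G.pi (G.al d) ∉ Z \ X := h5
      rw [mem_sdiff] at h4' h5'
      have h8 := hne1 d h3 h4'.2 h6 h7
      exact hdM (m1 d (hno d ((G.mem_bd).2 ⟨h3, h4'.1, fun h9 => h5' ⟨h9, h8⟩⟩)) h4'.2)
    have hoX := hodd Z ho hev
    have hoX' := hodd' Z hoX
    by_cases hb : G.pi p ∈ Z
    · -- use `X \ Z`
      obtain ⟨d, hd, hdM⟩ := hhit (X \ Z) (by
        refine hin.adm_gr sdiff_subset (fun v hv => hK v (mem_sdiff.1 hv).1) ?_ ?_ hFin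
        · intro d hd hdZ h3 h4
          rw [mem_sdiff] at hdZ ⊢
          refine ⟨hin.in_of (hcl.Fsub hd) hdZ.1 h3 h4, fun h5 => hdZ.2 ((hcr d hd).1 h5)⟩
        · intro h3
          rw [mem_sdiff, mem_sdiff]
          have h4 := hFZ1 h3
          constructor
          · rintro ⟨_, h6⟩
            exact ⟨hqX.2.1, fun h7 => h6 (h4.2 h7)⟩
          · rintro ⟨_, h6⟩
            exact ⟨hpX.2.1, fun h7 => h6 (h4.1 h7)⟩) hoX' (fun h3 => (mem_sdiff.1 h3).2 hb)
      rw [mem_bd, hin.mem_gr_ds] at hd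
      obtain ⟨⟨h3, _⟩, h4, h5⟩ := hd
      have h6 : d ≠ p := fun h7 => hdM (h7 ▸ hβ)
      have h7 : d ≠ q := fun h8 => hdM (h8 ▸ hβ')
      rw [hin.gr_al_of h6 h7] at h5
      have h4' : G.pi d ∈ X \ Z := h4
      have h5' : G.pi (G.al d) ∉ X \ Z := h5
      rw [mem_sdiff] at h4' h5'
      have h8 := hin.in_of h3 h4'.1 h6 h7
      have h9 : G.pi (G.al d) ∈ Z := by
        by_contra h10
        exact h5' ⟨h8, h10⟩
      have h10 := hno (G.al d) ((G.mem_bd).2 ⟨G.al_mem d h3, h9, by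
        rw [G.al_al d h3]; exact h4'.2⟩)
      have h11 := hpm.closed _ h10
      rw [G.al_al d h3] at h11
      exact hdM (m2 d h11 h4'.1)
    · -- use `Z ∩ X`
      obtain ⟨d, hd, hdM⟩ := hhit (Z ∩ X) (by
        refine hin.adm_gr inter_subset_right (fun v hv => hK v (mem_inter.1 hv).2) ?_ ?_ hFin
        · intro d hd hdZ h3 h4
          rw [mem_inter] at hdZ ⊢
          exact ⟨hZ.clo d hd hdZ.1, hin.in_of (hcl.Fsub hd) hdZ.2 h3 h4⟩
        · intro h3
          rw [mem_inter, mem_inter]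
          have h4 := hFZ1 h3
          constructor
          · rintro ⟨h6, _⟩
            exact ⟨h4.1 h6, hqX.2.1⟩
          · rintro ⟨h6, _⟩
            exact ⟨h4.2 h6, hpX.2.1⟩) hoX (fun h3 => hb (mem_inter.1 h3).1)
      rw [mem_bd, hin.mem_gr_ds] at hd
      obtain ⟨⟨h3, _⟩, h4, h5⟩ := hd
      have h6 : d ≠ p := fun h7 => hdM (h7 ▸ hβ)
      have h7 : d ≠ q := fun h8 => hdM (h8 ▸ hβ')
      rw [hin.gr_al_of h6 h7] at h5
      have h4' : G.pi d ∈ Z ∩ X := h4
      have h5' : G.pi (G.al d) ∉ Z ∩ X := h5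
      rw [mem_inter] at h4' h5'
      have h8 := hin.in_of h3 h4'.2 h6 h7
      exact hdM (m2 d (hno d ((G.mem_bd).2 ⟨h3, h4'.1, fun h9 => h5' ⟨h9, h8⟩⟩)) h4'.2)
  · -- the cut edges are not in the matching
    have hα' : G.al q ∉ M1 := fun h3 => hα (hmem1.2 h3)
    have hbd2 : ∀ d, d ∈ G.bd X → G.pi (G.al d) ∈ G.vs \ X := by
      intro d hd
      rw [mem_bd] at hd
      exact mem_sdiff.2 ⟨G.pi_mem _ (G.al_mem d hd.1), hd.2.2⟩
    have hvs2 : (G.delV (G.vs \ X)).vs = X := hss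
    have hXs : X ⊆ G.vs \ (G.vs \ X) := by rw [hss]
    have hbdZ : ∀ Z ⊆ X, (∀ d ∈ G.ds, G.pi d ∈ Z → G.pi (G.al d) ∉ G.vs \ X) →
        (G.delV (G.vs \ X)).bd Z = G.bd Z := by
      intro Z hZ h3
      rw [G.delV_bd (hZ.trans hXs)]
      apply filter_true_of_mem
      intro d hd
      rw [mem_bd] at hd
      exact h3 d hd.1 hd.2.1
    obtain ⟨M2, hM2⟩ := P5main V D (G.delV (G.vs \ X))
      ((K ∪ (G.ds.filter fun d => G.pi (G.al d) ∈ G.vs \ X).image G.pi) \ (G.vs \ X))
      (F.filter fun d => G.pi d ∉ G.vs \ X ∧ G.pi (G.al d) ∉ G.vs \ X)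
      (⟨by rw [hvs2]; exact he, by
          rw [hvs2, G.delV_tk_card' hXs, htX, card_empty, zero_add]
          refine (card_filter_le _ _).trans ?_
          omega, G.delV_b0 hI.b0 _, G.delV_cls hcl, by
          intro Z hZ ho
          rw [G.delV_adm hcl] at hZ
          rw [hbdZ Z (by
            intro v hv
            have h3 := (disjoint_left.1 hZ.2.1) hv
            by_contra h4
            exact h3 (mem_sdiff.2 ⟨hZ.1.sub hv, h4⟩)) hZ.2.2]
          exact hI.cc Z hZ.1 ho, by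
          intro Z hZ v hv
          refine ⟨Z, Subset.refl _, hZ, hv, ?_⟩
          have k1 := hZ.sub
          rw [hvs2] at k1
          have k2 := card_le_card k1
          omega⟩)
    have s2 : ∀ d ∈ M2, d ∈ G.ds ∧ G.pi d ∈ X := by
      intro d hd
      have h3 := (G.mem_delV_ds).1 (hM2.pm.sub hd)
      refine ⟨h3.1, ?_⟩
      by_contra h4
      exact h3.2 (mem_sdiff.2 ⟨G.pi_mem d h3.1, h4⟩)
    have i2 : ∀ d ∈ M2, G.pi (G.al d) ∉ G.vs \ X := by
      intro d hd h3
      exact hM2.pm.notok d hd (G.delV_al_in h3)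
    have hβ : p ∉ M2 := fun h3 => i2 p h3 (hbd2 p ((hin.bd p).2 (Or.inl rfl)))
    have hβ' : q ∉ M2 := fun h3 => i2 q h3 (hbd2 q ((hin.bd q).2 (Or.inr rfl)))
    have hpm : G.IsPM (M1 ∪ M2) := by
      refine pm_sides s1 s2 ?_ ?_ ?_ ?_ o1 ?_
      · intro d hd
        rw [mem_union]
        have h3 : d ≠ G.al p := fun h4 => hα (h4 ▸ hd)
        have h4 : d ≠ G.al q := fun h4 => hα' (h4 ▸ hd)
        have h5 := hM1.pm.closed d hd
        rw [hout.gr_al_of h3 h4] at h5
        exact Or.inl h5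
      · intro d hd
        rw [mem_union]
        have h5 := hM2.pm.closed d hd
        rw [G.delV_al_of (i2 d hd)] at h5
        exact Or.inr h5
      · intro d hd
        have h3 : d ≠ G.al p := fun h4 => hα (h4 ▸ hd)
        have h4 : d ≠ G.al q := fun h4 => hα' (h4 ▸ hd)
        have h5 := hM1.pm.notok d hd
        rwa [hout.gr_al_of h3 h4] at h5
      · intro d hd
        have h5 := hM2.pm.notok d hd
        rwa [G.delV_al_of (i2 d hd)] at h5
      · intro v hv hvX
        exact hM2.pm.one v (by rw [hvs2]; exact hvX)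
    have m1 : ∀ d, d ∈ M1 ∪ M2 → G.pi d ∉ X → d ∈ M1 := by
      intro d hd h3
      rcases mem_union.1 hd with h4 | h4
      · exact h4
      · exact absurd (s2 d h4).2 h3
    have m2 : ∀ d, d ∈ M1 ∪ M2 → G.pi d ∈ X → d ∈ M2 := by
      intro d hd h3
      rcases mem_union.1 hd with h4 | h4
      · exact absurd h3 (s1 d h4).2
      · exact h4
    have hpM : p ∉ M1 ∪ M2 := fun h3 => hβ (m2 p h3 hpX.2.1)
    have hqM : q ∉ M1 ∪ M2 := fun h3 => hβ' (m2 q h3 hqX.2.1)
    have hpM' : G.al p ∉ M1 ∪ M2 := fun h3 => hα (m1 _ h3 hpX.2.2)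
    have hqM' : G.al q ∉ M1 ∪ M2 := fun h3 => hα' (m1 _ h3 hqX.2.2)
    refine h.no ⟨M1 ∪ M2, hpm, ?_⟩
    intro Z hZ ho
    by_contra hno
    push Not at hno
    have hcr : ∀ d ∈ F, (G.pi (G.al d) ∈ Z ↔ G.pi d ∈ Z) := by
      intro d hd
      constructor
      · intro h3
        have h4 := hZ.clo _ (hcl.Fal d hd) h3
        rwa [G.al_al d (hcl.Fsub hd)] at h4
      · exact hZ.clo d hd
    have hab : ∀ d ∈ G.ds, d ∉ M1 ∪ M2 → G.pi d ∈ Z → G.pi (G.al d) ∈ Z := by
      intro d hd hdM h3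
      by_contra h4
      exact hdM (hno d ((G.mem_bd).2 ⟨hd, h3, h4⟩))
    have hp1 : G.pi (G.al p) ∈ Z ↔ G.pi p ∈ Z := by
      constructor
      · intro h3
        have h4 := hab _ (G.al_mem p hpX.1) hpM' h3
        rwa [G.al_al p hpX.1] at h4
      · exact hab p hpX.1 hpM
    have hq1 : G.pi (G.al q) ∈ Z ↔ G.pi q ∈ Z := by
      constructor
      · intro h3
        have h4 := hab _ (G.al_mem q hqX.1) hqM' h3
        rwa [G.al_al q hqX.1] at h4
      · exact hab q hqX.1 hqM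
    have hone : ∀ p q, G.RJ X p q → p ∉ M1 ∪ M2 → G.pi p ∈ Z → G.pi q ∈ Z := by
      intro p q hR hp hpZ
      by_contra hqZ
      have htY : G.tk (Z ∩ X) = ∅ := by
        rw [eq_empty_iff_forall_notMem]
        intro d hd
        rw [mem_tk] at hd
        exact hK _ (mem_inter.1 hd.2.1).2 (hcl.tokK d hd.1 hd.2.2)
      have h3 := hpm.even_compl (X := Z ∩ X) (inter_subset_right.trans hX) htY
      have h4 : ((G.bd (Z ∩ X)).filter fun d => d ∉ M1 ∪ M2) = {p} := by
        ext d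
        rw [mem_filter, mem_bd, mem_singleton, mem_inter, mem_inter]
        constructor
        · rintro ⟨⟨h5, ⟨h6, h6'⟩, h7⟩, h8⟩
          have h9 := hab d h5 h8 h6
          rcases (hR.bd d).1 ((G.mem_bd).2 ⟨h5, h6', fun h10 => h7 ⟨h9, h10⟩⟩) with h10 | h10
          · exact h10
          · exact absurd (h10 ▸ h6) hqZ
        · rintro rfl
          exact ⟨⟨hR.mp.1, ⟨hpZ, hR.mp.2.1⟩, fun h5 => hR.mp.2.2 h5.2⟩, hp⟩
      rw [h4, card_singleton] at h3
      exact absurd h3 (by decide)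
    have hpqZ : G.pi p ∈ Z ↔ G.pi q ∈ Z := ⟨hone p q hin hpM, hone q p hin.symm hqM⟩
    have hadm := adm1 Z hZ (by
      intro _
      rw [hp1, hq1]
      exact hpqZ)
    have hev : ¬ Odd (Z \ X).card := by
      intro ho1
      obtain ⟨d, hd, hdM⟩ := hM1.hit _ hadm ho1
      rw [mem_bd, hout.mem_gr_ds] at hd
      obtain ⟨⟨h3, _⟩, h4, h5⟩ := hd
      have h4' : G.pi d ∈ Z \ X := h4
      have h5' : G.pi (hout.gr.al d) ∉ Z \ X := h5
      have h6 : d ≠ G.al p := by
        intro h7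
        rw [h7, hout.gr_al_p] at h5'
        rw [h7] at h4'
        rw [mem_sdiff] at h4' h5'
        exact h5' ⟨hq1.2 (hpqZ.1 (hp1.1 h4'.1)), hqX.2.2⟩
      have h7 : d ≠ G.al q := by
        intro h7
        rw [h7, hout.gr_al_q] at h5'
        rw [h7] at h4'
        rw [mem_sdiff] at h4' h5'
        exact h5' ⟨hp1.2 (hpqZ.2 (hq1.1 h4'.1)), hpX.2.2⟩
      rw [hout.gr_al_of h6 h7] at h5'
      rw [mem_sdiff] at h4' h5'
      have h8 := hne1 d h3 h4'.2 h6 h7
      exact hdM (m1 d (hno d ((G.mem_bd).2 ⟨h3, h4'.1, fun h9 => h5' ⟨h9, h8⟩⟩)) h4'.2)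
    have hoX := hodd Z ho hev
    have hoX' := hodd' Z hoX
    by_cases hb : G.pi p ∈ Z
    · -- use `X \ Z`
      have hb' := hpqZ.1 hb
      have hin2 : ∀ d ∈ G.ds, G.pi d ∈ X \ Z → G.pi (G.al d) ∈ X := by
        intro d hd h3
        rw [mem_sdiff] at h3
        exact hin.in_of hd h3.1 (fun h4 => h3.2 (h4 ▸ hb)) (fun h4 => h3.2 (h4 ▸ hb'))
      have hA : (G.delV (G.vs \ X)).Adm
          ((K ∪ (G.ds.filter fun d => G.pi (G.al d) ∈ G.vs \ X).image G.pi) \ (G.vs \ X))
          (F.filter fun d => G.pi d ∉ G.vs \ X ∧ G.pi (G.al d) ∉ G.vs \ X) (X \ Z) := by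
        rw [G.delV_adm hcl]
        refine ⟨⟨sdiff_subset.trans hX, fun v hv => hK v (mem_sdiff.1 hv).1, ?_⟩, ?_, ?_⟩
        · intro d hd hdZ
          exact mem_sdiff.2 ⟨hin2 d (hcl.Fsub hd) hdZ,
            fun h3 => (mem_sdiff.1 hdZ).2 ((hcr d hd).1 h3)⟩
        · rw [disjoint_left]
          intro v hv h3
          exact (mem_sdiff.1 h3).2 (mem_sdiff.1 hv).1
        · intro d hd hdZ h3
          exact (mem_sdiff.1 h3).2 (hin2 d hd hdZ)
      obtain ⟨d, hd, hdM⟩ := hM2.hit _ hA hoX'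
      rw [hbdZ _ sdiff_subset (by
        intro d hd hdZ h3
        exact (mem_sdiff.1 h3).2 (hin2 d hd hdZ)), mem_bd] at hd
      obtain ⟨h3, h4, h5⟩ := hd
      have h8 := hin2 d h3 h4
      rw [mem_sdiff] at h4 h5
      have h9 : G.pi (G.al d) ∈ Z := by
        by_contra h10
        exact h5 ⟨h8, h10⟩
      have h10 := hno (G.al d) ((G.mem_bd).2 ⟨G.al_mem d h3, h9, by
        rw [G.al_al d h3]; exact h4.2⟩)
      have h11 := hpm.closed _ h10
      rw [G.al_al d h3] at h11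
      exact hdM (m2 d h11 h4.1)
    · -- use `Z ∩ X`
      have hb' : G.pi q ∉ Z := fun h3 => hb (hpqZ.2 h3)
      have hin2 : ∀ d ∈ G.ds, G.pi d ∈ Z ∩ X → G.pi (G.al d) ∈ X := by
        intro d hd h3
        rw [mem_inter] at h3
        exact hin.in_of hd h3.2 (fun h4 => hb (h4 ▸ h3.1)) (fun h4 => hb' (h4 ▸ h3.1))
      have hA : (G.delV (G.vs \ X)).Adm
          ((K ∪ (G.ds.filter fun d => G.pi (G.al d) ∈ G.vs \ X).image G.pi) \ (G.vs \ X))
          (F.filter fun d => G.pi d ∉ G.vs \ X ∧ G.pi (G.al d) ∉ G.vs \ X) (Z ∩ X) := by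
        rw [G.delV_adm hcl]
        refine ⟨⟨inter_subset_right.trans hX, fun v hv => hK v (mem_inter.1 hv).2, ?_⟩, ?_, ?_⟩
        · intro d hd hdZ
          exact mem_inter.2 ⟨hZ.clo d hd (mem_inter.1 hdZ).1, hin2 d (hcl.Fsub hd) hdZ⟩
        · rw [disjoint_left]
          intro v hv h3
          exact (mem_sdiff.1 h3).2 (mem_inter.1 hv).2
        · intro d hd hdZ h3
          exact (mem_sdiff.1 h3).2 (hin2 d hd hdZ)
      obtain ⟨d, hd, hdM⟩ := hM2.hit _ hA hoX
      rw [hbdZ _ inter_subset_right (by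
        intro d hd hdZ h3
        exact (mem_sdiff.1 h3).2 (hin2 d hd hdZ)), mem_bd] at hd
      obtain ⟨h3, h4, h5⟩ := hd
      have h8 := hin2 d h3 h4
      rw [mem_inter] at h4 h5
      exact hdM (m2 d (hno d ((G.mem_bd).2 ⟨h3, h4.1, fun h9 => h5 ⟨h9, h8⟩⟩)) h4.2)

end JP.CG
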