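import Pool.Agent.Lib.P5.Defs
import Pool.Agent.Lib.JP.F4

/-! Cubic graphs with up to three long circuits (MP_c95763_co): the class of instances. -/

set_option autoImplicit false

namespace JP.CG

open Finset Classical

variable {V D : Type*}

/-- a fresh circuit: a smallest nonempty union of fresh circuits -/
structure Atm (G : CG V D) (K : Finset V) (F : Finset D) (L : Finset V) : Prop where
  adm : G.Adm K F L
  ne : L.Nonempty
  min : ∀ Z, G.Adm K F Z → (Z ∩ L).Nonempty → L ⊆ Z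

/-- all fresh circuits have at most five vertices, except those in `W` -/
structure SmW (G : CG V D) (K : Finset V) (F : Finset D) (W : Finset (Finset V)) : Prop where
  atm : ∀ L ∈ W, G.Atm K F L
  big : ∀ L ∈ W, 5 < L.card
  sm : ∀ Z, G.Adm K F Z → ∀ v ∈ Z, (∃ L ∈ W, v ∈ L) ∨
    ∃ Z' ⊆ Z, G.Adm K F Z' ∧ v ∈ Z' ∧ Z'.card ≤ 5

/-- the number of tokens and of long circuits -/
def Nm (G : CG V D) (K : Finset V) (W : Finset (Finset V)) : Prop :=
  ((G.tk G.vs).card + 2 * W.card ≤ 4 ∧ W.card ≤ 1) ∨ (K = ∅ ∧ W.card ≤ 3)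

/-- an instance with the long circuits in `W` -/
structure InstW (G : CG V D) (K : Finset V) (F : Finset D) (W : Finset (Finset V)) : Prop extends
    G.Inst0 K F where
  num : G.Nm K W
  smw : G.SmW K F W

/-- induction hypothesis for smaller graphs -/
def IHW (n : ℕ) (V D : Type*) : Prop :=
  ∀ (G : CG V D) (K : Finset V) (F : Finset D) (W : Finset (Finset V)), G.vs.card < n →
    G.InstW K F W → ∃ M, G.Good K F M

/-- a minimal counterexample, order (number of vertices, number of long circuits) -/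
structure MCW (G : CG V D) (K : Finset V) (F : Finset D) (W : Finset (Finset V)) : Prop where
  inst : G.InstW K F W
  ih : IHW G.vs.card V D
  ihw : ∀ (G' : CG V D) (K' : Finset V) (F' : Finset D) (W' : Finset (Finset V)),
    G'.vs.card = G.vs.card → W'.card < W.card → G'.InstW K' F' W' → ∃ M, G'.Good K' F' M
  no : ¬ ∃ M, G.Good K F M

variable {G : CG V D} {K : Finset V} {F : Finset D} {W : Finset (Finset V)}

/-- transfer of the length condition -/
theorem SmW.of_adm {G' : CG V D} {K' : Finset V} {F' : Finset D} (h : G.SmW K F W)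
    (h1 : ∀ Z, G'.Adm K' F' Z → G.Adm K F Z)
    (h2 : ∀ Z, G'.Adm K' F' Z → ∀ Z' ⊆ Z, G.Adm K F Z' → G'.Adm K' F' Z') :
    G'.SmW K' F' (W.filter fun L => G'.Adm K' F' L) := by
  refine ⟨?_, fun L hL => h.big L (mem_filter.1 hL).1, ?_⟩
  · intro L hL
    obtain ⟨hL, hA⟩ := mem_filter.1 hL
    exact ⟨hA, (h.atm L hL).ne, fun Z hZ hn => (h.atm L hL).min Z (h1 Z hZ) hn⟩
  · intro Z hZ v hv
    rcases h.sm Z (h1 Z hZ) v hv with ⟨L, hL, hvL⟩ | ⟨Z', hs, ha, hv', hc⟩
    · left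
      exact ⟨L, mem_filter.2 ⟨hL, h2 Z hZ L ((h.atm L hL).min Z (h1 Z hZ)
        ⟨v, mem_inter.2 ⟨hv, hvL⟩⟩) (h.atm L hL).adm⟩, hvL⟩
    · right
      exact ⟨Z', hs, h2 Z hZ Z' hs ha, hv', hc⟩

theorem Nm.mono {G' : CG V D} {K' : Finset V} {W' : Finset (Finset V)} (h : G.Nm K W)
    (h1 : (G'.tk G'.vs).card ≤ (G.tk G.vs).card) (h2 : W'.card ≤ W.card)
    (h3 : K = ∅ → K' = ∅) : G'.Nm K' W' := by
  rcases h with h | h
  · exact Or.inl ⟨by omega, by omega⟩
  · exact Or.inr ⟨h3 h.1, by omega⟩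

/-- no long circuits -/
theorem InstW.toInst (h : G.InstW K F ∅) : G.Inst K F :=
  h.toInst0.toInst fun Z hZ v hv => by
    rcases h.smw.sm Z hZ v hv with ⟨L, hL, -⟩ | h1
    · exact absurd hL (notMem_empty _)
    · exact h1

theorem Inst.toW (h : G.Inst K F) : G.InstW K F ∅ :=
  ⟨h.to0, Or.inl ⟨by rw [card_empty]; exact h.four, by simp⟩, ⟨by simp, by simp,
    fun Z hZ v hv => Or.inr (h.sm Z hZ v hv)⟩⟩

/-- the long circuits may be absorbed -/
theorem InstW.plus (h : G.InstW K F W) : G.Inst (K ∪ W.sup id) F := by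
  have hs : ∀ v, v ∈ W.sup id ↔ ∃ L ∈ W, v ∈ L := by
    intro v
    rw [mem_sup]
    rfl
  have hA : ∀ Z, G.Adm (K ∪ W.sup id) F Z → G.Adm K F Z := fun Z hZ =>
    ⟨hZ.sub, fun v hv hK => hZ.dis v hv (mem_union_left _ hK), hZ.clo⟩
  refine ⟨h.even, h.four, h.b0, ⟨?_, h.cls.Fsub, h.cls.Fal, h.cls.Ftok, ?_, ?_⟩, ?_, ?_⟩
  · refine union_subset h.cls.Ksub fun v hv => ?_
    obtain ⟨L, hL, hv⟩ := (hs v).1 hv
    exact (h.smw.atm L hL).adm.sub hv
  · exact fun v hv hK => h.cls.F2 v hv fun h1 => hK (mem_union_left _ h1)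
  · exact fun d hd ht => mem_union_left _ (h.cls.tokK d hd ht)
  · exact fun Z hZ ho => h.cc Z (hA Z hZ) ho
  · intro Z hZ v hv
    rcases h.smw.sm Z (hA Z hZ) v hv with ⟨L, hL, hvL⟩ | ⟨Z', h1, h2, h3, h4⟩
    · exact absurd (mem_union_right _ ((hs v).2 ⟨L, hL, hvL⟩)) (hZ.dis v hv)
    · exact ⟨Z', h1, ⟨h2.sub, fun w hw => hZ.dis w (h1 hw), h2.clo⟩, h3, h4⟩

/-- a small union of fresh circuits avoids the long circuits -/
theorem SmW.dis (h : G.SmW K F W) {Z : Finset V} (hZ : G.Adm K F Z) (h5 : Z.card ≤ 5) :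
    ∀ L ∈ W, Disjoint Z L := by
  intro L hL
  by_contra hn
  rw [not_disjoint_iff] at hn
  obtain ⟨v, hv, hvL⟩ := hn
  have h1 := (h.atm L hL).min Z hZ ⟨v, mem_inter.2 ⟨hv, hvL⟩⟩
  have h2 := card_le_card h1
  have h3 := h.big L hL
  omega

end JP.CG
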