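import Pool.Agent.Lib.JL.CutTwoW
import Pool.Agent.Lib.JP.F4
import Pool.Agent.Lib.JP.PZ

/-! (F4) for minimal counterexamples with long circuits (MP_c95763_co). -/

set_option autoImplicit false

namespace JP.CG

open Finset Classical

variable {V D : Type*} {G : CG V D} {K : Finset V} {F : Finset D}

namespace LG

variable {Z : Finset V} {lg : V → D} {nx : V → V} {nd : V → D}

private lemma f4_tk (hc : G.Cls K F) {Z : Finset V} (h : G.Adm K F Z) : G.tk Z = ∅ := by
  rw [Finset.eq_empty_iff_forall_notMem]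
  intro d hd
  rw [G.mem_tk] at hd
  exact h.dis _ hd.2.1 (hc.tokK d hd.1 hd.2.2)

private lemma f4_int {Z Z' : Finset V} (h : G.Adm K F Z) (h' : G.Adm K F Z') :
    G.Adm K F (Z ∩ Z') where
  sub := fun _ hx => h.sub (mem_inter.1 hx).1
  dis := fun v hv => h.dis v (mem_inter.1 hv).1
  clo := fun d hd hp => mem_inter.2 ⟨h.clo d hd (mem_inter.1 hp).1, h'.clo d hd (mem_inter.1 hp).2⟩

private lemma f4_uni {Z Z' : Finset V} (h : G.Adm K F Z) (h' : G.Adm K F Z') :
    G.Adm K F (Z ∪ Z') where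
  sub := union_subset h.sub h'.sub
  dis := fun v hv => (mem_union.1 hv).elim (h.dis v) (h'.dis v)
  clo := fun d hd hp => mem_union.2 ((mem_union.1 hp).imp (h.clo d hd) (h'.clo d hd))

private lemma f4_dif (hc : G.Cls K F) {Z Z' : Finset V} (h : G.Adm K F Z)
    (h' : G.Adm K F Z') : G.Adm K F (Z \ Z') where
  sub := fun _ hx => h.sub (mem_sdiff.1 hx).1
  dis := fun v hv => h.dis v (mem_sdiff.1 hv).1
  clo := by
    intro d hd hp
    rw [mem_sdiff] at hp ⊢
    refine ⟨h.clo d hd hp.1, fun hq => hp.2 ?_⟩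
    have := h'.clo (G.al d) (hc.Fal d hd) hq
    rwa [G.al_al d (hc.Fsub hd)] at this

private lemma f4_dg5 (hI : G.Inst0 K F) {W : Finset V} (h : G.Adm K F W) (ho : Odd W.card) :
    5 ≤ G.dg W := by
  have := hI.cc W h ho
  unfold dg
  omega

/-- either the new graph is an instance or there is a blocking set -/
lemma inst_orW {WW : Finset (Finset V)} (h : G.LG Z lg) (n : G.ND F Z nx nd)
    (hI : G.InstW K F WW) (hZ : G.Adm K F Z)
    (h4 : Z.card = 4) : (∃ WW', (h.gr n).InstW K (F.filter fun d => G.pi d ∉ Z) WW') ∨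
      ∃ W, Blk G K F Z lg nx W := by
  by_cases hB : ∃ W, Blk G K F Z lg nx W
  · exact Or.inr hB
  left
  have htZ := f4_tk hI.cls hZ
  have key : ∀ W ⊆ G.vs, Disjoint Z W → Odd W.card → (h.gr n).dg W ≤ 3 →
      ((h.gr n).dg W = 1 ∨ (G.Adm K F W)) → False := by
    intro W hWs hd ho h3 hty
    have hWg : W ⊆ (h.gr n).vs := fun v hv => mem_sdiff.2 ⟨hWs hv, fun q => (disjoint_left.1 hd) q hv⟩
    have e1 := h.gr_dg n hd
    have e2 := h.cnt htZ hd
    have hod : Odd (Z ∪ W).card := by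
      rw [card_union_of_disjoint hd, h4, Nat.odd_add]
      exact ⟨fun q => absurd q (by decide), fun q => absurd q (Nat.not_even_iff_odd.2 ho)⟩
    have e3 := hI.b0 (Z ∪ W) (union_subset h.sub hWs) hod
    have e4 := hI.b0 W hWs ho
    have p1 := ((h.gr n).dg_parity hWg).2 ho
    have p2 := (G.dg_parity hWs).2 ho
    have p3 : (pp G Z lg nx W).card ≤ (kk G Z lg W).card := card_le_card pp_sub
    have p4 : (kk G Z lg W).card ≤ 4 := by
      rw [← h4]
      exact card_le_card kk_sub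
    obtain ⟨k1, hk1⟩ := p1
    obtain ⟨k2, hk2⟩ := p2
    have e5 : (kk G Z lg W).card = 2 ∧ (pp G Z lg nx W).card = 2 ∧
        (G.dg W = 3 ∨ (G.Adm K F W ∧ G.dg W = 5)) := by
      rcases hty with h1 | h1
      · refine ⟨by omega, by omega, Or.inl (by omega)⟩
      · have q1 := f4_dg5 hI.toInst0 h1 ho
        have q2 := f4_dg5 hI.toInst0 (f4_uni hZ h1) hod
        refine ⟨by omega, by omega, Or.inr ⟨h1, by omega⟩⟩
    have e6 : pp G Z lg nx W = kk G Z lg W :=
      eq_of_subset_of_card_le pp_sub (by omega)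
    apply hB
    refine ⟨W, hWs, hd, ho, e5.1, ?_, e5.2.2⟩
    intro x hx
    have hx' := hx
    rw [← e6] at hx'
    unfold pp at hx'
    rw [mem_filter] at hx'
    exact mem_kk.2 ⟨n.nxm x hx'.1, hx'.2.2⟩
  refine ⟨_, ⟨?_, ?_, ?_, h.gr_cls n hI.cls hZ, ?_⟩, ?_, hI.smw.of_adm
    (fun Z' hZ' => ((h.gr_adm n hI.cls hZ).1 hZ').1)
    (fun Z' hZ' Z'' hs ha =>
      (h.gr_adm n hI.cls hZ).2 ⟨ha, ((h.gr_adm n hI.cls hZ).1 hZ').2.mono_right hs⟩)⟩
  · have h1 : (G.vs \ Z).card + Z.card = G.vs.card := card_sdiff_add_card_eq_card h.sub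
    have h2 := hI.even
    show Even (G.vs \ Z).card
    rw [← h1, h4] at h2
    rw [Nat.even_add] at h2
    exact h2.2 (by decide)
  · have h1 : (h.gr n).tk (h.gr n).vs = G.tk (G.vs \ Z) := h.gr_tk n disjoint_sdiff
    have h2 : G.tk (G.vs \ Z) ⊆ G.tk G.vs := by
      intro d hd
      rw [mem_tk] at hd ⊢
      exact ⟨hd.1, (mem_sdiff.1 hd.2.1).1, hd.2.2⟩
    rw [h1]
    exact (card_le_card h2).trans hI.four
  · intro W hW ho
    have hWs : W ⊆ G.vs := fun v hv => (mem_sdiff.1 (hW hv)).1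
    have hd : Disjoint Z W := disjoint_left.2 fun v h1 h2 => (mem_sdiff.1 (hW h2)).2 h1
    by_contra hlt
    have p1 := ((h.gr n).dg_parity hW).2 ho
    obtain ⟨k1, hk1⟩ := p1
    exact key W hWs hd ho (by omega) (Or.inl (by omega))
  · intro W hW ho
    have hW' := (h.gr_adm n hI.cls hZ).1 hW
    by_contra hlt
    have p1 := ((h.gr n).dg_parity hW.sub).2 ho
    have p2 : (h.gr n).tk W = ∅ := by
      rw [h.gr_tk n hW'.2]
      exact f4_tk hI.cls hW'.1
    have p3 : (h.gr n).dg W = ((h.gr n).bd W).card := by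
      unfold dg
      rw [p2, card_empty, add_zero]
    obtain ⟨k1, hk1⟩ := p1
    exact key W hW'.1.sub hW'.2 ho (by omega) (Or.inr hW'.1)
  · have h1 : (h.gr n).tk (h.gr n).vs = G.tk (G.vs \ Z) := h.gr_tk n disjoint_sdiff
    have h2 : G.tk (G.vs \ Z) ⊆ G.tk G.vs := by
      intro d hd
      rw [mem_tk] at hd ⊢
      exact ⟨hd.1, (mem_sdiff.1 hd.2.1).1, hd.2.2⟩
    refine hI.num.mono ?_ (card_le_card (filter_subset _ _)) fun q => q
    rw [h1]
    exact card_le_card h2

/-- two sets of two elements of `Z`, closed under different fixed point free involutions -/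
private lemma f4_one {Z A1 A2 : Finset V} {nx1 nx2 : V → V} (h4 : Z.card = 4) (s1 : A1 ⊆ Z)
    (s2 : A2 ⊆ Z) (c1 : A1.card = 2) (c2 : A2.card = 2) (m1 : ∀ x ∈ A1, nx1 x ∈ A1)
    (m2 : ∀ x ∈ A2, nx2 x ∈ A2) (z1 : ∀ x ∈ Z, nx1 x ≠ x) (z2 : ∀ x ∈ Z, nx2 x ≠ x)
    (zz : ∀ x ∈ Z, nx2 (nx2 x) = x) (zm : ∀ x ∈ Z, nx2 x ∈ Z)
    (hne : ∀ x ∈ Z, nx1 x ≠ nx2 x) : (A1 ∩ A2).card = 1 := by
  -- `A1` contains no `x`, `nx2 x`
  have key : ∀ x ∈ A1, nx2 x ∉ A1 := by
    intro x hx h2
    have h3 : ({x, nx1 x, nx2 x} : Finset V) ⊆ A1 := by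
      intro y hy
      rw [mem_insert, mem_insert, mem_singleton] at hy
      rcases hy with rfl | rfl | rfl
      · exact hx
      · exact m1 x hx
      · exact h2
    have h5 := card_le_card h3
    have hxZ := s1 hx
    rw [card_insert_of_notMem, card_insert_of_notMem, card_singleton, c1] at h5
    · omega
    · rw [mem_singleton]
      exact hne x hxZ
    · rw [mem_insert, mem_singleton, not_or]
      exact ⟨(z1 x hxZ).symm, (z2 x hxZ).symm⟩
  have hne1 : A1 ≠ A2 := by
    intro he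
    obtain ⟨x, hx⟩ : A1.Nonempty := card_pos.1 (by omega)
    exact key x hx (by rw [he] at hx ⊢; exact m2 x hx)
  have hne2 : (A1 ∩ A2).Nonempty := by
    by_contra he
    rw [not_nonempty_iff_eq_empty] at he
    have hd : Disjoint A1 A2 := disjoint_iff_inter_eq_empty.2 he
    have hu : A1 ∪ A2 = Z := by
      apply eq_of_subset_of_card_le (union_subset s1 s2)
      rw [card_union_of_disjoint hd, c1, c2, h4]
    obtain ⟨x, hx⟩ : A1.Nonempty := card_pos.1 (by omega)
    have hxZ := s1 hx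
    have h1 := zm x hxZ
    rw [← hu, mem_union] at h1
    rcases h1 with h1 | h1
    · exact key x hx h1
    · have h2 := m2 _ h1
      rw [zz x hxZ] at h2
      exact (disjoint_left.1 hd) hx h2
  have h1 : (A1 ∩ A2).card ≤ 2 := by
    rw [← c1]
    exact card_le_card inter_subset_left
  have h2 : (A1 ∩ A2).card ≠ 2 := by
    intro h3
    apply hne1
    have h5 : A1 ∩ A2 = A1 := eq_of_subset_of_card_le inter_subset_left (by omega)
    have h6 : A1 ∩ A2 = A2 := eq_of_subset_of_card_le inter_subset_right (by omega)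
    rw [← h5, h6]
  have h3 := card_pos.2 hne2
  omega

/-- the two ways of joining the legs are not both blocked -/
lemma two_blkW (h : G.LG Z lg) (hI : G.Inst0 K F) (hZ : G.Adm K F Z) (h4 : Z.card = 4)
    {nx1 nx2 : V → V} {nd1 nd2 : V → D} (n1 : G.ND F Z nx1 nd1) (n2 : G.ND F Z nx2 nd2)
    (hne : ∀ x ∈ Z, nx1 x ≠ nx2 x) {W1 W2 : Finset V} (b1 : Blk G K F Z lg nx1 W1)
    (b2 : Blk G K F Z lg nx2 W2) : False := by
  have htZ := f4_tk hI.cls hZ
  have hone := f4_one h4 kk_sub kk_sub b1.two b2.two b1.clo b2.clo n1.nxne n2.nxne n2.nxx n2.nxm hne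
  have hk : (kk G Z lg (W1 ∪ W2)).card = 3 := by
    have h1 := card_union_add_card_inter (kk G Z lg W1) (kk G Z lg W2)
    rw [kk_union]
    have h2 := b1.two
    have h3 := b2.two
    omega
  have hdis : Disjoint Z (W1 ∪ W2) := disjoint_union_right.2 ⟨b1.dis, b2.dis⟩
  have hUs : W1 ∪ W2 ⊆ G.vs := union_subset b1.sub b2.sub
  have hcnt := h.cnt htZ hdis
  have hcc := card_union_add_card_inter W1 W2
  obtain ⟨k1, hk1⟩ := b1.odd
  obtain ⟨k2, hk2⟩ := b2.odd
  -- the intersection is a union of circuits in the mixed case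
  rcases Nat.even_or_odd (W1 ∩ W2).card with he | ho
  · have hi1 := card_sdiff_add_card_inter W1 W2
    have hi2 := card_sdiff_add_card_inter W2 W1
    rw [inter_comm W2 W1] at hi2
    obtain ⟨k3, hk3⟩ := he
    have o1 : Odd (W1 \ W2).card := ⟨k1 - k3, by omega⟩
    have o2 : Odd (W2 \ W1).card := ⟨k2 - k3, by omega⟩
    have hp := G.dg_posimod b1.sub b2.sub
    have hed : 1 ≤ (G.ed (W1 ∩ W2) (G.vs \ (W1 ∪ W2))).card := by
      obtain ⟨z, hz⟩ := card_pos.1 (by omega : 0 < (kk G Z lg W1 ∩ kk G Z lg W2).card)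
      rw [← kk_inter, mem_kk] at hz
      apply card_pos.2
      refine ⟨G.al (lg z), ?_⟩
      rw [mem_ed]
      refine ⟨G.al_mem _ (h.mem _ hz.1), hz.2, ?_⟩
      rw [G.al_al _ (h.mem _ hz.1), h.pi _ hz.1]
      exact mem_sdiff.2 ⟨h.sub hz.1, fun q => (disjoint_left.1 hdis) hz.1 q⟩
    have g1 := hI.b0 _ (sdiff_subset.trans b1.sub) o1
    have g2 := hI.b0 _ (sdiff_subset.trans b2.sub) o2
    rcases b1.ty with t1 | ⟨a1, t1⟩ <;> rcases b2.ty with t2 | ⟨a2, t2⟩
    · omega
    · have h1 : G.Adm K F (W2 \ W1) := by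
        have h2 := f4_dif hI.cls a2 (b1.cross h hI.cls hZ t1 a2)
        have h3 : W2 \ (W1 ∩ W2) = W2 \ W1 := by
          ext v
          simp only [mem_sdiff, mem_inter]
          tauto
        rwa [h3] at h2
      have h2 := f4_dg5 hI h1 o2
      omega
    · have h1 : G.Adm K F (W1 \ W2) := by
        have h2 := f4_dif hI.cls a1 (b2.cross h hI.cls hZ t2 a1)
        have h3 : W1 \ (W2 ∩ W1) = W1 \ W2 := by
          ext v
          simp only [mem_sdiff, mem_inter]
          tauto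
        rwa [h3] at h2
      have h2 := f4_dg5 hI h1 o1
      omega
    · have h1 := f4_dg5 hI (f4_dif hI.cls a1 a2) o1
      have h2 := f4_dg5 hI (f4_dif hI.cls a2 a1) o2
      omega
  · have hs := G.dg_submod W1 W2
    have hoU : Odd (W1 ∪ W2).card := by
      obtain ⟨k3, hk3⟩ := ho
      exact ⟨k1 + k2 - k3, by omega⟩
    have hoZ : Odd (Z ∪ (W1 ∪ W2)).card := by
      rw [card_union_of_disjoint hdis, h4, Nat.odd_add]
      exact ⟨fun q => absurd q (by decide), fun q => absurd q (Nat.not_even_iff_odd.2 hoU)⟩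
    have g1 := hI.b0 _ (inter_subset_left.trans b1.sub) ho
    have g2 := hI.b0 _ (union_subset h.sub hUs) hoZ
    rcases b1.ty with t1 | ⟨a1, t1⟩ <;> rcases b2.ty with t2 | ⟨a2, t2⟩
    · omega
    · have h1 := f4_dg5 hI (b1.cross h hI.cls hZ t1 a2) ho
      omega
    · have h2 := b2.cross h hI.cls hZ t2 a1
      rw [inter_comm] at h2
      have h1 := f4_dg5 hI h2 ho
      omega
    · have h1 := f4_dg5 hI (f4_int a1 a2) ho
      have h2 := f4_dg5 hI (f4_uni hZ (f4_uni a1 a2)) hoZ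
      omega

end LG
/-- at most one dart of a vertex of `Z` leaves `Z` -/
private lemma f4_leg (hc : G.Cls K F) {Z : Finset V} (hZ : G.Adm K F Z) {d e : D}
    (hd : d ∈ G.bd Z) (he : e ∈ G.bd Z) (hp : G.pi d = G.pi e) : d = e := by
  rw [mem_bd] at hd he
  have hv := hZ.sub hd.2.1
  have h3 := G.cubic _ hv
  have h2 := hc.F2 _ hv (hZ.dis _ hd.2.1)
  have hs : (F.filter fun x => G.pi x = G.pi d) ⊆ G.ds.filter fun x => G.pi x = G.pi d := by
    intro x hx
    rw [mem_filter] at hx ⊢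
    exact ⟨hc.Fsub hx.1, hx.2⟩
  have h1 := card_sdiff_add_card_eq_card hs
  have h4 : ((G.ds.filter fun x => G.pi x = G.pi d) \
      (F.filter fun x => G.pi x = G.pi d)).card = 1 := by omega
  obtain ⟨y, hy⟩ := card_eq_one.1 h4
  have h5 : d ∈ (G.ds.filter fun x => G.pi x = G.pi d) \
      (F.filter fun x => G.pi x = G.pi d) := by
    rw [mem_sdiff, mem_filter, mem_filter]
    exact ⟨⟨hd.1, rfl⟩, fun q => hd.2.2 (hZ.clo _ q.1 hd.2.1)⟩
  have h6 : e ∈ (G.ds.filter fun x => G.pi x = G.pi d) \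
      (F.filter fun x => G.pi x = G.pi d) := by
    rw [mem_sdiff, mem_filter, mem_filter]
    exact ⟨⟨he.1, hp.symm⟩, fun q => he.2.2 (hZ.clo _ q.1 he.2.1)⟩
  rw [hy, mem_singleton] at h5 h6
  rw [h5, h6]

private lemma f4_bd_le (hc : G.Cls K F) {Z : Finset V} (hZ : G.Adm K F Z) :
    (G.bd Z).card ≤ Z.card := by
  apply card_le_card_of_injOn G.pi
  · intro d hd
    exact mem_coe.2 (G.mem_bd.1 (mem_coe.1 hd)).2.1
  · intro d hd e he hp
    exact f4_leg hc hZ (mem_coe.1 hd) (mem_coe.1 he) hp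

section

variable {V D : Type} {G : CG V D} {K : Finset V} {F : Finset D} {W : Finset (Finset V)}

private lemma f4_four_le (h : G.MCW K F W) {Z : Finset V} (hZ : G.Adm K F Z) (hne : Z.Nonempty) :
    4 ≤ Z.card := by
  have h1 := f4_bd_le h.inst.cls hZ
  by_contra hlt
  rcases Nat.even_or_odd Z.card with he | ho
  · have := h.four_le_bd hZ he hne (by omega)
    omega
  · have := h.inst.cc Z hZ ho
    omega

private lemma f4_lg (h : G.MCW K F W) {Z : Finset V} (hZ : G.Adm K F Z) (h4 : Z.card = 4) :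
    ∃ lg, G.LG Z lg := by
  have hne : Z.Nonempty := card_pos.1 (by omega)
  have h1 := f4_bd_le h.inst.cls hZ
  have h2 := h.four_le_bd hZ (by rw [h4]; decide) hne (by omega)
  have h3 : (G.bd Z).image G.pi = Z := by
    apply eq_of_subset_of_card_le
    · intro v hv
      obtain ⟨d, hd, rfl⟩ := mem_image.1 hv
      exact (G.mem_bd.1 hd).2.1
    · rw [card_image_of_injOn]
      · omega
      · intro d hd e he hp
        exact f4_leg h.inst.cls hZ (mem_coe.1 hd) (mem_coe.1 he) hp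
  have h5 : ∀ x ∈ Z, ∃ d, d ∈ G.bd Z ∧ G.pi d = x := by
    intro x hx
    rw [← h3] at hx
    obtain ⟨d, hd, hp⟩ := mem_image.1 hx
    exact ⟨d, hd, hp⟩
  obtain ⟨x0, hx0⟩ := hne
  obtain ⟨d0, _⟩ := h5 x0 hx0
  have : Nonempty D := ⟨d0⟩
  choose! lg hlg using h5
  refine ⟨lg, hZ.sub, ?_, ?_, ?_, ?_⟩
  · exact fun x hx => (G.mem_bd.1 (hlg x hx).1).1
  · exact fun x hx => (hlg x hx).2
  · exact fun x hx => (G.mem_bd.1 (hlg x hx).1).2.2
  · intro d hd
    have h6 := (G.mem_bd.1 hd).2.1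
    exact f4_leg h.inst.cls hZ hd (hlg _ h6).1 (hlg _ h6).2.symm

/-- a perfect matching of a set of four vertices -/
private lemma f4_nd (hc : G.Cls K F) {Z : Finset V} {x1 x2 y1 y2 : V} {p s : D}
    (hZ : ∀ x, x ∈ Z ↔ x = x1 ∨ x = x2 ∨ x = y1 ∨ x = y2) (h12 : x1 ≠ x2) (h13 : x1 ≠ y1)
    (h14 : x1 ≠ y2) (h23 : x2 ≠ y1) (h24 : x2 ≠ y2) (h34 : y1 ≠ y2) (hp : p ∈ F) (hs : s ∈ F)
    (e1 : G.pi p = x1) (e2 : G.pi (G.al p) = x2) (e3 : G.pi s = y1) (e4 : G.pi (G.al s) = y2) :
    ∃ nx nd, G.ND F Z nx nd ∧ nx x1 = x2 ∧ nx x2 = x1 ∧ nx y1 = y2 ∧ nx y2 = y1 := by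
  have a1 := G.al_al _ (hc.Fsub hp)
  have a2 := G.al_al _ (hc.Fsub hs)
  have f1 := hc.Fal _ hp
  have f2 := hc.Fal _ hs
  refine ⟨fun x => if x = x1 then x2 else if x = x2 then x1 else if x = y1 then y2 else y1,
    fun x => if x = x1 then p else if x = x2 then G.al p else if x = y1 then s else G.al s,
    ⟨?_, ?_, ?_, ?_, ?_, ?_⟩, ?_, ?_, ?_, ?_⟩
  · intro x hx
    rcases (hZ x).1 hx with rfl | rfl | rfl | rfl <;> simp [hZ, h12, h12.symm, h13, h13.symm, h14,
      h14.symm, h23, h23.symm, h24, h24.symm, h34, h34.symm]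
  · intro x hx
    rcases (hZ x).1 hx with rfl | rfl | rfl | rfl <;> simp [h12, h12.symm, h13, h13.symm, h14,
      h14.symm, h23, h23.symm, h24, h24.symm, h34, h34.symm]
  · intro x hx
    rcases (hZ x).1 hx with rfl | rfl | rfl | rfl <;> simp [h12, h12.symm, h13, h13.symm, h14,
      h14.symm, h23, h23.symm, h24, h24.symm, h34, h34.symm]
  · intro x hx
    rcases (hZ x).1 hx with rfl | rfl | rfl | rfl <;> simp [h12, h12.symm, h13, h13.symm, h14,
      h14.symm, h23, h23.symm, h24, h24.symm, h34, h34.symm, hp, hs, f1, f2]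
  · intro x hx
    rcases (hZ x).1 hx with rfl | rfl | rfl | rfl <;> simp [h12, h12.symm, h13, h13.symm, h14,
      h14.symm, h23, h23.symm, h24, h24.symm, h34, h34.symm, e1, e2, e3, e4]
  · intro x hx
    rcases (hZ x).1 hx with rfl | rfl | rfl | rfl <;> simp [h12, h12.symm, h13, h13.symm, h14,
      h14.symm, h23, h23.symm, h24, h24.symm, h34, h34.symm, a1, a2]
  · simp
  · simp [h12.symm]
  · simp [h13.symm, h23.symm]
  · simp [h14.symm, h24.symm, h34.symm]

/-- the second dart of `F` at a vertex of `Z` -/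
private lemma f4_snd (hc : G.Cls K F) {Z : Finset V} (hZ : G.Adm K F Z) {p : D} (hp : p ∈ F)
    (hpZ : G.pi p ∈ Z) : ∃ q ∈ F, G.pi q = G.pi p ∧ q ≠ p ∧
      ∀ d ∈ F, G.pi d = G.pi p → d = p ∨ d = q := by
  have h2 := hc.F2 _ (hZ.sub hpZ) (hZ.dis _ hpZ)
  have h1 : p ∈ F.filter fun x => G.pi x = G.pi p := mem_filter.2 ⟨hp, rfl⟩
  have h3 : ((F.filter fun x => G.pi x = G.pi p).erase p).card = 1 := by
    rw [card_erase_of_mem h1, h2]
  obtain ⟨q, hq⟩ := card_eq_one.1 h3
  have h4 : q ∈ (F.filter fun x => G.pi x = G.pi p).erase p := by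
    rw [hq]
    exact mem_singleton_self q
  rw [mem_erase, mem_filter] at h4
  refine ⟨q, h4.2.1, h4.2.2, h4.1, ?_⟩
  intro d hd hdp
  by_cases hdq : d = p
  · exact Or.inl hdq
  · right
    have h5 : d ∈ (F.filter fun x => G.pi x = G.pi p).erase p :=
      mem_erase.2 ⟨hdq, mem_filter.2 ⟨hd, hdp⟩⟩
    rw [hq] at h5
    exact mem_singleton.1 h5

/-- the two perfect matchings of a circuit of length four -/
private lemma f4_cyc (hc : G.Cls K F) {Z : Finset V} (hZ : G.Adm K F Z) (h4 : Z.card = 4)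
    (hno : ∀ Y, G.Adm K F Y → Y.Nonempty → 4 ≤ Y.card) :
    ∃ nx1 nd1 nx2 nd2, G.ND F Z nx1 nd1 ∧ G.ND F Z nx2 nd2 ∧ ∀ x ∈ Z, nx1 x ≠ nx2 x := by
  have hinj : ∀ d ∈ F, ∀ e ∈ F, G.al d = G.al e → d = e := by
    intro d hd e he h1
    rw [← G.al_al d (hc.Fsub hd), ← G.al_al e (hc.Fsub he), h1]
  have hal : ∀ d ∈ F, G.al (G.al d) = d := fun d hd => G.al_al d (hc.Fsub hd)
  have hmk : ∀ Y, Y ⊆ Z → (∀ d ∈ F, G.pi d ∈ Y → G.pi (G.al d) ∈ Y) → Y.Nonempty →
      4 ≤ Y.card := by
    intro Y hY h1 h2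
    exact hno Y ⟨hY.trans hZ.sub, fun v hv => hZ.dis v (hY hv), h1⟩ h2
  obtain ⟨a, ha⟩ : Z.Nonempty := card_pos.1 (by omega)
  obtain ⟨p, hpF, hpa⟩ : ∃ p ∈ F, G.pi p = a := by
    have h2 := hc.F2 _ (hZ.sub ha) (hZ.dis _ ha)
    obtain ⟨p, hp⟩ := card_pos.1 (by omega : 0 < (F.filter fun x => G.pi x = a).card)
    rw [mem_filter] at hp
    exact ⟨p, hp.1, hp.2⟩
  obtain ⟨q, hqF, hqa, hqp, hda⟩ := f4_snd hc hZ hpF (by rw [hpa]; exact ha)
  rw [hpa] at hqa hda
  obtain ⟨b, hb⟩ : ∃ b, G.pi (G.al p) = b := ⟨_, rfl⟩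
  obtain ⟨e, he⟩ : ∃ e, G.pi (G.al q) = e := ⟨_, rfl⟩
  have hbZ : b ∈ Z := by rw [← hb]; exact hZ.clo p hpF (by rw [hpa]; exact ha)
  have heZ : e ∈ Z := by rw [← he]; exact hZ.clo q hqF (by rw [hqa]; exact ha)
  have hapF := hc.Fal p hpF
  have haqF := hc.Fal q hqF
  have hab : a ≠ b := by
    intro h1
    have h2 := hda _ hapF (hb.trans h1.symm)
    have h3 : G.al p = q := h2.resolve_left (hc.Ftok p hpF)
    have h5 := hmk {a} (singleton_subset_iff.2 ha) (by
      intro d hd hdp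
      rw [mem_singleton] at hdp ⊢
      rcases hda d hd hdp with rfl | rfl
      · rw [hb, h1]
      · rw [← h3, hal p hpF, hpa]) (singleton_nonempty a)
    rw [card_singleton] at h5
    omega
  have hae : a ≠ e := by
    intro h1
    have h2 := hda _ haqF (he.trans h1.symm)
    have h3 : G.al q = p := h2.resolve_right (hc.Ftok q hqF)
    apply hab
    rw [← hb, ← h3, hal q hqF, hqa]
  obtain ⟨r, hrF, hrb, hrp, hdb⟩ := f4_snd hc hZ hapF (by rw [hb]; exact hbZ)
  rw [hb] at hrb hdb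
  obtain ⟨s, hsF, hse, hsq, hde⟩ := f4_snd hc hZ haqF (by rw [he]; exact heZ)
  rw [he] at hse hde
  have hbe : b ≠ e := by
    intro h1
    have h2 := hdb _ haqF (he.trans h1.symm)
    have h3 : G.al q = r := h2.resolve_left fun h3 => hqp (hinj q hqF p hpF h3)
    have h5 := hmk {a, b} (by
      intro x hx
      rw [mem_insert, mem_singleton] at hx
      rcases hx with rfl | rfl
      · exact ha
      · exact hbZ) (by
      intro d hd hdp
      rw [mem_insert, mem_singleton] at hdp ⊢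
      rcases hdp with hdp | hdp
      · rcases hda d hd hdp with rfl | rfl
        · right; exact hb
        · right; rw [he, h1]
      · rcases hdb d hd hdp with rfl | rfl
        · left; rw [hal p hpF, hpa]
        · left; rw [← h3, hal q hqF, hqa]) ⟨a, mem_insert_self _ _⟩
    have h6 : ({a, b} : Finset V).card ≤ 2 := card_le_two
    omega
  obtain ⟨c, hcc⟩ : ∃ c, G.pi (G.al r) = c := ⟨_, rfl⟩
  have harF := hc.Fal r hrF
  have hasF := hc.Fal s hsF
  have hcZ : c ∈ Z := by rw [← hcc]; exact hZ.clo r hrF (by rw [hrb]; exact hbZ)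
  have hac : a ≠ c := by
    intro h1
    rcases hda _ harF (hcc.trans h1.symm) with h2 | h2
    · apply hrp
      rw [← h2, hal r hrF]
    · apply hbe
      rw [← hrb, ← he, ← h2, hal r hrF]
  have hbc : b ≠ c := by
    intro h1
    rcases hdb _ harF (hcc.trans h1.symm) with h2 | h2
    · have h3 := hinj r hrF p hpF h2
      apply hab
      rw [← hpa, ← h3, hrb]
    · exact hc.Ftok r hrF h2
  have hce : c ≠ e := by
    intro h1
    rcases hde _ harF (hcc.trans h1) with h2 | h2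
    · have h3 := hinj r hrF q hqF h2
      apply hab
      rw [← hqa, ← h3, hrb]
    · have h5 := hmk {a, b, e} (by
        intro x hx
        rw [mem_insert, mem_insert, mem_singleton] at hx
        rcases hx with rfl | rfl | rfl
        · exact ha
        · exact hbZ
        · exact heZ) (by
        intro d hd hdp
        rw [mem_insert, mem_insert, mem_singleton] at hdp ⊢
        rcases hdp with hdp | hdp | hdp
        · rcases hda d hd hdp with rfl | rfl
          · right; left; exact hb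
          · right; right; exact he
        · rcases hdb d hd hdp with rfl | rfl
          · left; rw [hal p hpF, hpa]
          · right; right; rw [hcc, h1]
        · rcases hde d hd hdp with rfl | rfl
          · left; rw [hal q hqF, hqa]
          · right; left; rw [← h2, hal r hrF, hrb]) ⟨a, mem_insert_self _ _⟩
      have h6 : ({a, b, e} : Finset V).card ≤ 3 := card_le_three
      omega
  have hZe : Z = {a, b, c, e} := by
    symm
    apply eq_of_subset_of_card_le
    · intro x hx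
      rw [mem_insert, mem_insert, mem_insert, mem_singleton] at hx
      rcases hx with rfl | rfl | rfl | rfl
      · exact ha
      · exact hbZ
      · exact hcZ
      · exact heZ
    · rw [h4, card_insert_of_notMem, card_insert_of_notMem, card_insert_of_notMem, card_singleton]
      · rw [mem_singleton]; exact hce
      · rw [mem_insert, mem_singleton, not_or]; exact ⟨hbc, hbe⟩
      · rw [mem_insert, mem_insert, mem_singleton, not_or, not_or]; exact ⟨hab, hac, hae⟩
  have hsc : G.pi (G.al s) = c := by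
    have h1 := hZ.clo s hsF (by rw [hse]; exact heZ)
    rw [hZe, mem_insert, mem_insert, mem_insert, mem_singleton] at h1
    rcases h1 with h1 | h1 | h1 | h1
    · exfalso
      rcases hda _ hasF h1 with h2 | h2
      · apply hbe
        rw [← hb, ← h2, hal s hsF, hse]
      · apply hsq
        rw [← h2, hal s hsF]
    · exfalso
      rcases hdb _ hasF h1 with h2 | h2
      · have h3 := hinj s hsF p hpF h2
        apply hae
        rw [← hpa, ← h3, hse]
      · apply hce
        rw [← hcc, ← h2, hal s hsF, hse]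
    · exact h1
    · exfalso
      rcases hde _ hasF h1 with h2 | h2
      · have h3 := hinj s hsF q hqF h2
        apply hae
        rw [← hqa, ← h3, hse]
      · exact hc.Ftok s hsF h2
  obtain ⟨nx1, nd1, hn1, u1, u2, u3, u4⟩ := f4_nd (x1 := a) (x2 := b) (y1 := e) (y2 := c) hc
    (Z := Z) (p := p) (s := s)
    (by
      intro x
      rw [hZe, mem_insert, mem_insert, mem_insert, mem_singleton]
      tauto) hab hae hac hbe hbc hce.symm hpF hsF hpa hb hse hsc
  obtain ⟨nx2, nd2, hn2, w1, w2, w3, w4⟩ := f4_nd (x1 := a) (x2 := e) (y1 := b) (y2 := c) hc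
    (Z := Z) (p := q) (s := r)
    (by
      intro x
      rw [hZe, mem_insert, mem_insert, mem_insert, mem_singleton]
      tauto) hae hab hac hbe.symm hce.symm hbc hqF hrF hqa he hrb hcc
  refine ⟨nx1, nd1, nx2, nd2, hn1, hn2, ?_⟩
  intro x hx
  rw [hZe, mem_insert, mem_insert, mem_insert, mem_singleton] at hx
  rcases hx with rfl | rfl | rfl | rfl
  · rw [u1, w1]; exact hbe
  · rw [u2, w3]; exact hac
  · rw [u4, w4]; exact hbe.symm
  · rw [u3, w2]; exact hac.symm

/-- (F4) in a minimal counterexample there is no nonempty union of fresh circuits with at most four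
vertices -/
theorem MCW.no_small (h : G.MCW K F W) {Z : Finset V} (hZ : G.Adm K F Z) (h4 : Z.card ≤ 4) :
    Z = ∅ := by
  by_contra hne
  have hne' : Z.Nonempty := nonempty_iff_ne_empty.2 hne
  have h5 : Z.card = 4 := le_antisymm h4 (f4_four_le h hZ hne')
  obtain ⟨lg, hl⟩ := f4_lg h hZ h5
  obtain ⟨nx1, nd1, nx2, nd2, n1, n2, hne2⟩ :=
    f4_cyc h.inst.cls hZ h5 fun Y hY hY' => f4_four_le h hY hY'
  have hone : ∀ X, G.Adm K F X → Z ⊆ X ∨ Disjoint Z X := by
    intro X hX
    by_cases h1 : (Z ∩ X).Nonempty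
    · left
      have h2 : G.Adm K F (Z ∩ X) := ⟨inter_subset_left.trans hZ.sub,
        fun v hv => hZ.dis v (mem_inter.1 hv).1, fun d hd hp =>
          mem_inter.2 ⟨hZ.clo d hd (mem_inter.1 hp).1, hX.clo d hd (mem_inter.1 hp).2⟩⟩
      have h3 := f4_four_le h h2 h1
      have h6 : Z ∩ X = Z := eq_of_subset_of_card_le inter_subset_left (by omega)
      rw [← h6]
      exact inter_subset_right
    · right
      rw [not_nonempty_iff_eq_empty] at h1
      exact disjoint_iff_inter_eq_empty.2 h1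
  have hlt : (G.vs \ Z).card < G.vs.card := by
    have h1 : (G.vs \ Z).card + Z.card = G.vs.card := card_sdiff_add_card_eq_card hZ.sub
    omega
  have key : ∀ (nx : V → V) (nd : V → D) (n : G.ND F Z nx nd),
      ¬ ∃ W', (hl.gr n).InstW K (F.filter fun d => G.pi d ∉ Z) W' := by
    rintro nx nd n ⟨W', hI⟩
    obtain ⟨M, hM⟩ := h.ih (hl.gr n) K (F.filter fun d => G.pi d ∉ Z) W' hlt hI
    exact h.no ⟨_, hl.lift_good n h.inst.cls hZ (by rw [h5]; decide) hone hM⟩
  rcases hl.inst_orW n1 h.inst hZ h5 with h1 | ⟨W1, b1⟩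
  · exact key _ _ n1 h1
  · rcases hl.inst_orW n2 h.inst hZ h5 with h2 | ⟨W2, b2⟩
    · exact key _ _ n2 h2
    · exact hl.two_blkW h.inst.toInst0 hZ h5 n1 n2 hne2 b1 b2

/-- every vertex which is not absorbed lies in a fresh circuit with exactly five vertices, and it
has exactly five legs -/
theorem MCW.pent (h : G.MCW K F W) {Z : Finset V} (hZ : G.Adm K F Z) {v : V} (hv : v ∈ Z) :
    (∃ L ∈ W, v ∈ L) ∨
      ∃ Z', Z' ⊆ Z ∧ G.Adm K F Z' ∧ v ∈ Z' ∧ Z'.card = 5 ∧ (G.bd Z').card = 5 := by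
  obtain h0 | ⟨Z', h1, h2, h3, h4⟩ := h.inst.smw.sm Z hZ v hv
  · exact Or.inl h0
  right
  have h5 : Z'.card = 5 := by
    by_contra hne
    have h6 := h.no_small h2 (by omega)
    rw [h6] at h3
    exact absurd h3 (notMem_empty _)
  refine ⟨Z', h1, h2, h3, h5, ?_⟩
  have h6 := f4_bd_le h.inst.cls h2
  have h7 := h.inst.cc Z' h2 (by rw [h5]; decide)
  omega

/-- two fresh circuits with five vertices are equal or disjoint; every union of fresh circuits
contains such a circuit or is disjoint from it -/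
theorem MCW.pent_cases (h : G.MCW K F W) {P : Finset V} (hP : G.Adm K F P) (h5 : P.card = 5)
    {X : Finset V} (hX : G.Adm K F X) : P ⊆ X ∨ Disjoint P X := by
  have h1 : G.Adm K F (P ∩ X) := ⟨inter_subset_left.trans hP.sub,
    fun v hv => hP.dis v (mem_inter.1 hv).1, fun d hd hp =>
      mem_inter.2 ⟨hP.clo d hd (mem_inter.1 hp).1, hX.clo d hd (mem_inter.1 hp).2⟩⟩
  have h2 : G.Adm K F (P \ X) := by
    refine ⟨sdiff_subset.trans hP.sub, fun v hv => hP.dis v (mem_sdiff.1 hv).1, ?_⟩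
    intro d hd hp
    rw [mem_sdiff] at hp ⊢
    refine ⟨hP.clo d hd hp.1, fun hq => hp.2 ?_⟩
    have h3 := hX.clo (G.al d) (h.inst.cls.Fal d hd) hq
    rwa [G.al_al d (h.inst.cls.Fsub hd)] at h3
  have h3 : (P ∩ X).card + (P \ X).card = P.card := card_inter_add_card_sdiff P X
  by_cases h4 : (P ∩ X).card ≤ 4
  · right
    exact disjoint_iff_inter_eq_empty.2 (h.no_small h1 h4)
  · left
    have h6 := h.no_small h2 (by omega)
    rwa [sdiff_eq_empty_iff_subset] at h6

/-- the legs of a fresh circuit with five vertices -/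
theorem MCW.pent_lg (h : G.MCW K F W) {P : Finset V} (hP : G.Adm K F P) (h5 : P.card = 5) :
    ∃ lg, G.LG P lg := by
  have h1 := f4_bd_le h.inst.cls hP
  have h2 := h.inst.cc P hP (by rw [h5]; decide)
  have h3 : (G.bd P).image G.pi = P := by
    apply eq_of_subset_of_card_le
    · intro v hv
      obtain ⟨d, hd, rfl⟩ := mem_image.1 hv
      exact (G.mem_bd.1 hd).2.1
    · rw [card_image_of_injOn]
      · omega
      · intro d hd e he hp
        exact f4_leg h.inst.cls hP (mem_coe.1 hd) (mem_coe.1 he) hp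
  have h4 : ∀ x ∈ P, ∃ d, d ∈ G.bd P ∧ G.pi d = x := by
    intro x hx
    rw [← h3] at hx
    obtain ⟨d, hd, hp⟩ := mem_image.1 hx
    exact ⟨d, hd, hp⟩
  obtain ⟨x0, hx0⟩ := card_pos.1 (by omega : 0 < P.card)
  obtain ⟨d0, _⟩ := h4 x0 hx0
  have : Nonempty D := ⟨d0⟩
  choose! lg hlg using h4
  refine ⟨lg, hP.sub, ?_, ?_, ?_, ?_⟩
  · exact fun x hx => (G.mem_bd.1 (hlg x hx).1).1
  · exact fun x hx => (hlg x hx).2
  · exact fun x hx => (G.mem_bd.1 (hlg x hx).1).2.2
  · intro d hd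
    have h6 := (G.mem_bd.1 hd).2.1
    exact f4_leg h.inst.cls hP hd (hlg _ h6).1 (hlg _ h6).2.symm

end

end JP.CG
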