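import Pool.Agent.Lib.JL.Route

/-! The weights of a stage (MP_c95763_co): a long circuit is joined to the targets. -/

set_option autoImplicit false

namespace JP.CG

open Finset Classical

variable {V D : Type*}

/-- weights: 0 on the route, `g` on `F`, 1 otherwise -/
noncomputable def zz (G : CG V D) (F A : Finset D) (e : D) (g : D → ℕ) (d : D) : ℕ :=
  if d ∈ A ∨ d = G.al e then 0 else if d ∈ F then g d else 1

/-- the two new tokens -/
noncomputable def tt (G : CG V D) (e : D) (u : V) (v : V) : ℕ :=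
  (if v = u then 1 else 0) + if v = G.pi (G.al e) then 1 else 0

/-- the data of a stage -/
structure Sd (G : CG V D) (K : Finset V) (F : Finset D) (L T : Finset V) (e : D) (A : Finset D)
    (u : V) (g : D → ℕ) (s : Finset V → ℕ) : Prop extends G.Sg K F L T where
  me : e ∈ G.ds
  pe : G.pi e ∉ L
  ae : G.pi (G.al e) ∈ L
  rw : G.Rw (G.nc K F) (G.vs \ L) T e A u
  s1 : ∀ X ⊆ G.vs, s X ≤ (G.tk X).card ∧ s X ≤ (G.tk (G.vs \ X)).card
  val : ∀ X ⊆ G.vs \ L, CSat (G.nc K F) X → Odd X.card →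
    3 ≤ (G.bd X \ A).card + s X + if u ∈ X then 1 else 0
  gs : ∀ d ∈ F, g (G.al d) = g d
  gC : ∀ d ∈ F, G.pi d ∈ T ∪ L → g d = 1
  g1 : ∀ d ∈ F, (A.filter fun x => G.pi x ∈ G.cir K F (G.pi d)).card ≠ 2 → g d = 1
  g2 : ∀ v ∈ G.vs, v ∉ K → v ∉ T ∪ L → (∑ d ∈ F.filter fun d => G.pi d = v, g d) = 2 +
    if (A.filter fun d => G.pi d ∈ G.cir K F v).card = 2 then
      (A.filter fun d => G.pi d = v).card else 0
  gt : ∀ v ∈ G.vs, v ∉ K → v ∉ T ∪ L → (A.filter fun d => G.pi d ∈ G.cir K F v).card = 2 →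
    ∀ (z : D → ℕ) (t : V → ℕ), (∀ d ∈ F, G.pi d ∈ G.cir K F v → z d = g d) →
      (∀ d ∈ G.ds, d ∉ F → G.pi d ∈ G.cir K F v → z d = if d ∈ A then 0 else 1) →
      (∀ w ∈ G.cir K F v, t w = 0) → G.Tm z t (G.cir K F v)

variable {G : CG V D} {K : Finset V} {F : Finset D} {L T : Finset V} {e : D} {A : Finset D}
  {u : V} {g : D → ℕ} {s : Finset V → ℕ}

lemma Sg.Ccl (h : G.Sg K F L T) {v : V} (hK : v ∉ K) (hC : v ∈ T ∪ L) :
    G.cir K F v ⊆ T ∪ L := by
  rcases mem_union.1 hC with h1 | h1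
  · exact (h.Tc v h1 hK).trans subset_union_left
  · rw [h.cir v h1]
    exact subset_union_right

lemma Rw_A_nF (h : G.Sg K F L T) (he : e ∈ G.ds) (pe : G.pi e ∉ L) (ae : G.pi (G.al e) ∈ L)
    (hR : G.Rw (G.nc K F) (G.vs \ L) T e A u) {d : D} (hd : d ∈ A) : d ∉ F := by
  intro hF
  by_cases hde : d = e
  · have h1 := h.adm.clo (G.al d) (h.cls.Fal d hF) (by rw [hde]; exact ae)
    rw [G.al_al d (hde ▸ he), hde] at h1
    exact pe h1
  · have h1 := hR.nl d hd hde
    rw [nc_f (h.full.out d hF)] at h1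
    exact h1 (cir_mem_al h.cls hF)

/-- the data exist -/
theorem Sg.exists_sd (h : G.Sg K F L T) : ∃ e A u g s, G.Sd K F L T e A u g s := by
  obtain ⟨e, A, u, me, pe, ae, hR, s, s1, s2⟩ := h.route
  obtain ⟨g, a1, a2, a3, a4, a5⟩ := exists_far (A := A) (C := T ∪ L) h.cls h.full
    (fun v _ hK hC => h.Ccl hK hC)
    (fun v hv _ hn => h.pen v hv (fun k => hn (mem_union_left _ k)) fun k =>
      hn (mem_union_right _ k)) (fun d hd => (hR.sub d hd).1)
    (fun d hd => Rw_A_nF h me pe ae hR hd)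
  exact ⟨e, A, u, g, s, ⟨h, me, pe, ae, hR, s1, s2, a1, a2, a3, a4, a5⟩⟩

namespace Sd

variable (h : G.Sd K F L T e A u g s)
include h

lemma A_nF {d : D} (hd : d ∈ A) : d ∉ F := Rw_A_nF h.toSg h.me h.pe h.ae h.rw hd

lemma ale_nF : G.al e ∉ F := fun k => h.A_nF h.rw.mem (by
  have h1 := h.cls.Fal _ k
  rwa [G.al_al e h.me] at h1)

lemma A_nL {d : D} (hd : d ∈ A) : G.pi d ∉ L := (mem_sdiff.1 (h.rw.sub d hd).2).2

lemma ale_ds : G.al e ∈ G.ds := G.al_mem e h.me

lemma uT : u ∈ T := h.rw.um.2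

lemma uL : u ∉ L := (mem_sdiff.1 h.rw.um.1).2

lemma uv : u ∈ G.vs := h.Tv h.uT

lemma ux : u ≠ G.pi (G.al e) := fun k => h.uL (k ▸ h.ae)

lemma part : G.Part (G.nc K F) := nc_part h.cls h.full

lemma nc_u : G.nc K F u ⊆ T := h.satT u h.uT

lemma mem_al {d : D} (hd : d ∈ G.ds) : (G.al d ∈ A ∨ G.al d = G.al e) ↔ (d ∈ A ∨ d = G.al e) := by
  constructor
  · rintro (h1 | h1)
    · by_cases h2 : G.al d = e
      · right
        rw [← h2, G.al_al d hd]
      · have h3 := (h.rw.clo _ h1 h2).2.1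
        rw [G.al_al d hd] at h3
        exact Or.inl h3
    · left
      rw [← G.al_al d hd, h1, G.al_al e h.me]
      exact h.rw.mem
  · rintro (h1 | h1)
    · by_cases h2 : d = e
      · exact Or.inr (by rw [h2])
      · exact Or.inl (h.rw.clo _ h1 h2).2.1
    · left
      rw [h1, G.al_al e h.me]
      exact h.rw.mem

lemma F_al {d : D} (hd : d ∈ G.ds) : G.al d ∈ F ↔ d ∈ F := by
  constructor
  · intro h1
    have h2 := h.cls.Fal _ h1
    rwa [G.al_al d hd] at h2
  · exact h.cls.Fal d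

lemma z_F {d : D} (hd : d ∈ F) : G.zz F A e g d = g d := by
  unfold zz
  rw [if_neg, if_pos hd]
  rintro (h1 | h1)
  · exact h.A_nF h1 hd
  · exact h.ale_nF (h1 ▸ hd)

omit h in
lemma z_K {d : D} (hd : d ∈ A ∨ d = G.al e) : G.zz F A e g d = 0 := by
  unfold zz
  rw [if_pos hd]

omit h in
lemma z_J {d : D} (hd : ¬ (d ∈ A ∨ d = G.al e)) (hF : d ∉ F) : G.zz F A e g d = 1 := by
  unfold zz
  rw [if_neg hd, if_neg hF]

lemma z_sym {d : D} (hd : d ∈ G.ds) : G.zz F A e g (G.al d) = G.zz F A e g d := by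
  unfold zz
  by_cases h1 : d ∈ A ∨ d = G.al e
  · rw [if_pos h1, if_pos ((h.mem_al hd).2 h1)]
  · rw [if_neg h1, if_neg fun k => h1 ((h.mem_al hd).1 k)]
    by_cases h2 : d ∈ F
    · rw [if_pos h2, if_pos ((h.F_al hd).2 h2), h.gs d h2]
    · rw [if_neg h2, if_neg fun k => h2 ((h.F_al hd).1 k)]

/-- counting at a vertex -/
lemma sum_at {v : V} (hv : v ∈ G.vs) :
    (∑ d ∈ G.ds.filter fun d => G.pi d = v, G.zz F A e g d) +
      ((G.ds.filter fun d => G.pi d = v).filter fun d => d ∈ A ∨ d = G.al e).card +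
      (F.filter fun d => G.pi d = v).card = (∑ d ∈ F.filter fun d => G.pi d = v, g d) + 3 := by
  set S := G.ds.filter fun d => G.pi d = v with hS
  have h3 : S.card = 3 := G.cubic v hv
  have hFS : (F.filter fun d => G.pi d = v) = S.filter fun d => d ∈ F := by
    ext d
    rw [mem_filter, mem_filter, hS, mem_filter]
    constructor
    · rintro ⟨a, b⟩
      exact ⟨⟨h.cls.Fsub a, b⟩, a⟩
    · rintro ⟨⟨a, b⟩, c⟩
      exact ⟨c, b⟩
  have h4 : ∀ d ∈ S, G.zz F A e g d + (if d ∈ A ∨ d = G.al e then 1 else 0) +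
      (if d ∈ F then 1 else 0) = (if d ∈ F then g d else 0) + 1 := by
    intro d _
    by_cases h1 : d ∈ F
    · have h2 : ¬ (d ∈ A ∨ d = G.al e) := by
        rintro (k | k)
        · exact h.A_nF k h1
        · exact h.ale_nF (k ▸ h1)
      rw [h.z_F h1, if_neg h2, if_pos h1, if_pos h1]
    · by_cases h2 : d ∈ A ∨ d = G.al e
      · rw [z_K h2, if_pos h2, if_neg h1, if_neg h1]
      · rw [z_J h2 h1, if_neg h2, if_neg h1, if_neg h1]
  have h5 := sum_congr rfl h4
  rw [sum_add_distrib, sum_add_distrib, sum_add_distrib, sum_const, smul_eq_mul, mul_one, h3,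
    ← sum_filter, ← card_eq_sum_ones, ← sum_filter, ← card_eq_sum_ones, ← sum_filter, ← hFS] at h5
  exact h5

/-- the killed darts at a vertex which is not the end of `al e` -/
lemma kill_at {v : V} (hx : v ≠ G.pi (G.al e)) :
    ((G.ds.filter fun d => G.pi d = v).filter fun d => d ∈ A ∨ d = G.al e) =
      A.filter fun d => G.pi d = v := by
  ext d
  rw [mem_filter, mem_filter, mem_filter]
  constructor
  · rintro ⟨⟨a, b⟩, c | c⟩
    · exact ⟨c, b⟩
    · exact absurd (by rw [← b, c]) hx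
  · rintro ⟨a, b⟩
    exact ⟨⟨(h.rw.sub d a).1, b⟩, Or.inl a⟩

/-- killed darts at a target -/
lemma kill_T {v : V} (hv : v ∈ T) : (A.filter fun d => G.pi d = v).card = if v = u then 1 else 0 := by
  obtain ⟨d0, k1, k2, k3⟩ := h.rw.land
  by_cases hvu : v = u
  · rw [if_pos hvu, card_eq_one]
    refine ⟨d0, ?_⟩
    ext d
    rw [mem_filter, mem_singleton]
    constructor
    · rintro ⟨a, b⟩
      refine k3 d a ?_
      rw [b, hvu]
      exact h.part.self u h.uv
    · rintro rfl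
      exact ⟨k1, k2.trans hvu.symm⟩
  · rw [if_neg hvu, card_eq_zero, filter_eq_empty_iff]
    intro d hd hp
    have h1 := h.rw.off d hd (by rw [hp]; exact hv)
    have h2 := k3 d hd h1
    exact hvu (by rw [← hp, h2, k2])

/-- the weights have sum three -/
theorem zw : G.ZW (G.zz F A e g) (G.tt e u) := by
  refine ⟨fun d hd => h.z_sym hd, ?_⟩
  intro v hv
  have h0 := h.sum_at hv
  set S := ∑ d ∈ G.ds.filter fun d => G.pi d = v, G.zz F A e g d with hS
  by_cases hK : v ∈ K
  · have h1 : (F.filter fun d => G.pi d = v) = ∅ := by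
      rw [filter_eq_empty_iff]
      intro d hd hp
      exact h.full.out d hd (by rw [hp]; exact hK)
    have hx : v ≠ G.pi (G.al e) := fun k => h.adm.dis _ h.ae (k ▸ hK)
    rw [h.kill_at hx, h.kill_T (h.KT hK), h1, card_empty, sum_empty] at h0
    unfold tt
    rw [if_neg hx]
    omega
  · have h2 := h.cls.F2 v hv hK
    by_cases hL : v ∈ L
    · have h3 : (∑ d ∈ F.filter fun d => G.pi d = v, g d) = 2 := by
        rw [← h2, card_eq_sum_ones]
        refine sum_congr rfl fun d hd => ?_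
        obtain ⟨a, b⟩ := mem_filter.1 hd
        exact h.gC d a (mem_union_right _ (by rw [b]; exact hL))
      have h4 : ((G.ds.filter fun d => G.pi d = v).filter fun d => d ∈ A ∨ d = G.al e).card =
          if v = G.pi (G.al e) then 1 else 0 := by
        split_ifs with hx
        · rw [card_eq_one]
          refine ⟨G.al e, ?_⟩
          ext d
          rw [mem_filter, mem_filter, mem_singleton]
          constructor
          · rintro ⟨⟨a, b⟩, c | c⟩
            · exact absurd (by rw [b]; exact hL) (h.A_nL c)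
            · exact c
          · rintro rfl
            exact ⟨⟨h.ale_ds, hx.symm⟩, Or.inr rfl⟩
        · rw [h.kill_at hx, card_eq_zero, filter_eq_empty_iff]
          intro d hd hp
          exact h.A_nL hd (by rw [hp]; exact hL)
      have hu : v ≠ u := fun k => h.uL (k ▸ hL)
      unfold tt
      rw [if_neg hu]
      rw [h3, h2, h4] at h0
      omega
    · have hx : v ≠ G.pi (G.al e) := fun k => hL (k ▸ h.ae)
      rw [h.kill_at hx, h2] at h0
      by_cases hT : v ∈ T
      · have h3 : (∑ d ∈ F.filter fun d => G.pi d = v, g d) = 2 := by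
          rw [← h2, card_eq_sum_ones]
          refine sum_congr rfl fun d hd => ?_
          obtain ⟨a, b⟩ := mem_filter.1 hd
          exact h.gC d a (mem_union_left _ (by rw [b]; exact hT))
        rw [h3, h.kill_T hT] at h0
        unfold tt
        rw [if_neg hx]
        omega
      · have hn : v ∉ T ∪ L := by
          rw [mem_union, not_or]
          exact ⟨hT, hL⟩
        have h3 := h.g2 v hv hK hn
        have hu : v ≠ u := fun k => hT (k ▸ h.uT)
        have h4 := h.rw.deg v (mem_sdiff.2 ⟨hv, hL⟩) fun k => hT (h.nc_u k)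
        rw [nc_f hK] at h4
        have h5 : (A.filter fun d => G.pi d = v).card ≤
            (A.filter fun d => G.pi d ∈ G.cir K F v).card := by
          apply card_le_card
          intro d hd
          rw [mem_filter] at hd ⊢
          exact ⟨hd.1, by rw [hd.2]; exact self_mem_cir hv⟩
        unfold tt
        rw [if_neg hx, if_neg hu]
        split_ifs at h3 with h6
        · omega
        · have h7 : (A.filter fun d => G.pi d ∈ G.cir K F v).card = 0 := by
            rcases h4 with h4 | h4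
            · exact h4
            · exact absurd h4 h6
          omega

/-- all classes are tame -/
theorem tame {v : V} (hv : v ∈ G.vs) : G.Tm (G.zz F A e g) (G.tt e u) (G.nc K F v) := by
  by_cases hK : v ∈ K
  · rw [nc_K hK]
    intro S hS hn hne
    rcases subset_singleton_iff.1 hS with h1 | h1
    · exact absurd h1 hn.ne_empty
    · exact absurd h1 hne
  · rw [nc_f hK]
    have hab := h.full.nabs hv hK
    by_cases hC : v ∈ T ∪ L
    · refine tm_one h.cls hab _ fun d hd hp => ?_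
      rw [h.z_F hd]
      exact h.gC d hd (h.Ccl hK hC hp)
    · by_cases h2 : (A.filter fun d => G.pi d ∈ G.cir K F v).card = 2
      · have hcir : ∀ w ∈ G.cir K F v, w ∉ T ∪ L := by
          intro w hw k
          have h3 := h.Ccl ((adm_cir hab).dis w hw) k
          rw [cir_eq h.cls hab hw] at h3
          exact hC (h3 (self_mem_cir hv))
        refine h.gt v hv hK hC h2 _ _ (fun d hd _ => h.z_F hd) ?_ ?_
        · intro d _ hF hp
          have h3 : d ≠ G.al e := fun k => hcir _ hp (mem_union_right _ (k ▸ h.ae))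
          by_cases h4 : d ∈ A
          · rw [if_pos h4, z_K (Or.inl h4)]
          · rw [if_neg h4, z_J (by rintro (k | k); exacts [h4 k, h3 k]) hF]
        · intro w hw
          have h3 : w ≠ u := fun k => hcir w hw (mem_union_left _ (k ▸ h.uT))
          have h4 : w ≠ G.pi (G.al e) := fun k => hcir w hw (mem_union_right _ (k ▸ h.ae))
          unfold tt
          rw [if_neg h3, if_neg h4]
      · refine tm_one h.cls hab _ fun d hd hp => ?_
        rw [h.z_F hd]
        refine h.g1 d hd ?_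
        rwa [cir_eq h.cls hab hp]

/-- darts leaving a saturated set are not in `F` -/
lemma sat_nF {X : Finset V} (hs : CSat (G.nc K F) X) {d : D} (hd : d ∈ G.bd X) : d ∉ F := by
  intro hF
  obtain ⟨h1, h2, h3⟩ := (G.mem_bd).1 hd
  have h4 := hs _ h2
  rw [nc_f (h.full.out d hF)] at h4
  exact h3 (h4 (cir_mem_al h.cls hF))

omit h in
/-- tokens have weight one -/
lemma z_tok (h : G.Sd K F L T e A u g s) {d : D} (hd : d ∈ G.ds) (ht : G.al d = d) :
    G.zz F A e g d = 1 := by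
  refine z_J ?_ fun k => h.cls.Ftok d k ht
  rintro (k | k)
  · by_cases h2 : d = e
    · rw [h2] at ht
      exact h.pe (by rw [← ht]; exact h.ae)
    · exact (h.rw.clo d k h2).1 ht
  · rw [k, G.al_al e h.me] at ht
    exact h.pe (by rw [ht]; exact h.ae)

omit h in
/-- new tokens in a set -/
lemma sum_tt {X : Finset V} : ∑ v ∈ X, G.tt e u v = (if u ∈ X then 1 else 0) +
    if G.pi (G.al e) ∈ X then 1 else 0 := by
  unfold tt
  rw [sum_add_distrib, sum_ite_eq' X u fun _ => 1, sum_ite_eq' X (G.pi (G.al e)) fun _ => 1]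

lemma sum_tk {X : Finset V} : ∑ d ∈ G.tk X, G.zz F A e g d = (G.tk X).card := by
  rw [card_eq_sum_ones]
  refine sum_congr rfl fun d hd => ?_
  obtain ⟨h1, -, h2⟩ := (G.mem_tk).1 hd
  exact h.z_tok h1 h2

/-- the boundary of a saturated set outside the root -/
lemma bd_le {X : Finset V} (hX : X ⊆ G.vs \ L) (hs : CSat (G.nc K F) X) :
    (G.bd X \ A).card ≤ ∑ d ∈ G.bd X, G.zz F A e g d := by
  rw [card_eq_sum_ones]
  refine le_trans ?_ (sum_le_sum_of_subset (sdiff_subset : G.bd X \ A ⊆ G.bd X))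
  refine sum_le_sum fun d hd => ?_
  obtain ⟨h1, h2⟩ := mem_sdiff.1 hd
  have h3 : d ≠ G.al e := fun k => (mem_sdiff.1 (hX ((G.mem_bd).1 h1).2.1)).2 (k ▸ h.ae)
  rw [z_J (by rintro (k | k); exacts [h2 k, h3 k]) (h.sat_nF hs h1)]

/-- bridgelessness of the weights -/
theorem zb : G.ZB (G.zz F A e g) (G.tt e u) := by
  refine lemV h.zw h.part (fun v hv => h.tame hv) ?_
  intro X hX hs ho
  by_cases hL : (X ∩ L).Nonempty
  · obtain ⟨w, hw⟩ := hL
    obtain ⟨hwX, hwL⟩ := mem_inter.1 hw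
    have hLX : L ⊆ X := by
      have h1 := hs w hwX
      rw [nc_f (h.adm.dis w hwL), h.cir w hwL] at h1
      exact h1
    have hY : G.vs \ X ⊆ G.vs \ L := sdiff_subset_sdiff (Subset.refl _) hLX
    have hYs : CSat (G.nc K F) (G.vs \ X) :=
      csat_sdiff h.part (Subset.refl _) (fun v => h.part.sub v) hs
    have hYo : Odd (G.vs \ X).card := by
      have h3 : (G.vs \ X).card + X.card = G.vs.card := card_sdiff_add_card_eq_card hX
      have h4 := h.even
      rw [← h3, Nat.even_add'] at h4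
      exact h4.2 ho
    have h1 := h.val _ hY hYs hYo
    have h2 := h.bd_le hY hYs
    have h3 := (h.s1 (G.vs \ X) sdiff_subset).2
    rw [Finset.sdiff_sdiff_eq_self hX] at h3
    have h4 : ∑ d ∈ G.bd X, G.zz F A e g d = ∑ d ∈ G.bd (G.vs \ X), G.zz F A e g d := by
      rw [G.bd_compl_eq hX, sum_image]
      · refine sum_congr rfl fun d hd => ?_
        exact (h.z_sym ((G.mem_bd).1 hd).1).symm
      · intro d hd d' hd' hdd
        rw [← G.al_al d ((G.mem_bd).1 hd).1, hdd, G.al_al d' ((G.mem_bd).1 hd').1]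
    unfold zc
    rw [h4, h.sum_tk, sum_tt, if_pos (hLX h.ae)]
    split_ifs at h1 <;> omega
  · have hX' : X ⊆ G.vs \ L := by
      intro v hv
      refine mem_sdiff.2 ⟨hX hv, fun k => hL ⟨v, mem_inter.2 ⟨hv, k⟩⟩⟩
    have h1 := h.val _ hX' hs ho
    have h2 := h.bd_le hX' hs
    have h3 := (h.s1 X hX).1
    unfold zc
    rw [h.sum_tk, sum_tt]
    omega

/-- number of tokens -/
theorem tok_le : ∑ d ∈ G.tk G.vs, G.zz F A e g d + ∑ v ∈ G.vs, G.tt e u v ≤
    (G.tk G.vs).card + 2 := by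
  rw [h.sum_tk, sum_tt]
  split_ifs <;> omega

/-- the root is touched -/
theorem tch_L : ∃ v ∈ L, v ∈ G.ztch (G.zz F A e g) := by
  refine ⟨_, h.ae, mem_ztch.2 ⟨G.pi_mem _ h.ale_ds, G.al e, h.ale_ds, rfl, ?_⟩⟩
  rw [z_K (Or.inr rfl)]
  exact zero_ne_one

/-- the landing point is touched -/
theorem tch_u : u ∈ G.ztch (G.zz F A e g) := by
  obtain ⟨d0, k1, k2, -⟩ := h.rw.land
  refine mem_ztch.2 ⟨h.uv, d0, (h.rw.sub d0 k1).1, k2, ?_⟩
  rw [z_K (Or.inl k1)]
  exact zero_ne_one

/-- a touched vertex lies in the class of a killed dart -/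
lemma tch_cases {v : V} (hv : v ∈ G.ztch (G.zz F A e g)) :
    (∃ d, (d ∈ A ∨ d = G.al e) ∧ G.pi d = v) ∨ (v ∉ K ∧ ∃ d ∈ A, G.pi d ∈ G.cir K F v) := by
  obtain ⟨hvv, d, hd, hp, hz⟩ := mem_ztch.1 hv
  by_cases h1 : d ∈ A ∨ d = G.al e
  · exact Or.inl ⟨d, h1, hp⟩
  · by_cases h2 : d ∈ F
    · right
      rw [h.z_F h2] at hz
      by_cases h3 : (A.filter fun x => G.pi x ∈ G.cir K F (G.pi d)).card = 2
      · obtain ⟨x, hx⟩ : (A.filter fun x => G.pi x ∈ G.cir K F (G.pi d)).Nonempty :=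
          card_pos.1 (by omega)
        rw [mem_filter, hp] at hx
        exact ⟨hp ▸ h.full.out d h2, x, hx⟩
      · exact absurd (h.g1 d h2 h3) hz
    · exact absurd (z_J h1 h2) hz

/-- everything touched is joined -/
theorem joined {Z : Finset V} (hZ : G.Adm K F Z) (hv : ∃ v ∈ Z, v ∈ G.ztch (G.zz F A e g)) :
    (∃ d ∈ G.bd Z, G.zz F A e g d = 0) ∨ G.ztch (G.zz F A e g) ⊆ Z := by
  by_contra hno
  rw [not_or] at hno
  obtain ⟨hno1, hno2⟩ := hno
  push Not at hno1
  have hin : ∀ d, d ∈ A ∨ d = G.al e → G.pi d ∈ Z → G.pi (G.al d) ∈ Z := by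
    intro d hd hp
    by_contra h1
    have h2 : d ∈ G.ds := by
      rcases hd with hd | hd
      · exact (h.rw.sub d hd).1
      · rw [hd]
        exact h.ale_ds
    exact hno1 d ((G.mem_bd).2 ⟨h2, hp, h1⟩) (z_K hd)
  -- a dart of the route starts in `Z`
  have hA : ∃ d ∈ A, G.pi d ∈ Z := by
    obtain ⟨v, hvZ, hvt⟩ := hv
    rcases h.tch_cases hvt with ⟨d, h1 | h1, h2⟩ | ⟨-, d, h1, h2⟩
    · exact ⟨d, h1, by rw [h2]; exact hvZ⟩
    · refine ⟨e, h.rw.mem, ?_⟩
      have h3 := hin d (Or.inr h1) (by rw [h2]; exact hvZ)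
      rwa [h1, G.al_al e h.me] at h3
    · exact ⟨d, h1, cir_sub hZ hvZ h2⟩
  -- all darts of the route start in `Z`
  have hall : ∀ d ∈ A, G.pi d ∈ Z := by
    by_contra hc
    push Not at hc
    obtain ⟨d1, k1, k2⟩ := hc
    obtain ⟨d2, k3, k4⟩ := hA
    have hs : CSat (G.nc K F) (Z \ L) := csat_sdiff h.part hZ.sub (nc_of_adm hZ) h.satL
    obtain ⟨d, m1, m2, m3, m4⟩ := h.rw.con (Z \ L) (sdiff_subset_sdiff hZ.sub (Subset.refl _)) hs
      ⟨d2, k3, mem_sdiff.2 ⟨k4, h.A_nL k3⟩⟩ ⟨d1, k1, fun k => k2 (mem_sdiff.1 k).1⟩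
    have m5 := hin d (Or.inl m1) (mem_sdiff.1 m3).1
    have m6 := h.A_nL (h.rw.clo d m1 m2).2.1
    exact m4 (mem_sdiff.2 ⟨m5, m6⟩)
  apply hno2
  intro v hv
  rcases h.tch_cases hv with ⟨d, h1 | h1, h2⟩ | ⟨hK, d, h1, h2⟩
  · rw [← h2]
    exact hall d h1
  · have h3 := hin e (Or.inl h.rw.mem) (hall e h.rw.mem)
    rw [← h2, h1]
    exact h3
  · have hvv := (mem_ztch.1 hv).1
    have h3 := cir_sub hZ (hall d h1)
    rw [cir_eq h.cls (h.full.nabs hvv hK) h2] at h3
    exact h3 (self_mem_cir hvv)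

end Sd

end JP.CG
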