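import Pool.Agent.Lib.JL.Defs
import Pool.Agent.Lib.JL.Stage

/-! Finishing a stage (MP_c95763_co): the instance with the new weights. -/

set_option autoImplicit false

namespace JP.CG

open Finset Classical

variable {V D : Type*} {G : CG V D} {K : Finset V} {F : Finset D} {W : Finset (Finset V)}

namespace ZD

variable {z : D → ℕ} {t : V → ℕ} {al' ρ : D → D} (h : G.ZD z t al' ρ)
include h

/-- the new instance -/
theorem instW (hI : G.InstW K F W) (hw : G.ZW z t) (hb : G.ZB z t)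
    (h4 : ∑ d ∈ G.tk G.vs, z d + ∑ v ∈ G.vs, t v ≤ 4) {W' : Finset (Finset V)}
    (hW' : ∀ L, L ∈ W' ↔ L ∈ W ∧ ∀ v ∈ L, v ∉ G.ztch z)
    (hn : (h.gr.tk h.gr.vs).card + 2 * W'.card ≤ 4 ∧ W'.card ≤ 1) :
    h.gr.InstW (K ∪ G.ztch z) (F.filter fun d => z d ≠ 0) W' := by
  have e1 : W' = W.filter fun L => h.gr.Adm (K ∪ G.ztch z) (F.filter fun d => z d ≠ 0) L := by
    ext L
    rw [hW', mem_filter, h.adm_iff hI.cls hw]
    constructor
    · rintro ⟨a, b⟩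
      exact ⟨a, (hI.smw.atm L a).adm, b⟩
    · rintro ⟨a, -, b⟩
      exact ⟨a, b⟩
  refine ⟨⟨hI.even, ?_, ?_, h.cls hI.cls hw, ?_⟩, Or.inl hn, ?_⟩
  · rw [h.card_tk]
    exact h4
  · intro X hX ho
    rw [h.dg_gr hX]
    exact hb X hX ho
  · intro Z hZ ho
    obtain ⟨h1, h2⟩ := (h.adm_iff hI.cls hw).1 hZ
    rw [h.bd_untouched hw h2]
    exact hI.cc Z h1 ho
  · rw [e1]
    exact hI.smw.of_adm (fun Z hZ => ((h.adm_iff hI.cls hw).1 hZ).1) fun Z hZ Z' hs hZ' =>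
      (h.adm_iff hI.cls hw).2 ⟨hZ', fun v hv => ((h.adm_iff hI.cls hw).1 hZ).2 v (hs hv)⟩

/-- untouched sets are hit -/
theorem hit_un (hc : G.Cls K F) (hw : G.ZW z t) {M : Finset D}
    (hM : h.gr.Good (K ∪ G.ztch z) (F.filter fun d => z d ≠ 0) M) {Z : Finset V}
    (hZ : G.Adm K F Z) (ht : ∀ v ∈ Z, v ∉ G.ztch z) (ho : Odd Z.card) :
    ∃ d ∈ G.bd Z, d ∉ M.image ρ := by
  obtain ⟨d, h1, h2⟩ := hM.hit Z ((h.adm_iff hc hw).2 ⟨hZ, ht⟩) ho
  rw [h.bd_untouched hw ht] at h1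
  refine ⟨d, h1, fun h3 => ?_⟩
  obtain ⟨e, he, hed⟩ := mem_image.1 h3
  obtain ⟨k1, k2, -⟩ := (mem_bd _).1 h1
  have h5 := h.pair e (hM.pm.sub he) (hM.pm.notok e he)
  have h6 : G.pi e = G.pi d := by rw [← h5.2.2.1, hed]
  have h8 : G.pi e ∉ G.ztch z := by
    rw [h6]
    exact ht _ k2
  have h7 := (h.at_untouched hw (hM.pm.sub he) h8).2.1
  rw [hed] at h7
  exact h2 (h7 ▸ he)

end ZD

/-- no absorbed vertices: the complement of a union of fresh circuits -/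
lemma adm_complW (hc : G.Cls ∅ F) {Z : Finset V} (hZ : G.Adm ∅ F Z) :
    G.Adm ∅ F (G.vs \ Z) := by
  refine ⟨sdiff_subset, fun v _ => notMem_empty v, fun d hd hp => ?_⟩
  rw [mem_sdiff] at hp ⊢
  have hds := hc.Fsub hd
  refine ⟨G.pi_mem _ (G.al_mem d hds), fun k => hp.2 ?_⟩
  have h1 := hZ.clo _ (hc.Fal d hd) k
  rwa [G.al_al d hds] at h1

/-- a hit of the complement is a hit -/
lemma hit_complW {M : Finset D} (hM : G.IsPM M) {Z : Finset V} (hZ : Z ⊆ G.vs)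
    (h : ∃ d ∈ G.bd (G.vs \ Z), d ∉ M) : ∃ d ∈ G.bd Z, d ∉ M := by
  obtain ⟨d, h1, h2⟩ := h
  obtain ⟨k1, k2, k3⟩ := (G.mem_bd).1 h1
  refine ⟨G.al d, (G.mem_bd).2 ⟨G.al_mem d k1, ?_, ?_⟩, fun k => h2 ?_⟩
  · by_contra h3
    exact k3 (mem_sdiff.2 ⟨G.pi_mem _ (G.al_mem d k1), h3⟩)
  · rw [G.al_al d k1]
    exact (mem_sdiff.1 k2).2
  · have h3 := hM.closed _ k
    rwa [G.al_al d k1] at h3

lemma odd_complW (he : Even G.vs.card) {Z : Finset V} (hZ : Z ⊆ G.vs) (ho : Odd Z.card) :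
    Odd (G.vs \ Z).card := by
  have h3 : (G.vs \ Z).card + Z.card = G.vs.card := card_sdiff_add_card_eq_card hZ
  rw [← h3, Nat.even_add'] at he
  exact he.2 ho

/-- if nothing is absorbed then a vertex may be absorbed -/
theorem good_of_ins (he : Even G.vs.card) (hc : G.Cls ∅ F) {v : V} {M : Finset D}
    (hM : G.Good {v} F M) : G.Good ∅ F M := by
  refine ⟨hM.pm, fun Z hZ ho => ?_⟩
  by_cases hv : v ∈ Z
  · refine hit_complW hM.pm hZ.sub (hM.hit _ ?_ (odd_complW he hZ.sub ho))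
    have h1 := adm_complW hc hZ
    refine ⟨h1.sub, fun w hw k => ?_, h1.clo⟩
    rw [mem_singleton] at k
    rw [k] at hw
    exact (mem_sdiff.1 hw).2 hv
  · refine hM.hit Z ⟨hZ.sub, fun w hw k => ?_, hZ.clo⟩ ho
    rw [mem_singleton] at k
    exact hv (k ▸ hw)

/-- the new matching is good -/
theorem ZD.goodW {z : D → ℕ} {t : V → ℕ} {al' ρ : D → D} (h : G.ZD z t al' ρ)
    (he : Even G.vs.card) (hc : G.Cls K F) (hw : G.ZW z t)
    (hj : ∀ Z, G.Adm K F Z → (∃ v ∈ Z, v ∈ G.ztch z) → (∃ d ∈ G.bd Z, z d = 0) ∨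
      (K = ∅ ∧ G.ztch z ⊆ Z)) {M : Finset D}
    (hM : h.gr.Good (K ∪ G.ztch z) (F.filter fun d => z d ≠ 0) M) :
    G.Good K F (M.image ρ) := by
  have hpm := h.lift_pm hM.pm
  refine ⟨hpm, fun Z hZ ho => ?_⟩
  by_cases ht : ∃ v ∈ Z, v ∈ G.ztch z
  · rcases hj Z hZ ht with ⟨d, h1, h2⟩ | ⟨h1, h2⟩
    · exact ⟨d, h1, h.lift_not hM.pm ((mem_bd _).1 h1).1 h2⟩
    · refine hit_complW hpm hZ.sub (h.hit_un hc hw hM ?_ ?_ (odd_complW he hZ.sub ho))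
      · subst h1
        exact adm_complW hc hZ
      · intro v hv k
        exact (mem_sdiff.1 hv).2 (h2 k)
  · push Not at ht
    exact h.hit_un hc hw hM hZ ht ho

end JP.CG
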