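import Pool.Agent.Lib.P5.Mod
import Pool.Agent.Lib.JP.Facts

/-! Two tokens are joined to an edge (MP_c95763_co). -/

set_option autoImplicit false

namespace JP.CG

open Finset Classical

variable {V D : Type*}

/-- the two tokens of the graph -/
structure TT (G : CG V D) (σ1 σ2 : D) : Prop where
  ne : σ1 ≠ σ2
  m1 : σ1 ∈ G.ds
  m2 : σ2 ∈ G.ds
  t1 : G.al σ1 = σ1
  t2 : G.al σ2 = σ2
  all : ∀ d ∈ G.ds, G.al d = d → d = σ1 ∨ d = σ2

variable {G : CG V D} {σ1 σ2 : D}

/-- join the tokens -/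
noncomputable def TT.gr (h : G.TT σ1 σ2) : CG V D where
  vs := G.vs
  ds := G.ds
  pi := G.pi
  al := fun d => if d = σ1 then σ2 else if d = σ2 then σ1 else G.al d
  pi_mem := G.pi_mem
  al_mem := fun d hd => by
    split_ifs
    · exact h.m2
    · exact h.m1
    · exact G.al_mem d hd
  al_al := fun d hd => by
    by_cases h1 : d = σ1
    · simp [h1, h.ne.symm]
    · by_cases h2 : d = σ2
      · simp [h2, h.ne.symm]
      · have h3 : G.al d ≠ σ1 := fun e => h1 (by rw [← G.al_al d hd, e, h.t1])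
        have h4 : G.al d ≠ σ2 := fun e => h2 (by rw [← G.al_al d hd, e, h.t2])
        simp [h1, h2, h3, h4, G.al_al d hd]
  cubic := G.cubic

namespace TT

variable (h : G.TT σ1 σ2)

@[simp] lemma gr_vs : h.gr.vs = G.vs := rfl
@[simp] lemma gr_ds : h.gr.ds = G.ds := rfl
@[simp] lemma gr_pi : h.gr.pi = G.pi := rfl

lemma al1 : h.gr.al σ1 = σ2 := by
  show (if σ1 = σ1 then σ2 else _) = σ2
  rw [if_pos rfl]

lemma al2 : h.gr.al σ2 = σ1 := by
  show (if σ2 = σ1 then σ2 else if σ2 = σ2 then σ1 else _) = σ1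
  rw [if_neg h.ne.symm, if_pos rfl]

lemma al_of {d : D} (h1 : d ≠ σ1) (h2 : d ≠ σ2) : h.gr.al d = G.al d := by
  show (if d = σ1 then σ2 else if d = σ2 then σ1 else G.al d) = G.al d
  rw [if_neg h1, if_neg h2]

/-- no tokens -/
lemma notok {d : D} (hd : d ∈ G.ds) : h.gr.al d ≠ d := by
  by_cases h1 : d = σ1
  · rw [h1, h.al1]
    exact h.ne.symm
  · by_cases h2 : d = σ2
    · rw [h2, h.al2]
      exact h.ne
    · rw [h.al_of h1 h2]
      intro e
      rcases h.all d hd e with h3 | h3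
      · exact h1 h3
      · exact h2 h3

include h in
/-- tokens in a set -/
lemma tk_card (X : Finset V) : (G.tk X).card = (if G.pi σ1 ∈ X then 1 else 0) +
    if G.pi σ2 ∈ X then 1 else 0 := by
  have h1 : G.tk X = ({σ1} : Finset D).filter (fun d => G.pi d ∈ X) ∪
      ({σ2} : Finset D).filter fun d => G.pi d ∈ X := by
    ext d
    rw [mem_tk, mem_union, mem_filter, mem_filter, mem_singleton, mem_singleton]
    constructor
    · rintro ⟨a, b, c⟩
      rcases h.all d a c with e | e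
      · exact Or.inl ⟨e, b⟩
      · exact Or.inr ⟨e, b⟩
    · rintro (⟨rfl, b⟩ | ⟨rfl, b⟩)
      · exact ⟨h.m1, b, h.t1⟩
      · exact ⟨h.m2, b, h.t2⟩
  have h2 : Disjoint (({σ1} : Finset D).filter (fun d => G.pi d ∈ X))
      (({σ2} : Finset D).filter fun d => G.pi d ∈ X) := by
    refine (disjoint_filter_filter ?_)
    rw [disjoint_singleton]
    exact h.ne
  rw [h1, card_union_of_disjoint h2, filter_singleton, filter_singleton]
  split_ifs <;> simp

/-- the new edge is in the boundary -/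
noncomputable def sg (G : CG V D) (σ1 σ2 : D) (X : Finset V) : ℕ :=
  if (G.pi σ1 ∈ X ↔ G.pi σ2 ∈ X) then 0 else 1

include h in
lemma sg_le (X : Finset V) : sg G σ1 σ2 X ≤ (G.tk X).card := by
  rw [h.tk_card]
  unfold sg
  by_cases h1 : G.pi σ1 ∈ X <;> by_cases h2 : G.pi σ2 ∈ X <;> simp [h1, h2]

include h in
lemma sg_le' {X : Finset V} : sg G σ1 σ2 X ≤ (G.tk (G.vs \ X)).card := by
  have a1 := G.pi_mem _ h.m1
  have a2 := G.pi_mem _ h.m2
  rw [h.tk_card]
  unfold sg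
  by_cases h1 : G.pi σ1 ∈ X <;> by_cases h2 : G.pi σ2 ∈ X <;> simp [h1, h2, a1, a2]

/-- the star in the new graph -/
lemma sb_gr (A : Finset D) (X : Finset V) : (h.gr.sb X \ A).card ≤ (G.bd X \ A).card +
    sg G σ1 σ2 X := by
  have h1 : h.gr.sb X \ A ⊆ (G.bd X \ A) ∪ (({σ1} : Finset D).filter fun _ =>
      G.pi σ1 ∈ X ∧ G.pi σ2 ∉ X) ∪ (({σ2} : Finset D).filter fun _ =>
      G.pi σ2 ∈ X ∧ G.pi σ1 ∉ X) := by
    intro d hd
    obtain ⟨h1, h2⟩ := mem_sdiff.1 hd
    obtain ⟨h3, h4, h5⟩ := mem_sb.1 h1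
    rcases h5 with h5 | h5
    · exact absurd h5 (h.notok h3)
    · rw [mem_union, mem_union]
      by_cases e1 : d = σ1
      · left
        right
        rw [e1, h.al1] at h5
        rw [mem_filter, mem_singleton]
        exact ⟨e1, e1 ▸ h4, h5⟩
      · by_cases e2 : d = σ2
        · right
          rw [e2, h.al2] at h5
          rw [mem_filter, mem_singleton]
          exact ⟨e2, e2 ▸ h4, h5⟩
        · left
          left
          rw [h.al_of e1 e2] at h5
          exact mem_sdiff.2 ⟨(G.mem_bd).2 ⟨h3, h4, h5⟩, h2⟩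
  refine (card_le_card h1).trans ((card_union_le _ _).trans ?_)
  refine (Nat.add_le_add_right (card_union_le _ _) _).trans ?_
  have h2 : (({σ1} : Finset D).filter fun _ => G.pi σ1 ∈ X ∧ G.pi σ2 ∉ X).card +
      (({σ2} : Finset D).filter fun _ => G.pi σ2 ∈ X ∧ G.pi σ1 ∉ X).card ≤ sg G σ1 σ2 X := by
    rw [filter_singleton, filter_singleton]
    unfold sg
    by_cases h1 : G.pi σ1 ∈ X <;> by_cases h2 : G.pi σ2 ∈ X <;> simp [h1, h2]
  omega

/-- the degree in the new graph -/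
lemma dg_gr {X : Finset V} : h.gr.dg X = (G.bd X).card + sg G σ1 σ2 X := by
  have h1 : h.gr.sb X = (G.bd X) ∪ ((({σ1} : Finset D).filter fun _ =>
      G.pi σ1 ∈ X ∧ G.pi σ2 ∉ X) ∪ (({σ2} : Finset D).filter fun _ =>
      G.pi σ2 ∈ X ∧ G.pi σ1 ∉ X)) := by
    ext d
    rw [mem_sb, mem_union, mem_union, mem_filter, mem_filter, mem_singleton, mem_singleton, G.mem_bd]
    constructor
    · rintro ⟨h3, h4, h5⟩
      rcases h5 with h5 | h5
      · exact absurd h5 (h.notok h3)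
      · by_cases e1 : d = σ1
        · rw [e1, h.al1] at h5
          exact Or.inr (Or.inl ⟨e1, e1 ▸ h4, h5⟩)
        · by_cases e2 : d = σ2
          · rw [e2, h.al2] at h5
            exact Or.inr (Or.inr ⟨e2, e2 ▸ h4, h5⟩)
          · rw [h.al_of e1 e2] at h5
            exact Or.inl ⟨h3, h4, h5⟩
    · rintro (⟨h3, h4, h5⟩ | ⟨e1, h4, h5⟩ | ⟨e2, h4, h5⟩)
      · have e1 : d ≠ σ1 := fun e => h5 (by rw [e, h.t1, ← e]; exact h4)
        have e2 : d ≠ σ2 := fun e => h5 (by rw [e, h.t2, ← e]; exact h4)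
        rw [h.al_of e1 e2]
        exact ⟨h3, h4, Or.inr h5⟩
      · rw [e1, h.al1]
        exact ⟨h.m1, h4, Or.inr h5⟩
      · rw [e2, h.al2]
        exact ⟨h.m2, h4, Or.inr h5⟩
  have h2 : Disjoint (G.bd X) ((({σ1} : Finset D).filter fun _ =>
      G.pi σ1 ∈ X ∧ G.pi σ2 ∉ X) ∪ (({σ2} : Finset D).filter fun _ =>
      G.pi σ2 ∈ X ∧ G.pi σ1 ∉ X)) := by
    rw [disjoint_left]
    intro d hd
    rw [G.mem_bd] at hd
    rw [mem_union, mem_filter, mem_filter, mem_singleton, mem_singleton]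
    rintro (⟨e, -⟩ | ⟨e, -⟩)
    · exact hd.2.2 (by rw [e, h.t1, ← e]; exact hd.2.1)
    · exact hd.2.2 (by rw [e, h.t2, ← e]; exact hd.2.1)
  have h3 : Disjoint (({σ1} : Finset D).filter fun _ =>
      G.pi σ1 ∈ X ∧ G.pi σ2 ∉ X) (({σ2} : Finset D).filter fun _ =>
      G.pi σ2 ∈ X ∧ G.pi σ1 ∉ X) := by
    refine disjoint_filter_filter ?_
    rw [disjoint_singleton]
    exact h.ne
  rw [dg_sb, h1, card_union_of_disjoint h2, card_union_of_disjoint h3, filter_singleton,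
    filter_singleton]
  unfold sg
  by_cases h1 : G.pi σ1 ∈ X <;> by_cases h2 : G.pi σ2 ∈ X <;> simp [h1, h2]

/-- bridgelessness of the new graph -/
lemma b0 (hb : G.B0) (he : Even G.vs.card) : h.gr.B0 := by
  intro X hX ho
  have hX' : X ⊆ G.vs := hX
  have h1 := hb X hX' ho
  have h2 : Odd (G.vs \ X).card := by
    have h3 : (G.vs \ X).card + X.card = G.vs.card := card_sdiff_add_card_eq_card hX'
    rw [← h3, Nat.even_add'] at he
    exact he.2 ho
  have h3 := hb _ sdiff_subset h2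
  unfold dg at h1 h3
  rw [G.bd_compl hX'] at h3
  have a1 := G.pi_mem _ h.m1
  have a2 := G.pi_mem _ h.m2
  rw [h.dg_gr]
  rw [h.tk_card] at h1 h3
  unfold sg
  by_cases c1 : G.pi σ1 ∈ X <;> by_cases c2 : G.pi σ2 ∈ X <;> simp [c1, c2, a1, a2] at h1 h3 ⊢ <;>
    omega

end TT

end JP.CG
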