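import Pool.Agent.Lib.JL.F4W
import Pool.Agent.Lib.JL.Fin

/-! The main theorem for graphs with up to three long circuits (MP_c95763_co). -/

set_option autoImplicit false

namespace JP.CG

open Finset Classical

section

variable {V D : Type*} {G : CG V D} {K : Finset V} {F : Finset D} {W : Finset (Finset V)}

/-- if nothing is absorbed by definition then nothing is absorbed -/
lemma fullK_empty (hc : G.Cls ∅ F) : G.fullK ∅ F = ∅ := by
  rw [eq_empty_iff_forall_notMem]
  intro v hv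
  obtain ⟨h1, h2⟩ := mem_fullK.1 hv
  exact h2 G.vs ⟨Subset.refl _, fun w _ => notMem_empty w, fun d hd _ =>
    G.pi_mem _ (hc.Fsub (hc.Fal d hd))⟩ h1

lemma InstW.full (hI : G.InstW K F W) : G.InstW (G.fullK K F) (G.fullF K F) W := by
  refine ⟨⟨hI.even, hI.four, hI.b0, hI.cls.full, fun Z hZ ho => hI.cc Z (adm_full.1 hZ) ho⟩, ?_,
    ⟨fun L hL => ⟨adm_full.2 (hI.smw.atm L hL).adm, (hI.smw.atm L hL).ne,
      fun Z hZ => (hI.smw.atm L hL).min Z (adm_full.1 hZ)⟩, hI.smw.big, ?_⟩⟩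
  · rcases hI.num with h | ⟨h1, h2⟩
    · exact Or.inl h
    · refine Or.inr ⟨?_, h2⟩
      subst h1
      exact fullK_empty hI.cls
  · intro Z hZ v hv
    rcases hI.smw.sm Z (adm_full.1 hZ) v hv with h | ⟨Z', a, b, c⟩
    · exact Or.inl h
    · exact Or.inr ⟨Z', a, adm_full.2 b, c⟩

theorem MCW.full (h : G.MCW K F W) : G.MCW (G.fullK K F) (G.fullF K F) W :=
  ⟨h.inst.full, h.ih, h.ihw, fun ⟨M, hM⟩ => h.no ⟨M, (good_congr fun _ => adm_full.symm).2 hM⟩⟩

/-- two long circuits with a common vertex are equal -/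
lemma SmW.eq (h : G.SmW K F W) {L L' : Finset V} (hL : L ∈ W) (hL' : L' ∈ W) {v : V} (hv : v ∈ L)
    (hv' : v ∈ L') : L = L' :=
  Subset.antisymm ((h.atm L hL).min L' (h.atm L' hL').adm ⟨v, mem_inter.2 ⟨hv', hv⟩⟩)
    ((h.atm L' hL').min L (h.atm L hL).adm ⟨v, mem_inter.2 ⟨hv, hv'⟩⟩)

/-- the circuit of a vertex of a long circuit -/
lemma SmW.cir (h : G.SmW K F W) {L : Finset V} (hL : L ∈ W) {v : V} (hv : v ∈ L) :
    G.cir K F v = L := by
  have hA := (h.atm L hL).adm
  have hvv := hA.sub hv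
  have hab : ¬ G.Abs K F v := fun k => k L hA hv
  exact Subset.antisymm (cir_sub hA hv)
    ((h.atm L hL).min _ (adm_cir hab) ⟨v, mem_inter.2 ⟨self_mem_cir hvv, hv⟩⟩)

end

section

variable {V D : Type} {G : CG V D} {K : Finset V} {F : Finset D} {W : Finset (Finset V)}

/-- the fresh circuits of a minimal counterexample, except the long ones, are pentagons -/
theorem MCW.pen (h : G.MCW K F W) (hf : G.Full K F) :
    ∀ v ∈ G.vs, v ∉ K → (∀ L ∈ W, v ∉ L) → ∃ p f l, G.Pen K F p f l ∧ p 0 = v := by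
  intro v hv hvK hvW
  have hc := h.inst.cls
  obtain ⟨Z, hZ, hvZ⟩ : ∃ Z, G.Adm K F Z ∧ v ∈ Z := by
    by_contra hno
    push Not at hno
    exact hvK (hf.abs v hv fun Z hZ => hno Z hZ)
  obtain ⟨L, hL, hvL⟩ | ⟨P, -, hP, hvP, h5, -⟩ := h.pent hZ hvZ
  · exact absurd hvL (hvW L hL)
  obtain ⟨lg, hlg⟩ := h.pent_lg hP h5
  have h2 := hc.F2 v hv hvK
  obtain ⟨a, ha⟩ : (F.filter fun d => G.pi d = v).Nonempty := card_pos.1 (by omega)
  rw [mem_filter] at ha
  have hmin : ∀ Y, G.Adm K F Y → Y ⊆ P → Y.Nonempty → Y = P := by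
    intro Y hY hs hne
    refine eq_of_subset_of_card_le hs ?_
    by_contra hlt
    exact hne.ne_empty (h.no_small hY (by omega))
  obtain ⟨r, hr, hr0⟩ : ∃ r : ZMod 5 → D, Cy G F P 5 r ∧ r 0 = a := by
    have h3 := exists_cy hc hP hmin ha.1 (by rw [ha.2]; exact hvP)
    rw [h5] at h3
    exact h3
  refine ⟨fun i => G.pi (r i), r, fun i => lg (G.pi (r i)), ⟨fun i j e => hr.inj i j e,
    fun i => hP.dis _ (hr.memC i), hr.memF, fun _ => rfl, hr.nxt, fun i => hlg.mem _ (hr.memC i),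
    ?_, fun i => hlg.pi _ (hr.memC i), ?_, ?_⟩, ?_⟩
  · intro i hF
    refine hlg.out _ (hr.memC i) (hP.clo _ hF ?_)
    rw [hlg.pi _ (hr.memC i)]
    exact hr.memC i
  · intro i j e
    exact hlg.out _ (hr.memC i) (e ▸ hr.memC j)
  · intro i d hd hp
    by_cases hdF : d ∈ F
    · have h3 : d ∈ F.filter fun d => G.pi d = G.pi (r i) := mem_filter.2 ⟨hdF, hp⟩
      rw [hr.fdarts hc hP, mem_insert, mem_singleton] at h3
      rcases h3 with h3 | h3
      · exact Or.inl h3
      · exact Or.inr (Or.inl h3)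
    · right
      right
      refine leg_unique hc (hP.sub (hr.memC i)) (hP.dis _ (hr.memC i)) hd
        (hlg.mem _ (hr.memC i)) hdF ?_ hp (hlg.pi _ (hr.memC i))
      intro hF
      refine hlg.out _ (hr.memC i) (hP.clo _ hF ?_)
      rw [hlg.pi _ (hr.memC i)]
      exact hr.memC i
  · change G.pi (r 0) = v
    rw [hr0]
    exact ha.2

/-- a stage from the long circuit `L` to the targets `T` -/
theorem MCW.sg (h : G.MCW K F W) (hf : G.Full K F) {L T : Finset V} (hL : L ∈ W) (hK : K ⊆ T)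
    (hT : ∀ L' ∈ W, L' ≠ L → L' ⊆ T) (hT' : ∀ v ∈ T, v ∈ K ∨ ∃ L' ∈ W, L' ≠ L ∧ v ∈ L')
    (hn : T.Nonempty) (h2 : (G.tk G.vs).card ≤ 2) : G.Sg K F L T := by
  have hI := h.inst
  have hs := hI.smw
  have hA := (hs.atm L hL).adm
  refine ⟨hI.even, hI.b0, hI.cls, hI.cc, hf, fun X hX he hne hne' =>
    card_pos.1 (lt_of_lt_of_le two_pos (h.two_le_bd hX he hne hne')), hA, (hs.atm L hL).ne,
    fun v hv => hs.cir hL hv, hK, ?_, hn, ?_, ?_, ?_, ?_⟩
  · intro v hv
    rcases hT' v hv with h1 | ⟨L', h1, -, h3⟩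
    · exact hI.cls.Ksub h1
    · exact (hs.atm L' h1).adm.sub h3
  · rw [disjoint_left]
    intro v hv hvL
    rcases hT' v hv with h1 | ⟨L', h1, h3, h4⟩
    · exact hA.dis v hvL h1
    · exact h3 (hs.eq h1 hL h4 hvL)
  · intro v hv hvK
    rcases hT' v hv with h1 | ⟨L', h1, h3, h4⟩
    · exact absurd h1 hvK
    · rw [hs.cir h1 h4]
      exact hT L' h1 h3
  · intro v hv hvT hvL
    refine h.pen hf v hv (fun k => hvT (hK k)) fun L' hL' k => ?_
    by_cases h1 : L' = L
    · exact hvL (h1 ▸ k)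
    · exact hvT (hT L' hL' h1 k)
  · have h0 : G.bd G.vs = ∅ := by
      rw [eq_empty_iff_forall_notMem]
      intro d hd
      obtain ⟨k1, -, k2⟩ := (G.mem_bd).1 hd
      exact k2 (G.pi_mem _ (G.al_mem d k1))
    have hpar : Even (G.tk G.vs).card := by
      by_contra ho
      rw [Nat.not_even_iff_odd] at ho
      have h3 := G.dg_parity (Subset.refl G.vs)
      unfold dg at h3
      rw [h0, card_empty, zero_add] at h3
      exact (Nat.not_odd_iff_even.2 hI.even) (h3.1 ho)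
    rcases (G.tk G.vs).eq_empty_or_nonempty with h1 | h1
    · exact Or.inl h1
    · right
      have h3 : (G.tk G.vs).card = 2 := by
        have h4 := card_pos.2 h1
        obtain ⟨k, hk⟩ := hpar
        omega
      obtain ⟨σ1, σ2, h4, h5⟩ := card_eq_two.1 h3
      have m1 : σ1 ∈ G.tk G.vs := by rw [h5]; exact mem_insert_self _ _
      have m2 : σ2 ∈ G.tk G.vs := by rw [h5]; exact mem_insert_of_mem (mem_singleton_self _)
      refine ⟨σ1, σ2, h4, ((G.mem_tk).1 m1).1, ((G.mem_tk).1 m2).1, ((G.mem_tk).1 m1).2.2,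
        ((G.mem_tk).1 m2).2.2, ?_⟩
      intro d hd ht
      have h6 : d ∈ G.tk G.vs := (G.mem_tk).2 ⟨hd, G.pi_mem d hd, ht⟩
      rw [h5, mem_insert, mem_singleton] at h6
      exact h6

/-- the end of a stage -/
theorem MCW.fin (h : G.MCW K F W) {L T : Finset V} (hL : L ∈ W) (hS : G.Sg K F L T)
    (hcase : (T = K ∧ W = {L} ∧ (G.tk G.vs).card ≤ 2) ∨ (K = ∅ ∧ W.card ≤ 3 ∧
      G.tk G.vs = ∅ ∧ ∀ v ∈ T, ∃ L' ∈ W, L' ≠ L ∧ v ∈ L')) : False := by
  obtain ⟨e, A, u, g, s, hd⟩ := hS.exists_sd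
  have hI := h.inst
  set z := G.zz F A e g with hz
  set t := G.tt e u with ht
  have hw : G.ZW z t := hd.zw
  have hb : G.ZB z t := hd.zb
  have htok : ∑ d ∈ G.tk G.vs, z d + ∑ v ∈ G.vs, t v ≤ (G.tk G.vs).card + 2 := hd.tok_le
  have hu : u ∈ G.ztch z := hd.tch_u
  obtain ⟨x, hxL, hx⟩ : ∃ v ∈ L, v ∈ G.ztch z := hd.tch_L
  obtain ⟨al', ρ, hzd⟩ := hw.exists_zd
  set W' := W.filter fun L' => ∀ v ∈ L', v ∉ G.ztch z with hW'
  have mW' : ∀ L', L' ∈ W' ↔ L' ∈ W ∧ ∀ v ∈ L', v ∉ G.ztch z := fun L' => by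
    rw [hW', mem_filter]
  have hLW' : L ∉ W' := fun k => ((mW' L).1 k).2 x hxL hx
  have hsub : W' ⊆ W.erase L := fun L' k => mem_erase.2
    ⟨fun e => hLW' (e ▸ k), ((mW' L').1 k).1⟩
  have hcl : (W.erase L).card = W.card - 1 := card_erase_of_mem hL
  have hWp : 0 < W.card := card_pos.2 ⟨L, hL⟩
  have hlt : W'.card < W.card := by
    have := card_le_card hsub
    omega
  have hcnt : (hzd.gr.tk hzd.gr.vs).card ≤ (G.tk G.vs).card + 2 := by
    rw [hzd.card_tk]
    exact htok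
  have hn : (hzd.gr.tk hzd.gr.vs).card + 2 * W'.card ≤ 4 ∧ W'.card ≤ 1 := by
    rcases hcase with ⟨-, h1, h2⟩ | ⟨-, h1, h2, h3⟩
    · have h4 : W'.card = 0 := by
        rw [h1, card_singleton] at hlt
        omega
      omega
    · obtain ⟨L', k1, k2, k3⟩ := h3 u hd.uT
      have h4 : W' ⊆ (W.erase L).erase L' := fun L'' k => mem_erase.2
        ⟨fun e => ((mW' L'').1 k).2 u (e ▸ k3) hu, hsub k⟩
      have h5 := card_le_card h4
      have h6 : ((W.erase L).erase L').card = (W.erase L).card - 1 :=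
        card_erase_of_mem (mem_erase.2 ⟨k2, k1⟩)
      have h7 : (G.tk G.vs).card = 0 := by rw [h2, card_empty]
      omega
  have h4 : ∑ d ∈ G.tk G.vs, z d + ∑ v ∈ G.vs, t v ≤ 4 := by
    rw [← hzd.card_tk]
    omega
  have hI' := hzd.instW hI hw hb h4 mW' hn
  obtain ⟨M, hM⟩ := h.ihw _ _ _ _ (by rw [hzd.gr_vs]) hlt hI'
  refine h.no ⟨M.image ρ, hzd.goodW hI.even hI.cls hw ?_ hM⟩
  intro Z hZ hv
  rcases hd.joined hZ hv with h1 | h1
  · exact Or.inl h1
  · rcases hcase with ⟨k1, -, -⟩ | ⟨k1, -⟩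
    · exact absurd (k1 ▸ hd.uT) (hZ.dis u (h1 hu))
    · exact Or.inr ⟨k1, h1⟩

/-- there is no minimal counterexample -/
theorem MCW.false (h : G.MCW K F W) : False := by
  rcases W.eq_empty_or_nonempty with h1 | h1
  · subst h1
    exact h.no (P5main V D G K F h.inst.toInst)
  by_cases h2 : K = ∅ ∧ W.card ≤ 2
  · obtain ⟨hK, h2⟩ := h2
    subst hK
    obtain ⟨L, hL⟩ := h1
    have hI := h.inst
    have hc := hI.cls
    obtain ⟨v, hv⟩ := (hI.smw.atm L hL).ne
    have hvv := (hI.smw.atm L hL).adm.sub hv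
    have hA : ∀ Z, G.Adm {v} F Z → G.Adm ∅ F Z := fun Z hZ =>
      ⟨hZ.sub, fun w _ => notMem_empty w, hZ.clo⟩
    have htk : G.tk G.vs = ∅ := by
      rw [eq_empty_iff_forall_notMem]
      intro d hd
      obtain ⟨k1, -, k3⟩ := (G.mem_tk).1 hd
      exact notMem_empty _ (hc.tokK d k1 k3)
    have hsub : (W.filter fun L => G.Adm {v} F L) ⊆ W.erase L := by
      intro L' hL'
      obtain ⟨k1, k2⟩ := mem_filter.1 hL'
      refine mem_erase.2 ⟨?_, k1⟩
      rintro rfl
      exact k2.dis v hv (mem_singleton_self v)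
    have hcl : (W.erase L).card = W.card - 1 := card_erase_of_mem hL
    have hWp : 0 < W.card := card_pos.2 ⟨L, hL⟩
    have hle := card_le_card hsub
    have h0 : (G.tk G.vs).card = 0 := by rw [htk, card_empty]
    have hI' : G.InstW {v} F (W.filter fun L => G.Adm {v} F L) := by
      refine ⟨⟨hI.even, hI.four, hI.b0, ⟨singleton_subset_iff.2 hvv, hc.Fsub, hc.Fal, hc.Ftok,
        fun w hw _ => hc.F2 w hw (notMem_empty w), fun d hd ht =>
          absurd (hc.tokK d hd ht) (notMem_empty _)⟩, fun Z hZ ho => hI.cc Z (hA Z hZ) ho⟩,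
        Or.inl ⟨by omega, by omega⟩, hI.smw.of_adm hA fun Z hZ Z' hs hZ' =>
          ⟨hZ'.sub, fun w hw => hZ.dis w (hs hw), hZ'.clo⟩⟩
    obtain ⟨M, hM⟩ := h.ihw _ _ _ _ rfl (by omega) hI'
    exact h.no ⟨M, good_of_ins hI.even hc hM⟩
  · have hf : G.Full (G.fullK K F) (G.fullF K F) := full_full
    have hm := h.full
    obtain ⟨L, hL⟩ := h1
    rcases h.inst.num with ⟨n1, n2⟩ | ⟨n1, n2⟩
    · -- one long circuit, absorbed vertices
      have hKne : K.Nonempty := by
        rw [nonempty_iff_ne_empty]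
        exact fun k => h2 ⟨k, by omega⟩
      have hW1 : W.card = 1 := le_antisymm n2 (card_pos.2 ⟨L, hL⟩)
      have hW : W = {L} := by
        obtain ⟨L', hL'⟩ := card_eq_one.1 hW1
        rw [hL', mem_singleton] at hL
        rw [hL', hL]
      refine hm.fin hL (T := G.fullK K F) (hm.sg hf hL (Subset.refl _) ?_ (fun v hv => Or.inl hv)
        ?_ (by omega)) (Or.inl ⟨rfl, hW, by omega⟩)
      · intro L' hL' hne
        rw [hW, mem_singleton] at hL'
        exact absurd hL' hne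
      · obtain ⟨v, hv⟩ := hKne
        exact ⟨v, mem_fullK.2 ⟨h.inst.cls.Ksub hv, abs_of_mem hv⟩⟩
    · -- three long circuits
      have hK0 : G.fullK K F = ∅ := by
        have h3 := h.inst.cls
        rw [n1] at h3 ⊢
        exact fullK_empty h3
      have htk : G.tk G.vs = ∅ := by
        rw [eq_empty_iff_forall_notMem]
        intro d hd
        obtain ⟨k1, -, k3⟩ := (G.mem_tk).1 hd
        have h3 := h.inst.cls.tokK d k1 k3
        rw [n1] at h3
        exact notMem_empty _ h3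
      have h0 : (G.tk G.vs).card = 0 := by rw [htk, card_empty]
      have hW3 : 2 < W.card := by
        by_contra hh
        exact h2 ⟨n1, by omega⟩
      have mT : ∀ v, v ∈ (W.erase L).biUnion id ↔ ∃ L' ∈ W, L' ≠ L ∧ v ∈ L' := by
        intro v
        rw [mem_biUnion]
        constructor
        · rintro ⟨L', h3, h4⟩
          exact ⟨L', (mem_erase.1 h3).2, (mem_erase.1 h3).1, h4⟩
        · rintro ⟨L', h3, h4, h5⟩
          exact ⟨L', mem_erase.2 ⟨h4, h3⟩, h5⟩
      have hKT : G.fullK K F ⊆ (W.erase L).biUnion id := fun v hv => by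
        rw [hK0] at hv
        exact absurd hv (notMem_empty v)
      refine hm.fin hL (T := (W.erase L).biUnion id) (hm.sg hf hL hKT ?_
        (fun v hv => Or.inr ((mT v).1 hv)) ?_ (by omega))
        (Or.inr ⟨hK0, n2, htk, fun v hv => (mT v).1 hv⟩)
      · intro L' hL' hne v hv
        exact (mT v).2 ⟨L', hL', hne, hv⟩
      · have hcl : (W.erase L).card = W.card - 1 := card_erase_of_mem hL
        obtain ⟨L', hL'⟩ := card_pos.1 (by omega : 0 < (W.erase L).card)
        obtain ⟨v, hv⟩ := (hm.inst.smw.atm L' (mem_erase.1 hL').2).ne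
        exact ⟨v, (mT v).2 ⟨L', (mem_erase.1 hL').2, (mem_erase.1 hL').1, hv⟩⟩

end

/-- **the main theorem** -/
theorem mainW (V D : Type) (G : CG V D) (K : Finset V) (F : Finset D) (W : Finset (Finset V))
    (hI : G.InstW K F W) : ∃ M, G.Good K F M := by
  suffices h : ∀ n : ℕ, ∀ m : ℕ, ∀ (G : CG V D) (K : Finset V) (F : Finset D)
      (W : Finset (Finset V)), G.vs.card = n → W.card = m → G.InstW K F W → ∃ M, G.Good K F M from
    h _ _ G K F W rfl rfl hI
  intro n
  induction n using Nat.strong_induction_on with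
  | _ n ihn =>
    intro m
    induction m using Nat.strong_induction_on with
    | _ m ihm =>
      intro G K F W hn hm hI
      by_contra hno
      exact MCW.false ⟨hI, fun G' K' F' W' hlt hI' => ihn _ (hn ▸ hlt) _ G' K' F' W' rfl rfl hI',
        fun G' K' F' W' he hlt hI' => ihm _ (hm ▸ hlt) G' K' F' W' (he.trans hn) rfl hI', hno⟩

end JP.CG
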