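import Pool.Agent.Lib.P5.RouteQ
import Pool.Agent.Lib.P5.Basic
import Pool.Agent.Lib.JL.Cir
import Pool.Agent.Lib.JL.Jt

/-! A route from a long circuit (MP_c95763_co). -/

set_option autoImplicit false

namespace JP.CG

open Finset Classical

variable {V D : Type*}

/-- the hypotheses of a stage: `L` is a circuit (the root), `T` the set of the targets -/
structure Sg (G : CG V D) (K : Finset V) (F : Finset D) (L T : Finset V) : Prop where
  even : Even G.vs.card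
  b0 : G.B0
  cls : G.Cls K F
  cc : G.CC K F
  full : G.Full K F
  con : ∀ X ⊆ G.vs, Even X.card → X.Nonempty → X ≠ G.vs → (G.bd X).Nonempty
  adm : G.Adm K F L
  ne : L.Nonempty
  cir : ∀ v ∈ L, G.cir K F v = L
  KT : K ⊆ T
  Tv : T ⊆ G.vs
  Tn : T.Nonempty
  TL : Disjoint T L
  Tc : ∀ v ∈ T, v ∉ K → G.cir K F v ⊆ T
  pen : ∀ v ∈ G.vs, v ∉ T → v ∉ L → ∃ p f l, G.Pen K F p f l ∧ p 0 = v
  tok : G.tk G.vs = ∅ ∨ ∃ σ1 σ2, G.TT σ1 σ2

/-- a route in `R`, starting with the dart `e` and ending at the vertex `u` of `T` -/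
structure Rw (G : CG V D) (cl : V → Finset V) (R T : Finset V) (e : D) (A : Finset D) (u : V) :
    Prop where
  sub : ∀ d ∈ A, d ∈ G.ds ∧ G.pi d ∈ R
  mem : e ∈ A
  clo : ∀ d ∈ A, d ≠ e → G.al d ≠ d ∧ G.al d ∈ A ∧ G.al d ≠ e
  nl : ∀ d ∈ A, d ≠ e → G.pi (G.al d) ∉ cl (G.pi d)
  um : u ∈ R ∧ u ∈ T
  land : ∃ d ∈ A, G.pi d = u ∧ ∀ d' ∈ A, G.pi d' ∈ cl u → d' = d
  deg : ∀ v ∈ R, v ∉ cl u → (A.filter fun d => G.pi d ∈ cl v).card = 0 ∨
    (A.filter fun d => G.pi d ∈ cl v).card = 2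
  off : ∀ d ∈ A, G.pi d ∈ T → G.pi d ∈ cl u
  con : ∀ X ⊆ R, CSat cl X → (∃ d ∈ A, G.pi d ∈ X) → (∃ d ∈ A, G.pi d ∉ X) →
    ∃ d ∈ A, d ≠ e ∧ G.pi d ∈ X ∧ G.pi (G.al d) ∉ X

variable {G : CG V D} {K : Finset V} {F : Finset D} {L T : Finset V}

namespace Sg

/-- the root is saturated -/
lemma satL (h : G.Sg K F L T) : CSat (G.nc K F) L := nc_of_adm h.adm

lemma satR (h : G.Sg K F L T) : CSat (G.nc K F) (G.vs \ L) :=
  csat_sdiff (nc_part h.cls h.full) (Subset.refl _) (fun v =>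
    (nc_part h.cls h.full).sub v) h.satL

lemma satT (h : G.Sg K F L T) : CSat (G.nc K F) T := by
  intro v hv
  by_cases hK : v ∈ K
  · rw [nc_K hK]
    exact singleton_subset_iff.2 hv
  · rw [nc_f hK]
    exact h.Tc v hv hK

lemma TR (h : G.Sg K F L T) : T ⊆ G.vs \ L := fun v hv =>
  mem_sdiff.2 ⟨h.Tv hv, disjoint_left.1 h.TL hv⟩

/-- there is a start -/
theorem start (h : G.Sg K F L T) : ∃ e ∈ G.ds, G.pi e ∉ L ∧ G.pi (G.al e) ∈ L ∧
    ∀ X ⊆ G.vs \ L, CSat (G.nc K F) X → Disjoint X T → G.pi e ∈ X →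
      ∃ d ∈ G.bd X, G.pi (G.al d) ∈ G.vs \ L := by
  by_contra hno
  push Not at hno
  set P : Finset V → Prop := fun X => CSat (G.nc K F) X ∧ Disjoint X T ∧
    ∀ d ∈ G.bd X, G.pi (G.al d) ∉ G.vs \ L with hP
  set U : Finset V := ((G.vs \ L).powerset.filter P).biUnion id with hU
  have mU : ∀ v, v ∈ U ↔ ∃ X ⊆ G.vs \ L, P X ∧ v ∈ X := by
    intro v
    rw [hU, mem_biUnion]
    constructor
    · rintro ⟨X, hX, hv⟩
      rw [mem_filter, mem_powerset] at hX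
      exact ⟨X, hX.1, hX.2, hv⟩
    · rintro ⟨X, h1, h2, hv⟩
      exact ⟨X, mem_filter.2 ⟨mem_powerset.2 h1, h2⟩, hv⟩
  have hUR : U ⊆ G.vs \ L := by
    intro v hv
    obtain ⟨X, h1, -, h2⟩ := (mU v).1 hv
    exact h1 h2
  have hUs : CSat (G.nc K F) U := by
    intro v hv w hw
    obtain ⟨X, h1, h2, h3⟩ := (mU v).1 hv
    exact (mU w).2 ⟨X, h1, h2, h2.1 v h3 hw⟩
  have hUT : Disjoint U T := by
    rw [disjoint_left]
    intro v hv
    obtain ⟨X, -, h2, h3⟩ := (mU v).1 hv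
    exact disjoint_left.1 h2.2.1 h3
  -- the union with the root has no boundary
  have hbd : G.bd (U ∪ L) = ∅ := by
    rw [eq_empty_iff_forall_notMem]
    intro d hd
    obtain ⟨h1, h2, h3⟩ := (G.mem_bd).1 hd
    rw [mem_union, not_or] at h3
    have h4 : G.pi (G.al d) ∈ G.vs \ L := mem_sdiff.2 ⟨G.pi_mem _ (G.al_mem d h1), h3.2⟩
    rcases mem_union.1 h2 with h5 | h5
    · obtain ⟨X, k1, k2, k3⟩ := (mU _).1 h5
      refine k2.2.2 d ((G.mem_bd).2 ⟨h1, k3, fun k4 => h3.1 ((mU _).2 ⟨X, k1, k2, k4⟩)⟩) h4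
    · obtain ⟨X, k1, k2, k3, k4, k5⟩ := hno (G.al d) (G.al_mem d h1) h3.2 (by
        rw [G.al_al d h1]
        exact h5)
      exact h3.1 ((mU _).2 ⟨X, k1, ⟨k2, k3, k5⟩, k4⟩)
  have hUL : U ∪ L ⊆ G.vs := union_subset (hUR.trans sdiff_subset) h.adm.sub
  have hYT : Disjoint (U ∪ L) T := disjoint_union_left.2 ⟨hUT, h.TL.symm⟩
  rcases Nat.even_or_odd (U ∪ L).card with he | ho
  · have h1 := h.con _ hUL he (h.ne.mono subset_union_right) (by
      rintro e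
      obtain ⟨v, hv⟩ := h.Tn
      exact disjoint_left.1 hYT (e ▸ h.Tv hv) hv)
    rw [hbd] at h1
    exact absurd h1 (by simp)
  · have h1 := h.cc (U ∪ L) (adm_of_nc h.cls hUL (csat_union hUs h.satL) fun v hv hK =>
      disjoint_left.1 hYT hv (h.KT hK)) ho
    rw [hbd, card_empty] at h1
    omega

/-- saturated sets avoiding the targets -/
lemma five (h : G.Sg K F L T) {X : Finset V} (hX : X ⊆ G.vs \ L) (hs : CSat (G.nc K F) X)
    (hT : Disjoint X T) (ho : Odd X.card) : 5 ≤ (G.bd X).card :=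
  h.cc X (adm_of_nc h.cls (hX.trans sdiff_subset) hs fun _ hv hK =>
    disjoint_left.1 hT hv (h.KT hK)) ho

/-- **the route** -/
theorem route (h : G.Sg K F L T) : ∃ e A u, e ∈ G.ds ∧ G.pi e ∉ L ∧ G.pi (G.al e) ∈ L ∧
    G.Rw (G.nc K F) (G.vs \ L) T e A u ∧ ∃ s : Finset V → ℕ,
      (∀ X ⊆ G.vs, s X ≤ (G.tk X).card ∧ s X ≤ (G.tk (G.vs \ X)).card) ∧
      ∀ X ⊆ G.vs \ L, CSat (G.nc K F) X → Odd X.card →
        3 ≤ (G.bd X \ A).card + s X + if u ∈ X then 1 else 0 := by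
  obtain ⟨e, me, pe, ae, hE⟩ := h.start
  have hp := nc_part h.cls h.full
  have hne : G.al e ≠ e := fun k => pe (by rw [← k]; exact ae)
  have peR : G.pi e ∈ G.vs \ L := mem_sdiff.2 ⟨G.pi_mem e me, pe⟩
  rcases h.tok with ht | ⟨σ1, σ2, ht⟩
  · -- no tokens
    obtain ⟨v, hv⟩ := h.ne
    have hvv := h.adm.sub hv
    have hvK := h.adm.dis v hv
    obtain ⟨φ, hφ⟩ : (F.filter fun d => G.pi d = v).Nonempty := card_pos.1 (by
      rw [h.cls.F2 v hvv hvK]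
      exact two_pos)
    obtain ⟨hφF, hφv⟩ := mem_filter.1 hφ
    have hφL : G.pi φ ∈ L := by rw [hφv]; exact hv
    have hφL' : G.pi (G.al φ) ∈ L := h.adm.clo φ hφF hφL
    have htX : ∀ X ⊆ G.vs, G.tk X = ∅ := by
      intro X hX
      rw [eq_empty_iff_forall_notMem]
      intro d hd
      obtain ⟨k1, k2, k3⟩ := (G.mem_tk).1 hd
      have k4 : d ∈ G.tk G.vs := (G.mem_tk).2 ⟨k1, hX k2, k3⟩
      rw [ht] at k4
      exact absurd k4 (notMem_empty _)
    obtain ⟨A, u, hR, hval⟩ := routeQ (G := G) (cl := G.nc K F) hp (R := G.vs \ L) (T := T)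
      sdiff_subset h.satR h.TR h.satT (e := e) (φ := φ) me peR
      (Or.inr fun k => (mem_sdiff.1 k).2 ae) (h.cls.Fsub hφF)
      (fun _ => ⟨fun k => pe (k ▸ hφL), fun k => pe (k ▸ hφL')⟩)
      (fun _ k => absurd hφL (mem_sdiff.1 k).2)
      (fun X hX _ ho => h.b0 X (hX.trans sdiff_subset) ho)
      (fun X hX hs hT ho => (h.five hX hs hT ho).trans (Nat.le_add_right _ _))
      (fun X hX hs hT hm => by
        obtain ⟨d, k1, k2⟩ := hE X hX hs hT hm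
        obtain ⟨k3, k4, k5⟩ := (G.mem_bd).1 k1
        exact ⟨d, k1, k2, fun k => (mem_sdiff.1 (hX k4)).2 (k ▸ hφL),
          fun k => (mem_sdiff.1 k2).2 (k ▸ hφL)⟩)
    refine ⟨e, A, u, me, pe, ae, ⟨hR.sub, hR.mem, hR.clo, hR.nl, hR.um, hR.land, hR.deg, hR.off,
      hR.con⟩, fun _ => 0, fun X _ => ⟨Nat.zero_le _, Nat.zero_le _⟩, ?_⟩
    intro X hX hs ho
    have h1 := hval X hX hs ho
    unfold rv at h1
    rw [sb_eq, htX X (hX.trans sdiff_subset), union_empty] at h1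
    exact h1
  · -- two tokens
    have n1 : ∀ d ∈ G.ds, G.al d ≠ d → d ≠ σ1 ∧ d ≠ σ2 := fun d _ k =>
      ⟨fun k' => k (k' ▸ ht.t1), fun k' => k (k' ▸ ht.t2)⟩
    have e12 := n1 e me hne
    have k1T : G.pi σ1 ∈ T := h.KT (h.cls.tokK σ1 ht.m1 ht.t1)
    have k2T : G.pi σ2 ∈ T := h.KT (h.cls.tokK σ2 ht.m2 ht.t2)
    have hp' : ht.gr.Part (G.nc K F) := ⟨hp.self, hp.sub, hp.eq⟩
    obtain ⟨A, u, hR, hval⟩ := routeQ (G := ht.gr) (cl := G.nc K F) hp' (R := G.vs \ L) (T := T)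
      sdiff_subset h.satR h.TR h.satT (e := e) (φ := σ1) me peR
      (Or.inr fun k => by
        rw [ht.al_of e12.1 e12.2] at k
        exact (mem_sdiff.1 k).2 ae) ht.m1
      (fun _ => ⟨e12.1.symm, by rw [ht.al1]; exact e12.2.symm⟩)
      (fun _ _ _ => Or.inl k1T)
      (fun X hX _ ho => ht.b0 h.b0 h.even X (hX.trans sdiff_subset) ho)
      (fun X hX hs hT ho => by
        rw [ht.dg_gr]
        exact (h.five hX hs hT ho).trans (Nat.le_add_right _ _))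
      (fun X hX hs hT hm => by
        obtain ⟨d, k1, k2⟩ := hE X hX hs hT hm
        obtain ⟨k3, k4, k5⟩ := (G.mem_bd).1 k1
        have d1 : d ≠ σ1 := fun k => disjoint_left.1 hT k4 (k ▸ k1T)
        have d2 : d ≠ σ2 := fun k => disjoint_left.1 hT k4 (k ▸ k2T)
        have d3 := ht.al_of d1 d2
        refine ⟨d, (mem_bd _).2 ⟨k3, k4, ?_⟩, ?_, d1, ?_⟩
        · rw [d3]
          exact k5
        · rw [d3]
          exact k2
        · rw [d3]
          intro k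
          exact d1 (by rw [← G.al_al d k3, k, ht.t1]))
    have hA : ∀ d ∈ A, ht.gr.al d = G.al d := by
      intro d hd
      have h1 := hR.nphi (by rw [ht.al1]; exact ht.ne.symm)
      rw [ht.al1] at h1
      exact ht.al_of (fun k => h1.1 (k ▸ hd)) (fun k => h1.2 (k ▸ hd))
    refine ⟨e, A, u, me, pe, ae, ⟨hR.sub, hR.mem, ?_, ?_, hR.um, hR.land, hR.deg, hR.off, ?_⟩,
      TT.sg G σ1 σ2, fun X _ => ⟨ht.sg_le X, ht.sg_le'⟩, ?_⟩
    · intro d hd hde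
      have h1 := hR.clo d hd hde
      rwa [hA d hd] at h1
    · intro d hd hde
      have h1 := hR.nl d hd hde
      rwa [hA d hd] at h1
    · intro X hX hs h1 h2
      obtain ⟨d, k1, k2, k3, k4⟩ := hR.con X hX hs h1 h2
      rw [hA d k1] at k4
      exact ⟨d, k1, k2, k3, k4⟩
    · intro X hX hs ho
      have h1 := hval X hX hs ho
      have h2 := ht.sb_gr A X
      unfold rv at h1
      omega

end Sg

end JP.CG
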