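import Pool.Agent.Lib.JL.Main
import Pool.Agent.Lib.JP.Two
import Pool.Agent.Lib.JP.Tok
import Pool.Agent.Lib.JP.EvenSub

/-! From the main theorem for instances with long circuits to 2-factors of cubic graphs, with
prescribed edges in the second 2-factor (MP_c95763_co). -/

set_option autoImplicit false

namespace JP

open Finset Classical

section

variable {V : Type} [Fintype V] (G : SimpleGraph V)
  (hc : ∀ v : V, (G.neighborSet v).ncard = 3)

/-- the complement of a perfect matching -/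
private def compl2 (M : Finset (V × V)) (hM : (ofSG G hc).IsPM M) : SimpleGraph V where
  Adj v w := G.Adj v w ∧ (v, w) ∉ M
  symm := ⟨fun v w h => ⟨h.1.symm, fun hw => h.2 (hM.closed (w, v) hw)⟩⟩
  loopless := ⟨fun v h => G.loopless.irrefl v h.1⟩

private lemma compl2_le (M : Finset (V × V)) (hM : (ofSG G hc).IsPM M) :
    compl2 G hc M hM ≤ G := fun _ _ h => h.1

private lemma compl2_card (M : Finset (V × V))
    (hM : (ofSG G hc).IsPM M) (v : V) : ((compl2 G hc M hM).neighborSet v).ncard = 2 := by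
  obtain ⟨d, hd⟩ := Finset.card_eq_one.1 (hM.one v (Finset.mem_univ v))
  have hd1 : d ∈ M ∧ d.1 = v := by
    have : d ∈ M.filter fun d => (ofSG G hc).pi d = v := by rw [hd]; simp
    rw [Finset.mem_filter] at this
    exact this
  obtain ⟨a, w⟩ := d
  obtain ⟨hm, rfl⟩ := hd1
  have hadj : G.Adj a w := by
    have := hM.sub hm
    simpa [ofSG] using this
  have hset : (compl2 G hc M hM).neighborSet a = G.neighborSet a \ {w} := by
    ext x
    simp only [SimpleGraph.mem_neighborSet, Set.mem_sdiff, Set.mem_singleton_iff]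
    constructor
    · rintro ⟨h1, h2⟩
      refine ⟨h1, ?_⟩
      rintro rfl
      exact h2 hm
    · rintro ⟨h1, h2⟩
      refine ⟨h1, fun h3 => h2 ?_⟩
      have : (a, x) ∈ M.filter fun d => (ofSG G hc).pi d = a := by
        rw [Finset.mem_filter]
        exact ⟨h3, rfl⟩
      rw [hd, Finset.mem_singleton] at this
      exact (Prod.ext_iff.1 this).2
  rw [hset, Set.ncard_sdiff_singleton_of_mem (show w ∈ G.neighborSet a from hadj), hc]

private lemma filt_inst {α : Type*} {s : Finset α} {p : α → Prop} (i j : DecidablePred p) :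
    @Finset.filter α p i s = @Finset.filter α p j s := by
  have h : i = j := Subsingleton.elim i j
  subst h
  rfl

/-- the darts of the edges of `G` outside `F` -/
private noncomputable def mt (F : SimpleGraph V) : Finset (V × V) :=
  univ.filter fun d => G.Adj d.1 d.2 ∧ ¬ F.Adj d.1 d.2

private lemma mem_mt {F : SimpleGraph V} {d : V × V} :
    d ∈ mt G F ↔ G.Adj d.1 d.2 ∧ ¬ F.Adj d.1 d.2 := by
  unfold mt
  rw [mem_filter]
  exact ⟨fun h => h.2, fun h => ⟨mem_univ _, h⟩⟩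

private lemma mt_pm {F : SimpleGraph V} (hF : F ≤ G)
    (hF2 : ∀ v : V, (F.neighborSet v).ncard = 2) : (ofSG G hc).IsPM (mt G F) := by
  refine ⟨?_, ?_, ?_, ?_⟩
  · intro d hd
    rw [ofSG_mem_ds]
    exact ((mem_mt G).1 hd).1
  · intro d hd
    rw [mem_mt] at hd ⊢
    exact ⟨hd.1.symm, fun h => hd.2 h.symm⟩
  · intro d hd h
    have h1 := ((mem_mt G).1 hd).1
    have h4 : d.2 = d.1 := congrArg Prod.fst (h : d.swap = d)
    rw [h4] at h1
    exact G.loopless.irrefl _ h1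
  · intro v _
    have h1 : ((mt G F).filter fun p => (ofSG G hc).pi p = v) =
        (univ.filter fun w => G.Adj v w ∧ ¬ F.Adj v w).image fun w => (v, w) := by
      ext ⟨a, b⟩
      rw [mem_filter, mem_mt]
      simp only [mem_filter, mem_univ, true_and, mem_image, Prod.mk.injEq]
      constructor
      · rintro ⟨h, e⟩
        have e' : a = v := e
        subst e'
        exact ⟨b, h, rfl, rfl⟩
      · rintro ⟨w, h, rfl, rfl⟩
        exact ⟨h, rfl⟩
    rw [h1, card_image_of_injective _ (fun a b h => (Prod.mk.injEq _ _ _ _ ▸ h).2)]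
    have h2 : ((univ.filter fun w => G.Adj v w ∧ ¬ F.Adj v w : Finset V) : Set V) =
        G.neighborSet v \ F.neighborSet v := by
      ext w
      simp
    have h3 : F.neighborSet v ⊆ G.neighborSet v := fun w hw => hF hw
    rw [← Set.ncard_coe_finset, h2, Set.ncard_sdiff h3 (Set.toFinite _), hc, hF2]

/-- the vertex set of the component of `v` -/
private noncomputable def cp (F : SimpleGraph V) (v : V) : Finset V :=
  univ.filter fun w => F.Reachable v w

private lemma mem_cp {F : SimpleGraph V} {v w : V} : w ∈ cp F v ↔ F.Reachable v w := by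
  unfold cp
  rw [mem_filter]
  exact ⟨fun h => h.2, fun h => ⟨mem_univ _, h⟩⟩

/-- the components with more than five vertices, of vertices outside `K0` -/
private noncomputable def lc (F : SimpleGraph V) (K0 : Finset V) : Finset (Finset V) :=
  (univ.filter fun v => v ∉ K0 ∧ 5 < (cp F v).card).image (cp F)

private lemma mem_lc {F : SimpleGraph V} {K0 L : Finset V} :
    L ∈ lc F K0 ↔ ∃ v, (v ∉ K0 ∧ 5 < (cp F v).card) ∧ cp F v = L := by
  unfold lc
  rw [mem_image]
  constructor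
  · rintro ⟨v, h1, h2⟩
    exact ⟨v, (mem_filter.1 h1).2, h2⟩
  · rintro ⟨v, h1, h2⟩
    exact ⟨v, mem_filter.2 ⟨mem_univ _, h1⟩, h2⟩

private lemma mt_smW {F : SimpleGraph V} (hF : F ≤ G) {K0 : Finset V}
    (hK0 : ∀ v w : V, F.Reachable v w → w ∈ K0 → v ∈ K0) (E : Finset (V × V))
    (hE : ∀ d, d ∈ E ↔ d ∈ (ofSG G hc).ds ∧ d ∉ mt G F) :
    (ofSG G hc).SmW K0 E (lc F K0) := by
  have hmem : ∀ d : V × V, d ∈ E ↔ F.Adj d.1 d.2 := by
    intro d
    rw [hE, ofSG_mem_ds, mem_mt]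
    constructor
    · rintro ⟨h1, h2⟩
      by_contra h
      exact h2 ⟨h1, h⟩
    · intro h
      exact ⟨hF h, fun h2 => h2.2 h⟩
  have hcl : ∀ Z, (ofSG G hc).Adm K0 E Z → ∀ v ∈ Z, ∀ w : V, F.Reachable v w → w ∈ Z := by
    intro Z hZ v hv w hw
    by_contra hn
    obtain ⟨q⟩ := hw
    obtain ⟨d, -, hd1, hd2⟩ := q.exists_boundary_dart (Z : Set V) (by exact_mod_cast hv)
      (by exact_mod_cast hn)
    have h1 := hZ.clo (d.fst, d.snd) ((hmem _).2 d.adj) (by exact_mod_cast hd1)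
    exact hd2 (by exact_mod_cast h1)
  have hadm : ∀ v, v ∉ K0 → (ofSG G hc).Adm K0 E (cp F v) := by
    intro v hv
    refine ⟨fun w _ => mem_univ w, fun w hw hK => hv (hK0 v w (mem_cp.1 hw) hK), ?_⟩
    intro d hd hdw
    exact mem_cp.2 ((mem_cp.1 hdw).trans ((hmem d).1 hd).reachable)
  refine ⟨?_, ?_, ?_⟩
  · intro L hL
    obtain ⟨v, ⟨h1, -⟩, rfl⟩ := mem_lc.1 hL
    refine ⟨hadm v h1, ⟨v, mem_cp.2 (SimpleGraph.Reachable.refl _)⟩, ?_⟩
    rintro Z hZ ⟨u, hu⟩ w hw
    obtain ⟨hu1, hu2⟩ := mem_inter.1 hu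
    exact hcl Z hZ u hu1 w ((mem_cp.1 hu2).symm.trans (mem_cp.1 hw))
  · intro L hL
    obtain ⟨v, ⟨-, h1⟩, rfl⟩ := mem_lc.1 hL
    exact h1
  · intro Z hZ v hv
    have hv0 : v ∉ K0 := hZ.dis v hv
    by_cases h5 : 5 < (cp F v).card
    · exact Or.inl ⟨_, mem_lc.2 ⟨v, ⟨hv0, h5⟩, rfl⟩, mem_cp.2 (SimpleGraph.Reachable.refl _)⟩
    · refine Or.inr ⟨_, ?_, hadm v hv0, mem_cp.2 (SimpleGraph.Reachable.refl _), by omega⟩
      intro w hw
      exact hcl Z hZ v hv w (mem_cp.1 hw)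

private lemma mt_three {F : SimpleGraph V} (hF : F ≤ G)
    (hF2 : ∀ v : V, (F.neighborSet v).ncard = 2)
    (hcut : ∀ X : Set V, {e : V × V | e.1 ∈ X ∧ e.2 ∉ X ∧ G.Adj e.1 e.2}.ncard = 3 →
      ∃ v ∈ X, ∃ w, w ∉ X ∧ F.Adj v w) (i : DecidablePred fun d : V × V => d ∈ mt G F) :
    ∀ X ⊆ (ofSG G hc).vs, Odd X.card → ((ofSG G hc).bd X).card = 3 →
      (@Finset.filter _ (fun d => d ∈ mt G F) i ((ofSG G hc).bd X)).card = 1 := by
  intro X hX ho h3
  have hpm := mt_pm G hc hF hF2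
  have hpar := (hpm.parity hX).2 ho
  rw [filt_inst _ i] at hpar
  have hset : {e : V × V | e.1 ∈ (X : Set V) ∧ e.2 ∉ (X : Set V) ∧ G.Adj e.1 e.2} =
      (((ofSG G hc).bd X : Finset (V × V)) : Set (V × V)) := by
    ext e
    rw [mem_coe, ofSG_mem_bd]
    simp only [Set.mem_ofPred_eq, mem_coe]
    tauto
  obtain ⟨v, hv, w, hw, hvw⟩ := hcut X (by rw [hset, Set.ncard_coe_finset]; exact h3)
  have hlt : (@Finset.filter _ (fun d => d ∈ mt G F) i ((ofSG G hc).bd X)).card < 3 := by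
    rw [← h3]
    apply card_lt_card
    refine ⟨filter_subset _ _, fun h => ?_⟩
    have h1 : (v, w) ∈ (ofSG G hc).bd X := by
      rw [ofSG_mem_bd]
      exact ⟨hF hvw, by exact_mod_cast hv, by exact_mod_cast hw⟩
    exact ((mem_mt G).1 (mem_filter.1 (h h1)).2).2 hvw
  obtain ⟨k, hk⟩ := hpar
  omega

end

/-- the main theorem applied to a 2-factor whose complement `M1` contains no odd cut of size 3; `B`
is a set of at most two edges which the second perfect matching has to avoid; `K0` is a component of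
the union of the 2-factor and `B` -/
lemma two_coreL {V : Type} [Fintype V] {D : Type} (G : CG V D) (huniv : G.vs = univ)
    (heven : Even G.vs.card) (htk : G.tk G.vs = ∅) (hb : G.B0)
    (hmain : ∀ (G : CG V D) (K : Finset V) (F : Finset D) (W : Finset (Finset V)),
      G.InstW K F W → ∃ M, G.Good K F M)
    {M1 : Finset D} (hM1 : G.IsPM M1)
    (h3 : ∀ X ⊆ G.vs, Odd X.card → (G.bd X).card = 3 →
      ((G.bd X).filter fun d => d ∈ M1).card = 1) (B : Finset D) (hBa : ∀ d ∈ B, G.al d ∈ B)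
    (hBd : B ⊆ G.ds) (K0 : Finset V) (W : Finset (Finset V))
    (hn : (B.card + 2 * W.card ≤ 4 ∧ W.card ≤ 1) ∨ (K0 = ∅ ∧ B = ∅ ∧ W.card ≤ 3)) (hBK : ∀ d ∈ B, G.pi d ∈ K0)
    (hcl : ∀ Z : Finset V, (∀ d ∈ G.ds, (d ∉ M1 ∨ d ∈ B) → G.pi d ∈ Z → G.pi (G.al d) ∈ Z) →
      K0 ⊆ Z ∨ ∀ v ∈ Z, v ∉ K0)
    (hsm : G.SmW K0 (G.ds \ M1) W) :
    ∃ M2 : Finset D, G.IsPM M2 ∧ (∀ d ∈ B, d ∉ M2) ∧
      ∀ Z : Finset V, Odd Z.card → ∃ d ∈ G.bd Z, ¬ (d ∈ M1 ∧ d ∈ M2) := by
  have hsub : ∀ Z : Finset V, Z ⊆ G.vs := fun Z => by rw [huniv]; exact subset_univ _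
  have hnotok : ∀ d ∈ G.ds, G.al d ≠ d := by
    intro d hd h
    have : d ∈ G.tk G.vs := (G.mem_tk).2 ⟨hd, G.pi_mem d hd, h⟩
    rw [htk] at this
    exact absurd this (notMem_empty _)
  have htkZ : ∀ Z : Finset V, G.tk Z = ∅ := by
    intro Z
    rw [eq_empty_iff_forall_notMem]
    intro d hd
    obtain ⟨h1, _, h2⟩ := (G.mem_tk).1 hd
    exact hnotok d h1 h2
  have hsubM : ∀ Z : Finset V, G.Adm K0 (G.ds \ M1) Z → G.bd Z ⊆ M1 := by
    intro Z hZ d hd
    by_contra hdM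
    obtain ⟨h1, h2, h3'⟩ := (G.mem_bd).1 hd
    exact h3' (hZ.clo d (mem_sdiff.2 ⟨h1, hdM⟩) h2)
  have hinst : G.Inst0 K0 (G.ds \ M1) := by
    refine ⟨heven, ?_, hb, ?_, ?_⟩
    · rw [htk]; simp
    · refine ⟨hsub _, sdiff_subset, ?_, ?_, ?_, ?_⟩
      · intro d hd
        obtain ⟨h1, h2⟩ := mem_sdiff.1 hd
        refine mem_sdiff.2 ⟨G.al_mem d h1, fun h => h2 ?_⟩
        have := hM1.closed _ h
        rwa [G.al_al d h1] at this
      · intro d hd
        exact hnotok d (mem_sdiff.1 hd).1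
      · intro v hv _
        have e1 : ((G.ds \ M1).filter fun d => G.pi d = v) =
            (G.ds.filter fun d => G.pi d = v) \ (M1.filter fun d => G.pi d = v) := by
          ext d
          simp only [mem_filter, mem_sdiff]
          tauto
        rw [e1, card_sdiff_of_subset (filter_subset_filter _ hM1.sub), G.cubic v hv, hM1.one v hv]
      · intro d hd h
        exact absurd h (hnotok d hd)
    · intro Z hZ hodd
      have hs := hsubM Z hZ
      have e0 : G.dg Z = (G.bd Z).card := by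
        unfold CG.dg
        rw [htkZ Z]
        simp
      have h1 : 3 ≤ (G.bd Z).card := by
        rw [← e0]; exact hb Z (hsub Z) hodd
      have h2 : Odd (G.bd Z).card := by
        rw [← e0]; exact (G.dg_parity (hsub Z)).2 hodd
      have h4 : (G.bd Z).card ≠ 3 := by
        intro h
        have h5 := h3 Z (hsub Z) hodd h
        rw [filter_true_of_mem (fun d hd => hs hd), h] at h5
        omega
      obtain ⟨k, hk⟩ := h2
      omega
  have hBc : (G.tk G.vs).card + B.card ≤ 4 := by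
    rw [htk, card_empty, zero_add]
    rcases hn with ⟨h1, -⟩ | ⟨-, h1, -⟩
    · omega
    · rw [h1, card_empty]
      omega
  have hinst0 := CG.tok_cut0 G hinst hBa hBd (fun d hd => hnotok d (hBd hd)) hBc
  have htc : ((G.cutS B hBa).tk (G.cutS B hBa).vs).card = B.card := by
    have h1 := CG.cutS_tk_card hBa hBd (fun d hd => hnotok d (hBd hd))
    have h2 : (G.cutS B hBa).vs = G.vs := rfl
    rw [h2, h1, htk, card_empty, zero_add]
  have hinst' : (G.cutS B hBa).InstW (K0 ∪ B.image G.pi) ((G.ds \ M1) \ B)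
      (W.filter fun L => (G.cutS B hBa).Adm (K0 ∪ B.image G.pi) ((G.ds \ M1) \ B) L) := by
    refine ⟨hinst0, ?_, hsm.of_adm (fun Z hZ => ((CG.cutS_adm hBa hBd hinst.cls).1 hZ).1)
      fun Z hZ Z' hs hZ' => (CG.cutS_adm hBa hBd hinst.cls).2
        ⟨hZ', fun d hd hv => ((CG.cutS_adm hBa hBd hinst.cls).1 hZ).2 d hd (hs hv)⟩⟩
    have hle : (W.filter fun L => (G.cutS B hBa).Adm (K0 ∪ B.image G.pi) ((G.ds \ M1) \ B) L).card ≤
        W.card := card_le_card (filter_subset _ _)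
    unfold CG.Nm
    rw [htc]
    rcases hn with ⟨h1, h2⟩ | ⟨h1, h2, h3⟩
    · exact Or.inl ⟨by omega, by omega⟩
    · refine Or.inr ⟨?_, by omega⟩
      rw [h1, h2]
      simp
  obtain ⟨M2, hM2⟩ := hmain _ _ _ _ hinst'
  obtain ⟨hpm, hBM⟩ := (CG.cutS_pm hBa).1 hM2.pm
  refine ⟨M2, hpm, hBM, ?_⟩
  -- it is enough to exclude closed odd sets disjoint from `K0`
  have main : ∀ Z : Finset V, Odd Z.card → (∀ v ∈ Z, v ∉ K0) →
      (∀ d ∈ G.bd Z, d ∈ M1 ∧ d ∈ M2) → False := by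
    intro Z hodd hK hZ1
    have hadm : G.Adm K0 (G.ds \ M1) Z := by
      refine ⟨hsub Z, hK, ?_⟩
      intro d hd hp
      obtain ⟨h1, h2⟩ := mem_sdiff.1 hd
      by_contra h
      exact h2 (hZ1 d ((G.mem_bd).2 ⟨h1, hp, h⟩)).1
    obtain ⟨d, hd, hdM⟩ := hM2.hit Z ((CG.cutS_adm hBa hBd hinst.cls).2
      ⟨hadm, fun d hd hp => hK _ hp (hBK d hd)⟩) hodd
    rw [CG.cutS_bd hBa, mem_sdiff] at hd
    exact hdM (hZ1 d hd.1).2
  intro Z hodd
  by_contra hcon
  push Not at hcon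
  have hZ1 : ∀ d ∈ G.bd Z, d ∈ M1 ∧ d ∈ M2 := hcon
  have hclo : ∀ d ∈ G.ds, (d ∉ M1 ∨ d ∈ B) → G.pi d ∈ Z → G.pi (G.al d) ∈ Z := by
    intro d hd h1 h2
    by_contra h4
    have h5 := hZ1 d ((G.mem_bd).2 ⟨hd, h2, h4⟩)
    rcases h1 with h1 | h1
    · exact h1 h5.1
    · exact hBM d h1 h5.2
  rcases hcl Z hclo with hv | hv
  · -- use the complement
    have hcard : (G.vs \ Z).card + Z.card = G.vs.card := card_sdiff_add_card_eq_card (hsub Z)
    have hoddc : Odd (G.vs \ Z).card := by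
      obtain ⟨a, ha⟩ := hodd
      obtain ⟨b, hb'⟩ := heven
      rw [Nat.odd_iff]
      omega
    refine main (G.vs \ Z) hoddc (fun v hvv h => (mem_sdiff.1 hvv).2 (hv h)) ?_
    intro d hd
    obtain ⟨h1, h2, h6⟩ := (G.mem_bd).1 hd
    have h7 : G.pi (G.al d) ∈ Z := by
      by_contra h8
      exact h6 (mem_sdiff.2 ⟨G.pi_mem _ (G.al_mem d h1), h8⟩)
    have h8 : G.al d ∈ G.bd Z := by
      refine (G.mem_bd).2 ⟨G.al_mem d h1, h7, ?_⟩
      rw [G.al_al d h1]
      exact (mem_sdiff.1 h2).2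
    have h9 := hZ1 _ h8
    have h10 := hM1.closed _ h9.1
    have h11 := hpm.closed _ h9.2
    rw [G.al_al d h1] at h10 h11
    exact ⟨h10, h11⟩
  · exact main Z hodd hv hZ1

/-- the long circuits outside a component -/
private lemma lc_card {V : Type} [Fintype V] {F A : SimpleGraph V} {v0 : V} {K0 : Finset V}
    (hK0 : ∀ v, v ∈ K0 ↔ (F ⊔ A).Reachable v0 v) :
    (lc F K0).card ≤ {S : Set V | 5 < S.ncard ∧ ∃ v : V, ¬ (F ⊔ A).Reachable v0 v ∧
      S = {w | F.Reachable v w}}.ncard := by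
  rw [← Set.ncard_coe_finset]
  refine Set.ncard_le_ncard_of_injOn (fun L : Finset V => (L : Set V)) ?_ ?_ (Set.toFinite _)
  · intro L hL
    obtain ⟨v, ⟨h1, h2⟩, rfl⟩ := mem_lc.1 (mem_coe.1 hL)
    refine ⟨?_, v, fun h => h1 ((hK0 v).2 h), ?_⟩
    · rw [Set.ncard_coe_finset]
      exact h2
    · ext w
      rw [mem_coe, mem_cp]
      rfl
  · intro L _ L' _ h
    exact coe_injective h

/-- **the theorem for cubic graphs** -/
theorem finalL :
    ∀ (V : Type) [Fintype V] (G F A : SimpleGraph V),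
      (∀ v : V, (G.neighborSet v).ncard = 3) →
      (∀ v w : V, G.Adj v w → (G.deleteEdges {s(v, w)}).Reachable v w) →
      F ≤ G → (∀ v : V, (F.neighborSet v).ncard = 2) →
      (∀ X : Set V, {e : V × V | e.1 ∈ X ∧ e.2 ∉ X ∧ G.Adj e.1 e.2}.ncard = 3 →
        ∃ v ∈ X, ∃ w, w ∉ X ∧ F.Adj v w) →
      A ≤ G → ∀ v₀ : V, (∀ v w : V, A.Adj v w → (F ⊔ A).Reachable v₀ v) →
      {S : Set V | 5 < S.ncard ∧ ∃ v : V, ¬ (F ⊔ A).Reachable v₀ v ∧
        S = {w | F.Reachable v w}}.ncard + A.edgeSet.ncard ≤ 2 →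
      ∃ F₂ C : SimpleGraph V,
        F₂ ≤ G ∧ C ≤ G ∧ A ≤ F₂ ∧
        (∀ v : V, (F₂.neighborSet v).ncard = 2) ∧
        (∀ v : V, Even ((C.neighborSet v).ncard)) ∧
        F ⊔ F₂ ⊔ C = G := by
  intro V _ G F A hc hb hF hF2 hcut hA v0 hAv hnum
  have h1 := mt_pm G hc hF hF2
  -- the darts of `A`
  obtain ⟨B, hB⟩ : ∃ B : Finset (V × V), ∀ d, d ∈ B ↔ A.Adj d.1 d.2 :=
    ⟨univ.filter fun d => A.Adj d.1 d.2, fun d => by simp⟩
  have hBa : ∀ d ∈ B, (ofSG G hc).al d ∈ B := by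
    intro d hd
    exact (hB _).2 ((hB d).1 hd).symm
  have hBd : B ⊆ (ofSG G hc).ds := by
    intro d hd
    rw [ofSG_mem_ds]
    exact hA ((hB d).1 hd)
  have hBc : B.card ≤ 2 * A.edgeSet.ncard := by
    have h2 : B.card ≤ 2 * (A.edgeFinset).card := by
      rw [← SimpleGraph.sum_degrees_eq_twice_card_edges]
      have h3 : B = univ.biUnion fun v : V => (A.neighborFinset v).image fun w => (v, w) := by
        ext ⟨a, b⟩
        rw [hB]
        simp
      rw [h3]
      refine (card_biUnion_le).trans (sum_le_sum fun v _ => ?_)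
      exact card_image_le.trans (le_of_eq (SimpleGraph.card_neighborFinset_eq_degree _ _))
    have h3 : (A.edgeFinset).card = A.edgeSet.ncard := by
      rw [← Set.ncard_coe_finset, SimpleGraph.coe_edgeFinset]
    omega
  obtain ⟨KK, hKK⟩ : ∃ K0 : Finset V, ∀ v, v ∈ K0 ↔ (F ⊔ A).Reachable v0 v :=
    ⟨univ.filter fun v => (F ⊔ A).Reachable v0 v, fun v => by simp⟩
  have hcnt := lc_card hKK
  -- the root set
  obtain ⟨K0, hBK, hcl, hKr, hn⟩ : ∃ K0 : Finset V, (∀ d ∈ B, d.1 ∈ K0) ∧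
      (∀ Z : Finset V, (∀ d ∈ (ofSG G hc).ds, (d ∉ mt G F ∨ d ∈ B) → (ofSG G hc).pi d ∈ Z →
        (ofSG G hc).pi ((ofSG G hc).al d) ∈ Z) → K0 ⊆ Z ∨ ∀ v ∈ Z, v ∉ K0) ∧
      (∀ v w : V, F.Reachable v w → w ∈ K0 → v ∈ K0) ∧
      ((B.card + 2 * (lc F K0).card ≤ 4 ∧ (lc F K0).card ≤ 1) ∨
        (K0 = ∅ ∧ B = ∅ ∧ (lc F K0).card ≤ 3)) := by
    by_cases hA0 : A.edgeSet.ncard = 0
    · -- nothing is prescribed
      have hB0 : B = ∅ := card_eq_zero.1 (by omega)
      have hAbot : ∀ v w, ¬ A.Adj v w := fun v w h => by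
        have h2 := (hB (v, w)).2 h
        rw [hB0] at h2
        exact notMem_empty _ h2
      refine ⟨∅, ?_, fun Z _ => Or.inl (empty_subset _), fun _ _ _ h => absurd h (notMem_empty _), Or.inr ⟨rfl, hB0, ?_⟩⟩
      · intro d hd
        rw [hB0] at hd
        exact absurd hd (notMem_empty _)
      · have h2 : lc F ∅ ⊆ insert (cp F v0) (lc F KK) := by
          intro L hL
          obtain ⟨v, ⟨-, h3⟩, rfl⟩ := mem_lc.1 hL
          rw [mem_insert]
          by_cases h4 : v ∈ KK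
          · left
            have h5 : F.Reachable v0 v := by
              have h6 := (hKK v).1 h4
              refine h6.mono fun a b h7 => ?_
              rw [SimpleGraph.sup_adj] at h7
              exact h7.resolve_right (hAbot a b)
            ext w
            rw [mem_cp, mem_cp]
            exact ⟨fun h6 => h5.trans h6, fun h6 => h5.symm.trans h6⟩
          · right
            exact mem_lc.2 ⟨v, ⟨h4, h3⟩, rfl⟩
        have h3 := (card_le_card h2).trans (card_insert_le _ _)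
        omega
    · refine ⟨KK, fun d hd => (hKK _).2 (hAv _ _ ((hB d).1 hd)), ?_, ?_, Or.inl
        ⟨by omega, by omega⟩⟩
      · intro Z hZ
        by_cases hn : ∃ v ∈ Z, v ∈ KK
        · left
          obtain ⟨v, hv, hvK⟩ := hn
          intro w hw
          by_contra hwZ
          obtain ⟨q⟩ := ((hKK v).1 hvK).symm.trans ((hKK w).1 hw)
          obtain ⟨d, -, hd1, hd2⟩ := q.exists_boundary_dart (Z : Set V) (by exact_mod_cast hv)
            (by exact_mod_cast hwZ)
          have hadj := d.adj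
          rw [SimpleGraph.sup_adj] at hadj
          have hG : G.Adj d.fst d.snd := hadj.elim (fun h => hF h) (fun h => hA h)
          have h6 := hZ (d.fst, d.snd) ((ofSG_mem_ds G hc).2 hG) (by
            rcases hadj with h | h
            · left
              intro h7
              exact ((mem_mt G).1 h7).2 h
            · right
              exact (hB _).2 h) (by exact_mod_cast hd1)
          exact hd2 (by exact_mod_cast h6)
        · right
          push Not at hn
          exact hn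
      · intro v w hvw hw
        rw [hKK] at hw ⊢
        exact hw.trans (hvw.symm.mono le_sup_left)
  obtain ⟨M2, h2, hBM, hZ⟩ := two_coreL (ofSG G hc) rfl (ofSG_even G hc) (ofSG_tk G hc)
    (ofSG_b0 G hc hb) (CG.mainW V (V × V)) h1 (mt_three G hc hF hF2 hcut _) B hBa hBd K0 _ hn
    hBK hcl (mt_smW G hc hF hKr _ fun d =>
      @mem_sdiff _ (fun a b => propDecidable (a = b)) _ _ d)
  obtain ⟨C, hC, hT, hev⟩ := exists_even G hc (mt G F ∩ M2)
    (fun d hd => ((mem_mt G).1 (Finset.mem_inter.1 hd).1).1)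
    (fun d hd => Finset.mem_inter.2 ⟨h1.closed d (Finset.mem_inter.1 hd).1,
      h2.closed d (Finset.mem_inter.1 hd).2⟩)
    (fun Z hZo => by
      obtain ⟨d, hd, hd'⟩ := hZ Z hZo
      exact ⟨d, hd, fun h => hd' (Finset.mem_inter.1 h)⟩)
  refine ⟨compl2 G hc M2 h2, C, compl2_le G hc M2 h2, hC, ?_, compl2_card G hc M2 h2, hev, ?_⟩
  · intro v w h
    exact ⟨hA h, hBM _ ((hB (v, w)).2 h)⟩
  ext v w
  simp only [SimpleGraph.sup_adj]
  constructor
  · rintro ((h | h) | h)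
    · exact hF h
    · exact h.1
    · exact hC h
  · intro h
    by_cases hm1 : F.Adj v w
    · exact Or.inl (Or.inl hm1)
    · by_cases hm2 : (v, w) ∈ M2
      · exact Or.inr (hT _ (Finset.mem_inter.2 ⟨(mem_mt G).2 ⟨h, hm1⟩, hm2⟩))
      · exact Or.inl (Or.inr ⟨h, hm2⟩)

end JP
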